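import Mathlib
import Pool.Agent.H48.SM.Defs

set_option autoImplicit false

/-! Stringy motives of linear quotients, part M1: this file joins several modules to save build time. -/

section S_Ex

/-!
# The example: `G = (Z/2)^T` acting on `A^{6T}` over `F_2`

Block `b < T` has coordinates `x_{b,j} = X (b,0,j)` and `u_{b,j} = X (b,1,j)`, `j < 3`; the generator
`g_b` acts by `x_{b,j} ↦ x_{b,j} + u_{b,j}`.
-/

set_option autoImplicit false

namespace H48SM

/-- coordinates on `A^{6T}` -/
abbrev Cx (T : ℕ) : Type := Fin T × Fin 2 × Fin 3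

/-- the nilpotent matrix with `x_{b,j} ↦ S_b u_{b,j}` -/
def nil {T : ℕ} (S : Fin T → ZMod 2) : Matrix (Cx T) (Cx T) (ZMod 2) :=
  Matrix.of fun p q => if p.1 = q.1 ∧ p.2.2 = q.2.2 ∧ p.2.1 = 0 ∧ q.2.1 = 1 then S p.1 else 0

theorem nil_mul {T : ℕ} (S S' : Fin T → ZMod 2) : nil S * nil S' = 0 := by
  ext p q
  rw [Matrix.mul_apply]
  refine Finset.sum_eq_zero ?_
  intro c _
  simp only [nil, Matrix.of_apply]
  by_cases h : p.1 = c.1 ∧ p.2.2 = c.2.2 ∧ p.2.1 = 0 ∧ c.2.1 = 1
  · have : ¬ (c.1 = q.1 ∧ c.2.2 = q.2.2 ∧ c.2.1 = 0 ∧ q.2.1 = 1) := by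
      intro h'
      have h1 := h.2.2.2
      have h2 := h'.2.2.1
      rw [h1] at h2
      exact absurd h2 (by decide)
    rw [if_neg this, mul_zero]
  · rw [if_neg h, zero_mul]

theorem nil_add {T : ℕ} (S S' : Fin T → ZMod 2) : nil (S + S') = nil S + nil S' := by
  ext p q
  simp only [nil, Matrix.of_apply, Matrix.add_apply, Pi.add_apply]
  split_ifs <;> simp

theorem nil_zero {T : ℕ} : nil (0 : Fin T → ZMod 2) = 0 := by
  ext p q
  simp [nil]

theorem nil_self {T : ℕ} (S : Fin T → ZMod 2) : nil S + nil S = 0 := by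
  rw [← nil_add]
  have : S + S = 0 := by
    funext b
    exact CharTwo.add_self_eq_zero _
  rw [this, nil_zero]

/-- the group element -/
def gm {T : ℕ} (S : Fin T → ZMod 2) : Matrix.GeneralLinearGroup (Cx T) (ZMod 2) where
  val := 1 + nil S
  inv := 1 + nil S
  val_inv := by
    rw [add_mul, mul_add, mul_add, nil_mul, one_mul, mul_one, add_zero, add_assoc, one_mul,
      nil_self, add_zero]
  inv_val := by
    rw [add_mul, mul_add, mul_add, nil_mul, one_mul, mul_one, add_zero, add_assoc, one_mul,
      nil_self, add_zero]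

theorem gm_mul {T : ℕ} (S S' : Fin T → ZMod 2) : gm S * gm S' = gm (S + S') := by
  ext1
  change (1 + nil S) * (1 + nil S') = 1 + nil (S + S')
  rw [nil_add, add_mul, mul_add, mul_add, nil_mul, one_mul, mul_one, add_zero, one_mul]
  abel

theorem gm_zero {T : ℕ} : gm (0 : Fin T → ZMod 2) = 1 := by
  ext1
  change 1 + nil 0 = 1
  rw [nil_zero, add_zero]

/-- the group `(Z/2)^T` -/
def GB (T : ℕ) : Subgroup (Matrix.GeneralLinearGroup (Cx T) (ZMod 2)) where
  carrier := Set.range gm
  mul_mem' := by
    rintro _ _ ⟨S, rfl⟩ ⟨S', rfl⟩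
    exact ⟨S + S', (gm_mul S S').symm⟩
  one_mem' := ⟨0, gm_zero⟩
  inv_mem' := by
    rintro _ ⟨S, rfl⟩
    refine ⟨S, ?_⟩
    rw [eq_inv_iff_mul_eq_one, gm_mul]
    have : S + S = 0 := by
      funext b
      exact CharTwo.add_self_eq_zero _
    rw [this, gm_zero]

instance {T : ℕ} : Finite (GB T) := (Set.finite_range gm).to_subtype

/-- `r = |G| = 2^T` -/
noncomputable abbrev rr (T : ℕ) : ℕ := Nat.card (GB T)

/-! ### The chart -/

/-- coordinates of one block of a chart of the blow-up: `s`, `x` (or `N`), `w_j`, `z_j`; the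
coordinates `w_j`, `z_j` with `j` the pivot index are dummies -/
inductive Cv : Type
  | s
  | x
  | w (j : Fin 3)
  | z (j : Fin 3)
  deriving DecidableEq, Fintype

/-- the chart ring -/
abbrev P (T : ℕ) : Type := MvPolynomial (Fin T × Cv) (ZMod 2)

open MvPolynomial in
/-- the chart map with pivots `i`: `u_{b,i} = s`, `u_{b,j} = s w_j`, `x_{b,i} = x`,
`x_{b,j} = z_j + w_j x` -/
noncomputable def thetaP {T : ℕ} (i : Fin T → Fin 3) : MvPolynomial (Cx T) (ZMod 2) →ₐ[ZMod 2] P T :=
  aeval fun p => if p.2.1 = 1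
    then (if p.2.2 = i p.1 then X (p.1, Cv.s) else X (p.1, Cv.s) * X (p.1, Cv.w p.2.2))
    else (if p.2.2 = i p.1 then X (p.1, Cv.x)
      else X (p.1, Cv.z p.2.2) + X (p.1, Cv.w p.2.2) * X (p.1, Cv.x))

open MvPolynomial in
/-- `x ↦ N = x^2 + s x` -/
noncomputable def tau (T : ℕ) : P T →ₐ[ZMod 2] P T :=
  aeval fun p => if p.2 = Cv.x then X (p.1, Cv.x) ^ 2 + X (p.1, Cv.s) * X (p.1, Cv.x) else X p

open MvPolynomial in
/-- the action of the generator `g_b` on the chart: `x_b ↦ x_b + s_b` -/
noncomputable def sig {T : ℕ} (b : Fin T) : P T →ₐ[ZMod 2] P T :=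
  aeval fun p => if p = (b, Cv.x) then X (b, Cv.x) + X (b, Cv.s) else X p

/-- the chart coordinate corresponding to a coordinate of `A^{6T}` -/
def nu {T : ℕ} (i : Fin T → Fin 3) (p : Cx T) : Fin T × Cv :=
  (p.1, if p.2.1 = 1 then (if p.2.2 = i p.1 then Cv.s else Cv.w p.2.2)
    else (if p.2.2 = i p.1 then Cv.x else Cv.z p.2.2))

end H48SM

end S_Ex

section S_Grp

/-! # Module GRP: the group `(Z/2)^T` and its action

Proofs. `subst g (X p) = ∑ q, C (g p q) * X q` by `aeval_X`; here `g = 1 + nil S`
(`(gm S).val = 1 + nil S` by rfl): for `p = (b,0,j)` only `q = p` and `q = (b,1,j)` contribute, for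
`p = (b,1,j)` only `q = p`.
`inv_of_gen`: induct on the support of `S`, `gm (S + S') = gm S * gm S'`, `subst` of a product is the
composition (check the order; everything commutes), or directly: `gm S` is the product of the
commuting `gm (Pi.single b (S b))`.
`thetaP_subst`: both sides are algebra homomorphisms in `f`: check on `X p` (`MvPolynomial.algHom_ext`).
-/

set_option autoImplicit false

namespace H48SM

open MvPolynomial

theorem GRP_subst {T : ℕ} (S : Fin T → ZMod 2) (p : Cx T) :
    subst (gm S) (X p) = X p + ∑ q, C (nil S p q) * X q := by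
  have h1 : subst (gm S) (X p) = ∑ q, C ((gm S).val p q) * X q := by
    unfold subst
    rw [aeval_X]
  have h2 : ∀ q, C ((gm S).val p q) * X q =
      (if p = q then (X q : MvPolynomial (Cx T) (ZMod 2)) else 0) + C (nil S p q) * X q := by
    intro q
    have h3 : (gm S).val p q = (1 : Matrix (Cx T) (Cx T) (ZMod 2)) p q + nil S p q := rfl
    rw [h3, C_add, add_mul, Matrix.one_apply]
    split_ifs <;> simp
  rw [h1, Finset.sum_congr rfl fun q _ => h2 q, Finset.sum_add_distrib]
  simp

theorem subst_gm_x {T : ℕ} (S : Fin T → ZMod 2) (b : Fin T) (j : Fin 3) :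
    subst (gm S) (X (b, 0, j)) = X (b, 0, j) + C (S b) * X (b, 1, j) := by
  rw [GRP_subst]
  congr 1
  rw [Finset.sum_eq_single (b, 1, j)]
  · simp [nil]
  · rintro ⟨b', c, j'⟩ _ hne
    have : nil S (b, 0, j) (b', c, j') = 0 := by
      simp only [nil, Matrix.of_apply]
      rw [if_neg]
      rintro ⟨h1, h2, _, h4⟩
      exact hne (by rw [← h1, ← h2, h4])
    rw [this, C_0, zero_mul]
  · intro h
    exact absurd (Finset.mem_univ _) h

theorem subst_gm_u {T : ℕ} (S : Fin T → ZMod 2) (b : Fin T) (j : Fin 3) :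
    subst (gm S) (X (b, 1, j)) = X (b, 1, j) := by
  rw [GRP_subst, Finset.sum_eq_zero, add_zero]
  intro q _
  have : nil S (b, 1, j) q = 0 := by
    simp only [nil, Matrix.of_apply]
    rw [if_neg]
    rintro ⟨_, _, h3, _⟩
    exact absurd h3 (by decide)
  rw [this, C_0, zero_mul]

theorem GRP_add {T : ℕ} (S S' : Fin T → ZMod 2) (f : MvPolynomial (Cx T) (ZMod 2)) :
    subst (gm (S + S')) f = subst (gm S) (subst (gm S') f) := by
  have h : subst (gm (S + S')) = (subst (gm S)).comp (subst (gm S')) := by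
    apply MvPolynomial.algHom_ext
    rintro ⟨b, c, j⟩
    rw [AlgHom.comp_apply]
    fin_cases c
    · show subst (gm (S + S')) (X (b, 0, j)) = subst (gm S) (subst (gm S') (X (b, 0, j)))
      rw [subst_gm_x, subst_gm_x, map_add, map_mul, subst_gm_x, subst_gm_u]
      have : subst (gm S) (C (S' b)) = C (S' b) := (subst (gm S)).commutes (S' b)
      rw [this, Pi.add_apply, C_add]
      ring
    · show subst (gm (S + S')) (X (b, 1, j)) = subst (gm S) (subst (gm S') (X (b, 1, j)))
      rw [subst_gm_u, subst_gm_u, subst_gm_u]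
  rw [h, AlgHom.comp_apply]

theorem GRP_zero {T : ℕ} (f : MvPolynomial (Cx T) (ZMod 2)) :
    subst (gm (0 : Fin T → ZMod 2)) f = f := by
  have h : subst (gm (0 : Fin T → ZMod 2)) = AlgHom.id (ZMod 2) _ := by
    apply MvPolynomial.algHom_ext
    intro p
    rw [GRP_subst, nil_zero, AlgHom.id_apply, Finset.sum_eq_zero, add_zero]
    intro q _
    rw [Matrix.zero_apply, C_0, zero_mul]
  rw [h, AlgHom.id_apply]

theorem inv_of_gen {T : ℕ} (f : MvPolynomial (Cx T) (ZMod 2))
    (h : ∀ b, subst (gm (Pi.single b 1)) f = f) : f ∈ Inv (GB T) := by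
  let A : AddSubmonoid (Fin T → ZMod 2) :=
    { carrier := {S | subst (gm S) f = f}
      add_mem' := by
        intro a b ha hb
        show subst (gm (a + b)) f = f
        have ha' : subst (gm a) f = f := ha
        have hb' : subst (gm b) f = f := hb
        rw [GRP_add, hb', ha']
      zero_mem' := GRP_zero f }
  rintro _ ⟨S, rfl⟩
  have h1 : S ∈ A := by
    rw [← Finset.univ_sum_single S]
    refine A.sum_mem fun b _ => ?_
    have h2 : S b = 0 ∨ S b = 1 := by
      generalize S b = c
      revert c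
      decide
    rcases h2 with h2 | h2
    · rw [h2, Pi.single_zero]
      exact A.zero_mem
    · rw [h2]
      exact h b
  exact h1

theorem thetaP_subst {T : ℕ} (i : Fin T → Fin 3) (b : Fin T) (f : MvPolynomial (Cx T) (ZMod 2)) :
    thetaP i (subst (gm (Pi.single b 1)) f) = sig b (thetaP i f) := by
  have h : (thetaP i).comp (subst (gm (Pi.single b 1))) = (sig b).comp (thetaP i) := by
    apply MvPolynomial.algHom_ext
    rintro ⟨b', c, j⟩
    rw [AlgHom.comp_apply, AlgHom.comp_apply]
    have hC : ∀ c : ZMod 2, thetaP i (C c) = C c := fun c => (thetaP i).commutes c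
    fin_cases c
    · show thetaP i (subst (gm (Pi.single b 1)) (X (b', 0, j))) = sig b (thetaP i (X (b', 0, j)))
      rw [subst_gm_x, map_add, map_mul, hC]
      rcases eq_or_ne b' b with rfl | hb
      · rw [Pi.single_eq_same, C_1, one_mul]
        by_cases hj : j = i b'
        · subst hj
          simp [thetaP, sig]
        · simp only [thetaP, aeval_X, zero_ne_one, if_false, hj, if_true, sig, map_add, map_mul,
            Prod.mk.injEq, reduceCtorEq, and_false]
          ring
      · rw [Pi.single_eq_of_ne hb, C_0, zero_mul, add_zero]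
        by_cases hj : j = i b'
        · subst hj
          simp [thetaP, sig, hb]
        · simp [thetaP, sig, hb, hj]
    · show thetaP i (subst (gm (Pi.single b 1)) (X (b', 1, j))) = sig b (thetaP i (X (b', 1, j)))
      rw [subst_gm_u]
      by_cases hj : j = i b'
      · subst hj
        simp [thetaP, sig]
      · simp [thetaP, sig, hj]
  exact DFunLike.congr_fun h f

end H48SM

end S_Grp

section S_Rnk

/-! # Module RNK: order of the group, no pseudo-reflections

Proofs.
`card_GB`: `gm` is injective (entry `((b,0,0),(b,1,0))` of `gm S` is `S b`), so `GB T` is in bijection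
with `Fin T → ZMod 2`.
`rank_GB`: `g = gm S`, `g - 1 = nil S`.  If `S = 0` the rank is `0`.  If `S b ≠ 0` (so `S b = 1`) the
columns `(b,1,0)`, `(b,1,1)` of `nil S` are linearly independent, hence the rank is at least 2.
-/

set_option autoImplicit false

namespace H48SM

theorem rnk_nil {T : ℕ} (S : Fin T → ZMod 2) (b : Fin T) (j l : Fin 3) :
    nil S (b, 0, j) (b, 1, l) = if j = l then S b else 0 := by
  by_cases h : j = l
  · subst h
    simp [nil]
  · simp [nil, h]

theorem rnk_gm_injective (T : ℕ) : Function.Injective (gm : (Fin T → ZMod 2) → _) := by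
  intro S S' h
  have h1 : (gm S).val = (gm S').val := by rw [h]
  have h2 : nil S = nil S' := add_left_cancel (a := (1 : Matrix (Cx T) (Cx T) (ZMod 2))) h1
  funext b
  have h3 := congrFun (congrFun h2 (b, 0, 0)) (b, 1, 0)
  rw [rnk_nil, rnk_nil, if_pos rfl, if_pos rfl] at h3
  exact h3

theorem card_GB (T : ℕ) : Nat.card (GB T) = 2 ^ T := by
  have h1 : Nat.card (GB T) = Nat.card (Set.range (gm : (Fin T → ZMod 2) → _)) := rfl
  rw [h1, Nat.card_range_of_injective (rnk_gm_injective T), Nat.card_fun]
  simp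

theorem rank_GB (T : ℕ) : ∀ g ∈ GB T, (g.val - 1).rank ≠ 1 := by
  rintro _ ⟨S, rfl⟩ h
  have h1 : ((gm S).val - 1 : Matrix (Cx T) (Cx T) (ZMod 2)) = nil S :=
    add_sub_cancel_left (1 : Matrix (Cx T) (Cx T) (ZMod 2)) (nil S)
  rw [h1] at h
  have h0 : S ≠ 0 := by
    rintro rfl
    rw [nil_zero, Matrix.rank_zero] at h
    exact zero_ne_one h
  obtain ⟨b, hb⟩ := Function.ne_iff.1 h0
  have hb : S b ≠ 0 := hb
  rw [Matrix.rank_eq_finrank_span_cols] at h
  obtain ⟨v, -, hv⟩ := finrank_eq_one_iff'.1 h
  have hcol : ∀ l : Fin 3, ∃ c : ZMod 2, ∀ p, c * (v : Cx T → ZMod 2) p = nil S p (b, 1, l) := by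
    intro l
    obtain ⟨c, hc⟩ := hv ⟨(nil S).transpose (b, 1, l), Submodule.subset_span ⟨(b, 1, l), rfl⟩⟩
    refine ⟨c, fun p => ?_⟩
    exact congrFun (congrArg Subtype.val hc) p
  obtain ⟨c, hc⟩ := hcol 0
  obtain ⟨c', hc'⟩ := hcol 1
  have e1 := hc (b, 0, 0)
  have e2 := hc' (b, 0, 0)
  have e3 := hc' (b, 0, 1)
  rw [rnk_nil, if_pos rfl] at e1 e3
  rw [rnk_nil, if_neg (by decide)] at e2
  rcases mul_eq_zero.1 e2 with h4 | h4
  · rw [h4, zero_mul] at e3
    exact hb e3.symm
  · rw [h4, mul_zero] at e1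
    exact hb e1.symm

end H48SM

end S_Rnk

section S_El

/-! # The invariants `u_{b,j}`, `N_{b,j} = x^2 + u x`, `M_{b,i,j} = x_i u_j + x_j u_i` -/

set_option autoImplicit false

namespace H48SM

open MvPolynomial

/-- `u_{b,j}` -/
noncomputable def uI {T : ℕ} (b : Fin T) (j : Fin 3) : Inv (GB T) :=
  ⟨X (b, 1, j), by
    rintro _ ⟨S, rfl⟩
    exact subst_gm_u S b j⟩

/-- `N_{b,j} = x_{b,j}^2 + u_{b,j} x_{b,j}` -/
noncomputable def NI {T : ℕ} (b : Fin T) (j : Fin 3) : Inv (GB T) :=
  ⟨X (b, 0, j) ^ 2 + X (b, 1, j) * X (b, 0, j), by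
    rintro _ ⟨S, rfl⟩
    rw [map_add, map_pow, map_mul, subst_gm_u, subst_gm_x]
    have h2 : (2 : MvPolynomial (Cx T) (ZMod 2)) = 0 := CharTwo.two_eq_zero
    have hS : S b * S b = S b := by
      generalize S b = c
      revert c
      decide
    have hC : (C (S b) : MvPolynomial (Cx T) (ZMod 2)) * C (S b) = C (S b) := by
      rw [← C_mul, hS]
    linear_combination (X (b, 0, j) * C (S b) * X (b, 1, j) + C (S b) * X (b, 1, j) ^ 2) * h2 +
      (X (b, 1, j)) ^ 2 * hC⟩

/-- `M_{b,i,j} = x_{b,i} u_{b,j} + x_{b,j} u_{b,i}` -/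
noncomputable def MI {T : ℕ} (b : Fin T) (i j : Fin 3) : Inv (GB T) :=
  ⟨X (b, 0, i) * X (b, 1, j) + X (b, 0, j) * X (b, 1, i), by
    rintro _ ⟨S, rfl⟩
    rw [map_add, map_mul, map_mul, subst_gm_u, subst_gm_x, subst_gm_x, subst_gm_u]
    have h2 : (2 : MvPolynomial (Cx T) (ZMod 2)) = 0 := CharTwo.two_eq_zero
    linear_combination (C (S b) * X (b, 1, i) * X (b, 1, j)) * h2⟩

end H48SM

end S_El

section S_Inv1

/-! # Module INVL: polynomials in `x` invariant under `x ↦ x + s` are polynomials in `x^2 + s x`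

Proofs. `tau_injective`: give a total degree/leading term argument, or: write `P T` as an iterated
polynomial ring in the variables `x_b`; substituting the monic polynomial `x^2 + s x` of positive
degree for `x` is injective.  Clean way: for one block `b` factor `tau = tau_1 ∘ ... ∘ tau_T` with
`tau_b` the substitution in the single variable `x_b` (these commute), and use
`MvPolynomial.optionEquivLeft` / `Polynomial` over the ring `R` in the other variables:
`Polynomial.aeval (X^2 + C s * X)` is injective on `R[X]` (R a domain: `natDegree_comp`), and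
`f ∈ R[X]` with `f.comp (X + C s) = f`, `s ≠ 0`, is of the form `g.comp (X^2 + C s * X)`: divide by
the monic `X^2 + C s * X` (`modByMonic`): `f = N g + (α X + β)`, `N` is invariant, so
`N (g(X + s) - g) + α s = 0`, hence by degrees `α s = 0`, `α = 0` and `g(X+s) = g`: induct on the degree.
`exists_tau`: induct over the blocks: if `f` is invariant under all `sig b` then `f = tau_1 g_1`, and
`g_1` is invariant under `sig 2, ...` since `tau_1` is injective and commutes with `sig b`, `b ≠ 1`
(`s_b` and `x_b` of the other blocks are not touched); etc.  (For the induction one may use, for a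
finset `B` of blocks, the substitution `tau_B` in the variables `x_b`, `b ∈ B`.)
Characteristic 2: `X^2 + C s X` composed with `X + C s` is `X^2 + C s X + 2(...)`.
-/

set_option autoImplicit false

namespace H48SM

open MvPolynomial

set_option linter.unusedSectionVars false

section OneVar

variable {R : Type} [CommRing R] [IsDomain R]

/-- the quadratic norm polynomial -/
noncomputable def invl_q (s : R) : Polynomial R := Polynomial.X ^ 2 + Polynomial.C s * Polynomial.X

theorem invl_q_monic (s : R) : (invl_q s).Monic := by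
  unfold invl_q
  monicity!

theorem invl_q_natDegree (s : R) : (invl_q s).natDegree = 2 := by
  unfold invl_q
  compute_degree!

theorem invl_comp_injective (s : R) :
    Function.Injective (fun f : Polynomial R => f.comp (invl_q s)) := by
  intro f g hfg
  have h : (f - g).comp (invl_q s) = 0 := by
    rw [Polynomial.sub_comp]
    exact sub_eq_zero.2 hfg
  rw [Polynomial.comp_eq_zero_iff] at h
  rcases h with h | ⟨_, h⟩
  · exact sub_eq_zero.1 h
  · exfalso
    have h2 := invl_q_natDegree s
    rw [h, Polynomial.natDegree_C] at h2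
    omega

theorem invl_q_comp [CharP R 2] (s : R) :
    (invl_q s).comp (Polynomial.X + Polynomial.C s) = invl_q s := by
  unfold invl_q
  have h2 : (Polynomial.C s + Polynomial.C s : Polynomial R) = 0 := by
    rw [← Polynomial.C_add, CharTwo.add_self_eq_zero, Polynomial.C_0]
  simp only [Polynomial.add_comp, Polynomial.mul_comp, Polynomial.pow_comp, Polynomial.X_comp,
    Polynomial.C_comp]
  linear_combination (Polynomial.X + Polynomial.C s) * h2

theorem invl_one [CharP R 2] (s : R) (hs : s ≠ 0) (n : ℕ) :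
    ∀ f : Polynomial R, f.natDegree ≤ n → f.comp (Polynomial.X + Polynomial.C s) = f →
      ∃ g : Polynomial R, g.comp (invl_q s) = f := by
  induction n using Nat.strong_induction_on with
  | _ n ih =>
    intro f hn hf
    have hq := invl_q_monic s
    have hdiv := Polynomial.modByMonic_add_div f (invl_q s)
    have hdeg : (f %ₘ invl_q s).degree < (invl_q s).degree := Polynomial.degree_modByMonic_lt f hq
    have hdegq : (invl_q s).degree = 2 := by
      rw [Polynomial.degree_eq_natDegree hq.ne_zero, invl_q_natDegree]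
      rfl
    -- compose
    have hcomp : (f %ₘ invl_q s).comp (Polynomial.X + Polynomial.C s) +
        invl_q s * (f /ₘ invl_q s).comp (Polynomial.X + Polynomial.C s) = f := by
      have h := congrArg (fun p : Polynomial R => p.comp (Polynomial.X + Polynomial.C s)) hdiv
      simp only [Polynomial.add_comp, Polynomial.mul_comp, invl_q_comp] at h
      rw [h, hf]
    have hdeg' : ((f %ₘ invl_q s).comp (Polynomial.X + Polynomial.C s)).degree <
        (invl_q s).degree := by
      rw [hdegq] at hdeg ⊢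
      have h1 : (f %ₘ invl_q s).natDegree ≤ 1 := by
        by_cases h0 : f %ₘ invl_q s = 0
        · rw [h0]; simp
        · rw [Polynomial.degree_eq_natDegree h0] at hdeg
          have : (f %ₘ invl_q s).natDegree < 2 := by exact_mod_cast hdeg
          omega
      have h2 : ((f %ₘ invl_q s).comp (Polynomial.X + Polynomial.C s)).natDegree ≤ 1 := by
        refine Polynomial.natDegree_comp_le.trans ?_
        have h3 : (Polynomial.X + Polynomial.C s : Polynomial R).natDegree = 1 :=
          Polynomial.natDegree_X_add_C s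
        rw [h3, mul_one]
        exact h1
      exact lt_of_le_of_lt (Polynomial.degree_le_of_natDegree_le h2) (by decide)
    have huniq := Polynomial.div_modByMonic_unique _ _ hq ⟨hcomp, hdeg'⟩
    obtain ⟨hu1, hu2⟩ := huniq
    -- the remainder
    have hrem : ∃ β : R, f %ₘ invl_q s = Polynomial.C β := by
      rw [hdegq] at hdeg
      have h1 : (f %ₘ invl_q s).natDegree ≤ 1 := by
        by_cases h0 : f %ₘ invl_q s = 0
        · rw [h0]; simp
        · rw [Polynomial.degree_eq_natDegree h0] at hdeg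
          have : (f %ₘ invl_q s).natDegree < 2 := by exact_mod_cast hdeg
          omega
      obtain ⟨α, β, hab⟩ := Polynomial.exists_eq_X_add_C_of_natDegree_le_one h1
      rw [hab] at hu2
      simp only [Polynomial.add_comp, Polynomial.mul_comp, Polynomial.X_comp,
        Polynomial.C_comp] at hu2
      have h3 : Polynomial.C (α * s) = (0 : Polynomial R) := by
        rw [Polynomial.C_mul]
        linear_combination -hu2
      rw [Polynomial.C_eq_zero] at h3
      rcases mul_eq_zero.1 h3 with h4 | h4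
      · refine ⟨β, ?_⟩
        rw [hab, h4, Polynomial.C_0, zero_mul, zero_add]
      · exact absurd h4 hs
    obtain ⟨β, hβ⟩ := hrem
    by_cases hn0 : f.natDegree < 2
    · have h0 : f /ₘ invl_q s = 0 := by
        rw [Polynomial.divByMonic_eq_zero_iff hq]
        rw [hdegq]
        exact lt_of_le_of_lt Polynomial.degree_le_natDegree (by exact_mod_cast hn0)
      refine ⟨Polynomial.C β, ?_⟩
      rw [Polynomial.C_comp, ← hdiv, hβ, h0, mul_zero, add_zero]
    · push Not at hn0
      have hnd : (f /ₘ invl_q s).natDegree = f.natDegree - 2 := by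
        rw [Polynomial.natDegree_divByMonic f hq, invl_q_natDegree]
      obtain ⟨g, hg⟩ := ih (n - 2) (by omega) (f /ₘ invl_q s) (by omega) hu1.symm
      refine ⟨Polynomial.C β + Polynomial.X * g, ?_⟩
      rw [Polynomial.add_comp, Polynomial.C_comp, Polynomial.mul_comp, Polynomial.X_comp, hg]
      rw [← hdiv, hβ]
      congr 2
      rw [← hβ, hdiv]

end OneVar

section Single

variable {σ : Type} [DecidableEq σ]

/-- isolate one variable -/
noncomputable def invl_e (i : σ) :
    MvPolynomial σ (ZMod 2) ≃ₐ[ZMod 2] Polynomial (MvPolynomial {p : σ // p ≠ i} (ZMod 2)) :=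
  (renameEquiv (ZMod 2) (Equiv.optionSubtypeNe i).symm).trans (optionEquivLeft (ZMod 2) _)

theorem invl_e_X_self (i : σ) : invl_e i (X i) = Polynomial.X := by
  unfold invl_e
  simp [optionEquivLeft_apply]

theorem invl_e_X_ne (i p : σ) (h : p ≠ i) :
    invl_e i (X p) = Polynomial.C (X ⟨p, h⟩) := by
  unfold invl_e
  simp [optionEquivLeft_apply, Equiv.optionSubtypeNe_symm_of_ne h]

/-- the substitution in one variable -/
noncomputable def invl_sub (i : σ) (q : MvPolynomial σ (ZMod 2)) :
    MvPolynomial σ (ZMod 2) →ₐ[ZMod 2] MvPolynomial σ (ZMod 2) :=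
  aeval fun p => if p = i then q else X p

theorem invl_e_sub (i : σ) (q f : MvPolynomial σ (ZMod 2)) :
    invl_e i (invl_sub i q f) = (invl_e i f).comp (invl_e i q) := by
  have h : ((invl_e i).toAlgHom.comp (invl_sub i q)) =
      ((Polynomial.aeval (invl_e i q) :
        Polynomial (MvPolynomial {p : σ // p ≠ i} (ZMod 2)) →ₐ[MvPolynomial {p : σ // p ≠ i} (ZMod 2)]
          Polynomial (MvPolynomial {p : σ // p ≠ i} (ZMod 2))).restrictScalars (ZMod 2)).comp
        (invl_e i).toAlgHom := by
    apply MvPolynomial.algHom_ext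
    intro p
    by_cases hp : p = i
    · subst hp
      simp [invl_sub, invl_e_X_self]
    · simp [invl_sub, invl_e_X_ne i p hp, hp]
  have h2 := DFunLike.congr_fun h f
  simpa [Polynomial.aeval_def, Polynomial.comp] using h2

theorem invl_sub_injective (i j : σ) (hij : j ≠ i) :
    Function.Injective (invl_sub i (X i ^ 2 + X j * X i)) := by
  intro f g hfg
  have h1 := congrArg (invl_e i) hfg
  rw [invl_e_sub, invl_e_sub, map_add, map_mul, map_pow, invl_e_X_self, invl_e_X_ne i j hij] at h1
  have h2 : (invl_e i f).comp (invl_q (X ⟨j, hij⟩)) = (invl_e i g).comp (invl_q (X ⟨j, hij⟩)) := h1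
  have h3 : invl_e i f = invl_e i g :=
    @invl_comp_injective (MvPolynomial {p : σ // p ≠ i} (ZMod 2)) _ _ (X ⟨j, hij⟩) _ _ h2
  exact (invl_e i).injective h3

theorem invl_sub_exists (i j : σ) (hij : j ≠ i) (f : MvPolynomial σ (ZMod 2))
    (hf : invl_sub i (X i + X j) f = f) :
    ∃ g, invl_sub i (X i ^ 2 + X j * X i) g = f := by
  have h1 := congrArg (invl_e i) hf
  rw [invl_e_sub, map_add, invl_e_X_self, invl_e_X_ne i j hij] at h1
  obtain ⟨g, hg⟩ := invl_one (R := MvPolynomial {p : σ // p ≠ i} (ZMod 2)) (X ⟨j, hij⟩)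
    (X_ne_zero _) _ (invl_e i f) le_rfl h1
  refine ⟨(invl_e i).symm g, ?_⟩
  apply (invl_e i).injective
  rw [invl_e_sub, AlgEquiv.apply_symm_apply, map_add, map_mul, map_pow, invl_e_X_self,
    invl_e_X_ne i j hij]
  exact hg

end Single

/-- the substitution in the blocks of a finset -/
noncomputable def invl_tau {T : ℕ} (B : Finset (Fin T)) : P T →ₐ[ZMod 2] P T :=
  aeval fun p => if p.2 = Cv.x ∧ p.1 ∈ B then X (p.1, Cv.x) ^ 2 + X (p.1, Cv.s) * X (p.1, Cv.x)
    else X p

/-- one block -/
noncomputable abbrev invl_t1 {T : ℕ} (b : Fin T) : P T →ₐ[ZMod 2] P T :=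
  invl_sub (b, Cv.x) (X (b, Cv.x) ^ 2 + X (b, Cv.s) * X (b, Cv.x))

theorem invl_tau_empty {T : ℕ} (f : P T) : invl_tau (∅ : Finset (Fin T)) f = f := by
  unfold invl_tau
  simp

theorem invl_tau_insert {T : ℕ} (b : Fin T) (B : Finset (Fin T)) (hb : b ∉ B) (f : P T) :
    invl_tau (insert b B) f = invl_t1 b (invl_tau B f) := by
  have h : invl_tau (insert b B) = (invl_t1 b).comp (invl_tau B) := by
    apply MvPolynomial.algHom_ext
    rintro ⟨c, v⟩
    simp only [invl_tau, invl_sub, AlgHom.comp_apply, aeval_X, Finset.mem_insert]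
    by_cases hv : v = Cv.x
    · subst hv
      by_cases hc : c = b
      · subst hc
        simp [hb]
      · by_cases hcB : c ∈ B
        · simp [hc, hcB]
        · simp [hc, hcB]
    · simp [hv]
  rw [h]
  rfl

theorem invl_t1_comm {T : ℕ} (b c : Fin T) (hbc : b ≠ c) (f : P T) :
    sig c (invl_t1 b f) = invl_t1 b (sig c f) := by
  have h : (sig c).comp (invl_t1 b) = (invl_t1 b).comp (sig c) := by
    apply MvPolynomial.algHom_ext
    rintro ⟨d, v⟩
    simp only [sig, invl_sub, AlgHom.comp_apply, aeval_X, Prod.mk.injEq]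
    by_cases hv : v = Cv.x
    · subst hv
      by_cases hd : d = b
      · subst hd
        simp [hbc]
      · by_cases hdc : d = c
        · subst hdc
          simp [hd]
        · simp [hd, hdc]
    · simp [hv]
  exact DFunLike.congr_fun h f

theorem invl_t1_injective {T : ℕ} (b : Fin T) : Function.Injective (invl_t1 b) :=
  invl_sub_injective (b, Cv.x) (b, Cv.s) (by simp)

theorem invl_t1_exists {T : ℕ} (b : Fin T) (f : P T) (hf : sig b f = f) :
    ∃ g, invl_t1 b g = f :=
  invl_sub_exists (b, Cv.x) (b, Cv.s) (by simp) f hf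

theorem invl_tau_injective {T : ℕ} (B : Finset (Fin T)) : Function.Injective (invl_tau B) := by
  induction B using Finset.induction_on with
  | empty =>
    intro f g h
    rwa [invl_tau_empty, invl_tau_empty] at h
  | insert b B hb ih =>
    intro f g h
    rw [invl_tau_insert b B hb, invl_tau_insert b B hb] at h
    exact ih (invl_t1_injective b h)

theorem invl_tau_exists {T : ℕ} (B : Finset (Fin T)) :
    ∀ f : P T, (∀ b ∈ B, sig b f = f) → ∃ g, invl_tau B g = f := by
  induction B using Finset.induction_on with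
  | empty =>
    intro f _
    exact ⟨f, invl_tau_empty f⟩
  | insert b B hb ih =>
    intro f hf
    obtain ⟨g₁, hg₁⟩ := invl_t1_exists b f (hf b (Finset.mem_insert_self b B))
    have h1 : ∀ c ∈ B, sig c g₁ = g₁ := by
      intro c hc
      have hbc : b ≠ c := by
        rintro rfl
        exact hb hc
      apply invl_t1_injective b
      rw [← invl_t1_comm b c hbc, hg₁]
      exact hf c (Finset.mem_insert_of_mem hc)
    obtain ⟨g, hg⟩ := ih g₁ h1
    exact ⟨g, by rw [invl_tau_insert b B hb, hg, hg₁]⟩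

theorem invl_tau_univ (T : ℕ) : invl_tau (Finset.univ : Finset (Fin T)) = tau T := by
  unfold invl_tau tau
  simp

theorem tau_injective (T : ℕ) : Function.Injective (tau T) := by
  rw [← invl_tau_univ]
  exact invl_tau_injective _

theorem exists_tau {T : ℕ} (f : P T) (h : ∀ b, sig b f = f) : ∃ g : P T, tau T g = f := by
  rw [← invl_tau_univ]
  exact invl_tau_exists _ f (fun b _ => h b)

end H48SM

end S_Inv1

section S_The

/-! # Module THE: the chart homomorphism `θ_i : k[V]^G → P T`

Proofs. `theta_exists`: for `f ∈ Inv` the polynomial `thetaP i f` is `sig b`-invariant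
(`thetaP_subst`, and `gm (Pi.single b 1) ∈ GB T`), so `= tau g` (`exists_tau`), `g` unique
(`tau_injective`); multiplicativity etc. by injectivity of `tau` (or use
`AlgEquiv.ofInjective (tau T) _` and `AlgHom.codRestrict`).
`thetaP_injective`: after inverting the `s_b` the map is an isomorphism; elementary: the `AlgHom`
`ρ : P T → FractionRing (MvPolynomial (Cx T) (ZMod 2))` with `s_b ↦ u_{b,i}`, `w_j ↦ u_j / u_i`,
`x_b ↦ x_{b,i}`, `z_j ↦ x_j - (u_j / u_i) x_i` satisfies `ρ ∘ thetaP i = algebraMap` (check on the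
variables), and `algebraMap` is injective.
-/

set_option autoImplicit false

namespace H48SM

open MvPolynomial

theorem theta_exists {T : ℕ} (i : Fin T → Fin 3) :
    ∃ θ : Inv (GB T) →ₐ[ZMod 2] P T, ∀ f : Inv (GB T), tau T (θ f) = thetaP i f := by
  have hmem : ∀ f : Inv (GB T), ((thetaP i).comp (Inv (GB T)).val) f ∈ (tau T).range := by
    intro f
    have h1 : ∀ b, sig b (thetaP i f) = thetaP i f := by
      intro b
      rw [← thetaP_subst, f.2 _ ⟨_, rfl⟩]
    obtain ⟨g, hg⟩ := exists_tau _ h1
    exact ⟨g, hg⟩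
  refine ⟨(AlgEquiv.ofInjective (tau T) (tau_injective T)).symm.toAlgHom.comp
    (((thetaP i).comp (Inv (GB T)).val).codRestrict (tau T).range hmem), fun f => ?_⟩
  have h1 := AlgEquiv.apply_symm_apply (AlgEquiv.ofInjective (tau T) (tau_injective T))
    ((((thetaP i).comp (Inv (GB T)).val).codRestrict (tau T).range hmem) f)
  have h2 := congrArg Subtype.val h1
  rw [AlgEquiv.ofInjective_apply] at h2
  exact h2

/-- the rational inverse of the chart map -/
noncomputable def the_rho {T : ℕ} (i : Fin T → Fin 3) :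
    P T →ₐ[ZMod 2] FractionRing (MvPolynomial (Cx T) (ZMod 2)) :=
  aeval fun p => match p.2 with
    | Cv.s => algebraMap (MvPolynomial (Cx T) (ZMod 2)) _ (X (p.1, 1, i p.1))
    | Cv.x => algebraMap (MvPolynomial (Cx T) (ZMod 2)) _ (X (p.1, 0, i p.1))
    | Cv.w j => algebraMap (MvPolynomial (Cx T) (ZMod 2)) _ (X (p.1, 1, j)) /
        algebraMap (MvPolynomial (Cx T) (ZMod 2)) _ (X (p.1, 1, i p.1))
    | Cv.z j => algebraMap (MvPolynomial (Cx T) (ZMod 2)) _ (X (p.1, 0, j)) -
        algebraMap (MvPolynomial (Cx T) (ZMod 2)) _ (X (p.1, 1, j)) /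
          algebraMap (MvPolynomial (Cx T) (ZMod 2)) _ (X (p.1, 1, i p.1)) *
          algebraMap (MvPolynomial (Cx T) (ZMod 2)) _ (X (p.1, 0, i p.1))

theorem thetaP_injective {T : ℕ} (i : Fin T → Fin 3) : Function.Injective (thetaP i) := by
  have key : (the_rho i).comp (thetaP i) = IsScalarTower.toAlgHom (ZMod 2)
      (MvPolynomial (Cx T) (ZMod 2)) (FractionRing (MvPolynomial (Cx T) (ZMod 2))) := by
    apply MvPolynomial.algHom_ext
    rintro ⟨b, c, j⟩
    have hu : algebraMap (MvPolynomial (Cx T) (ZMod 2))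
        (FractionRing (MvPolynomial (Cx T) (ZMod 2))) (X (b, 1, i b)) ≠ 0 := by
      intro h0
      rw [← map_zero (algebraMap (MvPolynomial (Cx T) (ZMod 2))
        (FractionRing (MvPolynomial (Cx T) (ZMod 2))))] at h0
      exact X_ne_zero _ (IsFractionRing.injective (MvPolynomial (Cx T) (ZMod 2))
        (FractionRing (MvPolynomial (Cx T) (ZMod 2))) h0)
    rw [AlgHom.comp_apply, IsScalarTower.coe_toAlgHom']
    unfold thetaP
    rw [aeval_X]
    have hc : c = 0 ∨ c = 1 := by
      fin_cases c
      · exact Or.inl rfl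
      · exact Or.inr rfl
    rcases hc with rfl | rfl
    · rw [if_neg (by simp)]
      by_cases hj : j = i b
      · subst hj
        rw [if_pos rfl]
        simp only [the_rho, aeval_X]
      · rw [if_neg hj, map_add, map_mul]
        simp only [the_rho, aeval_X]
        exact sub_add_cancel _ _
    · rw [if_pos rfl]
      by_cases hj : j = i b
      · subst hj
        rw [if_pos rfl]
        simp only [the_rho, aeval_X]
      · rw [if_neg hj, map_mul]
        simp only [the_rho, aeval_X]
        rw [mul_div_cancel₀ _ hu]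
  intro f g hfg
  apply IsFractionRing.injective (MvPolynomial (Cx T) (ZMod 2))
    (FractionRing (MvPolynomial (Cx T) (ZMod 2)))
  have h1 := DFunLike.congr_fun key f
  have h2 := DFunLike.congr_fun key g
  rw [AlgHom.comp_apply, IsScalarTower.coe_toAlgHom'] at h1 h2
  rw [← h1, ← h2, hfg]

end H48SM

end S_The

section S_Theta

/-! # The chart homomorphism `theta` and its values -/

set_option autoImplicit false

namespace H48SM

open MvPolynomial

/-- the chart homomorphism -/
noncomputable def theta {T : ℕ} (i : Fin T → Fin 3) : Inv (GB T) →ₐ[ZMod 2] P T :=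
  Classical.choose (theta_exists i)

theorem theta_spec {T : ℕ} (i : Fin T → Fin 3) (f : Inv (GB T)) :
    tau T (theta i f) = thetaP i f :=
  Classical.choose_spec (theta_exists i) f

theorem theta_injective {T : ℕ} (i : Fin T → Fin 3) : Function.Injective (theta i) := by
  intro f g h
  have : thetaP i f = thetaP i g := by rw [← theta_spec, ← theta_spec, h]
  exact Subtype.ext (thetaP_injective i this)

theorem theta_u_piv {T : ℕ} (i : Fin T → Fin 3) (b : Fin T) :
    theta i (uI b (i b)) = X (b, Cv.s) := by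
  apply tau_injective T
  rw [theta_spec]
  simp [uI, thetaP, tau]

theorem theta_u {T : ℕ} (i : Fin T → Fin 3) (b : Fin T) (j : Fin 3) (hj : j ≠ i b) :
    theta i (uI b j) = X (b, Cv.s) * X (b, Cv.w j) := by
  apply tau_injective T
  rw [theta_spec]
  simp [uI, thetaP, tau, hj]

theorem theta_N {T : ℕ} (i : Fin T → Fin 3) (b : Fin T) :
    theta i (NI b (i b)) = X (b, Cv.x) := by
  apply tau_injective T
  rw [theta_spec]
  simp [NI, thetaP, tau]

theorem theta_M {T : ℕ} (i : Fin T → Fin 3) (b : Fin T) (j : Fin 3) (hj : j ≠ i b) :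
    theta i (MI b (i b) j) = X (b, Cv.s) * X (b, Cv.z j) := by
  apply tau_injective T
  rw [theta_spec]
  have h2 : (2 : P T) = 0 := CharTwo.two_eq_zero
  simp only [MI, thetaP, tau, map_add, map_mul, aeval_X]
  simp only [hj, if_false, if_true, reduceCtorEq, zero_ne_one]
  linear_combination (X (b, Cv.x) * X (b, Cv.s) * X (b, Cv.w j)) * h2

theorem sig_tau {T : ℕ} (b : Fin T) (g : P T) : sig b (tau T g) = tau T g := by
  have h : (sig b).comp (tau T) = tau T := by
    apply MvPolynomial.algHom_ext
    rintro ⟨b', c⟩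
    have h2 : (2 : P T) = 0 := CharTwo.two_eq_zero
    simp only [AlgHom.comp_apply, tau, aeval_X]
    by_cases hc : c = Cv.x
    · subst hc
      simp only [if_true, map_add, map_mul, map_pow, sig, aeval_X, Prod.mk.injEq, reduceCtorEq,
        and_false, if_false, and_true]
      by_cases hb : b' = b
      · subst hb
        simp only [if_true]
        linear_combination (X (b', Cv.x) * X (b', Cv.s) + X (b', Cv.s) ^ 2) * h2
      · simp only [hb, if_false]
    · simp only [hc, if_false, sig, aeval_X, Prod.mk.injEq, and_false]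
  exact DFunLike.congr_fun h g

/-- divisibility by products of the `s_b` descends along `tau` -/
theorem dvd_of_dvd_tau {T : ℕ} {c g : P T} (hc : c ≠ 0) (hc1 : tau T c = c)
    (hc2 : ∀ b, sig b c = c) (h : c ∣ tau T g) : c ∣ g := by
  obtain ⟨y, hy⟩ := h
  have hyinv : ∀ b, sig b y = y := by
    intro b
    have h1 := sig_tau b g
    rw [hy, map_mul, hc2 b] at h1
    exact mul_left_cancel₀ hc h1
  obtain ⟨y', rfl⟩ := exists_tau y hyinv
  refine ⟨y', ?_⟩
  apply tau_injective T
  rw [hy, map_mul, hc1]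

end H48SM

end S_Theta

section S_Data

/-!
# The pieces of the jet sets

`e_b` is the order of `s_b`, `i_b` the pivot (first index of minimal order).  The `n`-jet of the arc is
determined by the coefficients of `t^l` of `s_b` (`e_b ≤ l ≤ n`), of `x_b = N_b` (`l ≤ n`), of `w_j`
and `z_j` (`l + e_b ≤ n`), `w_j` without constant term if `j < i_b`.
-/

set_option autoImplicit false

namespace H48SM

open MvPolynomial

/-- the coefficients which are coordinates of the piece -/
def allowed {T : ℕ} (e : Fin T → ℕ) (i : Fin T → Fin 3) (n : ℕ) (p : Fin T × Cv) (l : ℕ) : Prop :=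
  l ≤ n ∧ (p.2 = Cv.s → e p.1 ≤ l) ∧
    ∀ j : Fin 3, (p.2 = Cv.w j → j ≠ i p.1 ∧ l + e p.1 ≤ n ∧ (j < i p.1 → 1 ≤ l)) ∧
      (p.2 = Cv.z j → j ≠ i p.1 ∧ l + e p.1 ≤ n)

instance {T : ℕ} (e : Fin T → ℕ) (i : Fin T → Fin 3) (n : ℕ) (p : Fin T × Cv) (l : ℕ) :
    Decidable (allowed e i n p l) := by
  unfold allowed
  infer_instance

/-- the index set of the coordinates of the piece -/
abbrev Ax {T : ℕ} (e : Fin T → ℕ) (i : Fin T → Fin 3) (n : ℕ) : Type :=
  {p : (Fin T × Cv) × Fin (n + 1) // allowed e i n p.1 p.2}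

/-- polynomial rings as affine schemes -/
noncomputable def Aff.poly (k : Type) [Field k] (σ : Type) [Finite σ] : Aff k := ⟨MvPolynomial σ k⟩

/-- the leading coefficients of `s_b` -/
def ldi {T : ℕ} (e : Fin T → ℕ) (i : Fin T → Fin 3) (n : ℕ) (h : ∀ b, e b ≤ n) (b : Fin T) :
    Ax e i n :=
  ⟨((b, Cv.s), ⟨e b, Nat.lt_succ_of_le (h b)⟩), ⟨h b, fun _ => le_rfl, fun _ => ⟨nofun, nofun⟩⟩⟩

/-- the product of the leading coefficients of the `s_b` -/
noncomputable def lead {T : ℕ} (e : Fin T → ℕ) (i : Fin T → Fin 3) (n : ℕ) (h : ∀ b, e b ≤ n) :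
    MvPolynomial (Ax e i n) (ZMod 2) :=
  ∏ b, X (ldi e i n h b)

/-- the coordinate ring of the piece -/
abbrev DR {T : ℕ} (e : Fin T → ℕ) (i : Fin T → Fin 3) (n : ℕ) (h : ∀ b, e b ≤ n) : Type :=
  Localization.Away (lead e i n h)

/-- the piece -/
noncomputable def DD {T : ℕ} (e : Fin T → ℕ) (i : Fin T → Fin 3) (n : ℕ) (h : ∀ b, e b ≤ n) :
    Aff (ZMod 2) :=
  (Aff.poly (ZMod 2) (Ax e i n)).opn (lead e i n h)

/-- the coefficient of `t^l` of the coordinate `p` -/
noncomputable def dat {T : ℕ} (e : Fin T → ℕ) (i : Fin T → Fin 3) (n : ℕ) (h : ∀ b, e b ≤ n)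
    (p : Fin T × Cv) (l : ℕ) : DR e i n h :=
  if hl : allowed e i n p l then
    algebraMap (MvPolynomial (Ax e i n) (ZMod 2)) (DR e i n h)
      (X ⟨(p, ⟨l, Nat.lt_succ_of_le hl.1⟩), hl⟩)
  else 0

/-- the universal truncated arc -/
noncomputable def UU {T : ℕ} (e : Fin T → ℕ) (i : Fin T → Fin 3) (n : ℕ) (h : ∀ b, e b ≤ n) :
    P T →ₐ[ZMod 2] PowerSeries (DR e i n h) :=
  aeval fun p => PowerSeries.mk fun l => dat e i n h p l

/-- the immersion of the piece into the jet scheme -/
noncomputable def psi {T : ℕ} (e : Fin T → ℕ) (i : Fin T → Fin 3) (n : ℕ) (h : ∀ b, e b ≤ n) :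
    MvPolynomial (Inv (GB T) × Fin (n + 1)) (ZMod 2) →ₐ[ZMod 2] DR e i n h :=
  aeval fun x => PowerSeries.coeff (x.2 : ℕ) (UU e i n h (theta i x.1))

/-- the part `F_X = 3 E` of the motivic integral -/
noncomputable def uE (β : Prop) (T E : ℕ) : Mot (ZMod 2) (rr T) β :=
  ∑ e ∈ Finset.Nat.antidiagonalTuple T E, ∑ i : Fin T → Fin 3,
    (qpow (ZMod 2) (rr T) (rr T) - 1) ^ T *
      qpow (ZMod 2) (rr T) ((rr T : ℤ) * (∑ b, (5 - 5 * (e b : ℤ) - ((i b : ℕ) : ℤ)) + 3 * E))

/-- the stringy motive of the example, as a series -/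
noncomputable def uu (β : Prop) (T e : ℕ) : Mot (ZMod 2) (rr T) β :=
  if 3 * rr T ∣ e then uE β T (e / (3 * rr T)) else 0

/-- realisation by counting points over the field with `2^(r t)` elements -/
structure IsPC {β : Prop} (r t : ℕ) (c : Mot (ZMod 2) r β →+* ℝ) : Prop where
  cls : ∀ X : Aff (ZMod 2), c (cls r X) = Nat.card (X.A →ₐ[ZMod 2] GaloisField 2 (r * t))
  q : c (qq (ZMod 2) r) = 2 ^ t

/-- the value of the stringy motive of the example: `(Q^5 (Q^2 + Q + 1) / (Q + 1))^T` -/
noncomputable def AA (r T t : ℕ) : ℝ :=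
  (((2 : ℝ) ^ (r * t)) ^ 5 * (((2 : ℝ) ^ (r * t)) ^ 2 + (2 : ℝ) ^ (r * t) + 1) /
    ((2 : ℝ) ^ (r * t) + 1)) ^ T

end H48SM

end S_Data
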