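import Mathlib
import Pool.Agent.H48.SL.M1

set_option autoImplicit false

/-! Stringy motives of linear quotients, part M2: this file joins several modules to save build time. -/

section S_Tay

/-! # Module TAY: Taylor expansion to first order

Proof: `MvPolynomial.induction_on` (or `induction_on'''`): the set of `f` for which it holds contains
the constants and variables and is closed under sums; for a product `f * X c0` (or `f * g`) write
`β(fg) - α(fg) = (βf - αf) αg + αf (βg - αg) + (βf - αf)(βg - αg)`; both `βf - αf`, `βg - αg` lie in the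
ideal `I` spanned by the differences `h_c = β X_c - α X_c` (lemma `sub_mem`, by induction), and `I * I`
is the ideal on the right (`Ideal.span_mul_span`); Leibniz rule for `pderiv`.
-/

set_option autoImplicit false

namespace H48SM

open MvPolynomial

theorem sub_mem {σ k R : Type} [CommRing k] [CommRing R] [Algebra k R]
    (α β : MvPolynomial σ k →ₐ[k] R) (f : MvPolynomial σ k) :
    β f - α f ∈ Ideal.span (Set.range fun c => β (X c) - α (X c)) := by
  induction f using MvPolynomial.induction_on with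
  | C a =>
    have h1 : β (C a) = algebraMap k R a := β.commutes a
    have h2 : α (C a) = algebraMap k R a := α.commutes a
    rw [h1, h2, sub_self]
    exact Ideal.zero_mem _
  | add p q hp hq =>
    have h : β (p + q) - α (p + q) = (β p - α p) + (β q - α q) := by
      rw [map_add, map_add]
      ring
    rw [h]
    exact Ideal.add_mem _ hp hq
  | mul_X p n hp =>
    have h : β (p * X n) - α (p * X n) = β p * (β (X n) - α (X n)) + α (X n) * (β p - α p) := by
      rw [map_mul, map_mul]
      ring
    rw [h]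
    refine Ideal.add_mem _ (Ideal.mul_mem_left _ _ (Ideal.subset_span ⟨n, rfl⟩))
      (Ideal.mul_mem_left _ _ hp)

theorem tay_mul_mem {σ k R : Type} [CommRing k] [CommRing R] [Algebra k R]
    (α β : MvPolynomial σ k →ₐ[k] R) (n : σ) (z : R)
    (hz : z ∈ Ideal.span (Set.range fun c => β (X c) - α (X c))) :
    z * (β (X n) - α (X n)) ∈ Ideal.span (Set.range fun p : σ × σ =>
        (β (X p.1) - α (X p.1)) * (β (X p.2) - α (X p.2))) := by
  induction hz using Submodule.span_induction with
  | mem x hx =>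
    obtain ⟨c, rfl⟩ := hx
    exact Ideal.subset_span ⟨(c, n), rfl⟩
  | zero =>
    rw [zero_mul]
    exact Ideal.zero_mem _
  | add x y _ _ hx hy =>
    rw [add_mul]
    exact Ideal.add_mem _ hx hy
  | smul a x _ hx =>
    rw [smul_eq_mul, mul_assoc]
    exact Ideal.mul_mem_left _ _ hx

theorem taylor {σ k R : Type} [Fintype σ] [CommRing k] [CommRing R] [Algebra k R]
    (α β : MvPolynomial σ k →ₐ[k] R) (f : MvPolynomial σ k) :
    β f - α f - ∑ c, α (pderiv c f) * (β (X c) - α (X c)) ∈
      Ideal.span (Set.range fun p : σ × σ =>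
        (β (X p.1) - α (X p.1)) * (β (X p.2) - α (X p.2))) := by
  classical
  induction f using MvPolynomial.induction_on with
  | C a =>
    have h1 : β (C a) = algebraMap k R a := β.commutes a
    have h2 : α (C a) = algebraMap k R a := α.commutes a
    rw [h1, h2, sub_self]
    simp
  | add p q hp hq =>
    have h : β (p + q) - α (p + q) - ∑ c, α (pderiv c (p + q)) * (β (X c) - α (X c)) =
        (β p - α p - ∑ c, α (pderiv c p) * (β (X c) - α (X c))) +
        (β q - α q - ∑ c, α (pderiv c q) * (β (X c) - α (X c))) := by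
      simp only [map_add, add_mul, Finset.sum_add_distrib]
      ring
    rw [h]
    exact Ideal.add_mem _ hp hq
  | mul_X p n hp =>
    have hD : ∑ c, α (pderiv c (p * X n)) * (β (X c) - α (X c)) =
        (∑ c, α (pderiv c p) * (β (X c) - α (X c))) * α (X n) + α p * (β (X n) - α (X n)) := by
      have h1 : ∀ c, α (pderiv c (p * X n)) * (β (X c) - α (X c)) =
          α (pderiv c p) * (β (X c) - α (X c)) * α (X n) +
          α p * (α (pderiv c (X n)) * (β (X c) - α (X c))) := by
        intro c
        rw [Derivation.leibniz, smul_eq_mul, smul_eq_mul, map_add, map_mul, map_mul]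
        ring
      rw [Finset.sum_congr rfl fun c _ => h1 c, Finset.sum_add_distrib, ← Finset.sum_mul,
        ← Finset.mul_sum]
      congr 2
      rw [Finset.sum_eq_single n]
      · rw [pderiv_X_self, map_one, one_mul]
      · intro c _ hc
        rw [pderiv_X_of_ne hc.symm, map_zero, zero_mul]
      · intro hn
        exact absurd (Finset.mem_univ n) hn
    have h : β (p * X n) - α (p * X n) - ∑ c, α (pderiv c (p * X n)) * (β (X c) - α (X c)) =
        α (X n) * (β p - α p - ∑ c, α (pderiv c p) * (β (X c) - α (X c))) +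
        (β p - α p) * (β (X n) - α (X n)) := by
      rw [hD, map_mul, map_mul]
      ring
    rw [h]
    exact Ideal.add_mem _ (Ideal.mul_mem_left _ _ hp)
      (tay_mul_mem α β n _ (sub_mem α β p))

end H48SM

end S_Tay

section S_Der

/-! # Module DER: derivatives of invariants

Proofs. `derS`: let `I = (u_{b,0}, u_{b,1}, u_{b,2})`, `g = gm (Pi.single b 1)`, `subst g f = f`.  By `taylor` with
`α = id`, `β = subst g`: `β X_p - α X_p = u_{b,j}` for `p = (b,0,j)` and `0` for the other `p` (GRP), so
`∑_j u_{b,j} D_j ∈ I^2` with `D_j = pderiv (b,0,j) f`.  The derivative `pderiv (b,1,j')` of an element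
of `I^2` lies in `I` (Leibniz), and `pderiv (b,1,j') (∑ u_{b,j} D_j) = D_{j'} + ∑ u_{b,j} (...)`.  Hence `D_{j'} ∈ I`.
`der_z`, `der_w`: chain rule for `thetaP`: for `j ≠ i b`
`pderiv (b,z j) (thetaP i f) = thetaP i (pderiv (b,0,j) f)` and
`pderiv (b,w j) (thetaP i f) = thetaP i (pderiv (b,0,j) f) * X (b,x) + thetaP i (pderiv (b,1,j) f) * X (b,s)`
(both sides are derivations in `f` over `thetaP`: induct on `f`), both divisible by `X (b,s)` by `derS`
(`thetaP` maps `u_{b,j}` to multiples of `X (b,s)`); for `j = i b` both derivatives vanish (`thetaP f` does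
not contain the variable).  Moreover `pderiv (b,z j) (tau g) = tau (pderiv (b,z j) g)`, same for `w`.
Apply with `g = theta i f` (`theta_spec`) and `dvd_of_dvd_tau` with `c = X (b,s)`.
`theta_dummy`: `pderiv` with respect to the dummy coordinates of `theta i f` vanish (same proof with
`tau_injective`).
-/

set_option autoImplicit false

namespace H48SM

open MvPolynomial

/-- derivatives of elements of `I * I` lie in `I` -/
theorem der_pderiv_mem {σ k : Type} [CommRing k] (I : Ideal (MvPolynomial σ k)) (c : σ)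
    (e : MvPolynomial σ k) (he : e ∈ I * I) : pderiv c e ∈ I := by
  refine Submodule.mul_induction_on he ?_ ?_
  · intro m hm n hn
    rw [Derivation.leibniz]
    exact I.add_mem (Ideal.mul_mem_right _ _ hm) (Ideal.mul_mem_right _ _ hn)
  · intro x y hx hy
    rw [map_add]
    exact I.add_mem hx hy

/-- chain rule -/
theorem der_chain {σ τ k : Type} [Fintype σ] [CommRing k] (h : σ → MvPolynomial τ k) (v : τ)
    (f : MvPolynomial σ k) :
    pderiv v (aeval h f) = ∑ c, aeval h (pderiv c f) * pderiv v (h c) := by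
  classical
  induction f using MvPolynomial.induction_on with
  | C a =>
    rw [aeval_C]
    have h1 : ∀ c : σ, pderiv c (C a : MvPolynomial σ k) = 0 := fun c => pderiv_C
    simp only [h1, map_zero, zero_mul, Finset.sum_const_zero]
    exact pderiv_C
  | add p q hp hq =>
    simp only [map_add, hp, hq, add_mul, Finset.sum_add_distrib]
  | mul_X p n hp =>
    rw [map_mul, aeval_X, Derivation.leibniz, hp]
    have h1 : ∀ c : σ, aeval h (pderiv c (p * X n)) * pderiv v (h c) =
        aeval h p * (if c = n then pderiv v (h c) else 0) +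
          h n * (aeval h (pderiv c p) * pderiv v (h c)) := by
      intro c
      rw [Derivation.leibniz, pderiv_X]
      by_cases hc : c = n
      · subst hc
        simp only [Pi.single_eq_same, smul_eq_mul, map_add, map_mul, map_one, aeval_X, if_true]
        ring
      · rw [Pi.single_eq_of_ne (Ne.symm hc)]
        simp only [smul_eq_mul, map_add, map_mul, map_zero, aeval_X, hc, if_false]
        ring
    simp only [h1, Finset.sum_add_distrib, ← Finset.mul_sum, smul_eq_mul]
    simp

theorem derS {T : ℕ} (b : Fin T) (j : Fin 3) (f : Inv (GB T)) :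
    pderiv (b, 0, j) (f : MvPolynomial (Cx T) (ZMod 2)) ∈
      Ideal.span (Set.range fun j' : Fin 3 => (X (b, 1, j') : MvPolynomial (Cx T) (ZMod 2))) := by
  set I : Ideal (MvPolynomial (Cx T) (ZMod 2)) :=
    Ideal.span (Set.range fun j' : Fin 3 => (X (b, 1, j') : MvPolynomial (Cx T) (ZMod 2))) with hI
  have hu : ∀ j' : Fin 3, (X (b, 1, j') : MvPolynomial (Cx T) (ZMod 2)) ∈ I := fun j' =>
    Ideal.subset_span ⟨j', rfl⟩
  have hinv : subst (gm (Pi.single b 1)) (f : MvPolynomial (Cx T) (ZMod 2)) = f :=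
    f.2 _ ⟨_, rfl⟩
  have ht := taylor (AlgHom.id (ZMod 2) (MvPolynomial (Cx T) (ZMod 2)))
    (subst (gm (Pi.single b 1))) (f : MvPolynomial (Cx T) (ZMod 2))
  rw [hinv] at ht
  simp only [AlgHom.id_apply] at ht
  -- the differences
  have hd : ∀ p : Cx T, subst (gm (Pi.single b 1)) (X p : MvPolynomial (Cx T) (ZMod 2)) - X p =
      if p.1 = b ∧ p.2.1 = 0 then X (b, 1, p.2.2) else 0 := by
    rintro ⟨b', c, j'⟩
    have hc : c = 0 ∨ c = 1 := by
      fin_cases c
      · exact Or.inl rfl
      · exact Or.inr rfl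
    rcases hc with rfl | rfl
    · rw [subst_gm_x]
      by_cases hb : b' = b
      · subst hb
        simp
      · simp [hb]
    · rw [subst_gm_u]
      simp
  have hdI : ∀ p : Cx T, subst (gm (Pi.single b 1)) (X p : MvPolynomial (Cx T) (ZMod 2)) - X p ∈ I := by
    intro p
    rw [hd p]
    split_ifs
    · exact hu _
    · exact I.zero_mem
  have hsum : ∑ c : Cx T, pderiv c (f : MvPolynomial (Cx T) (ZMod 2)) *
      (subst (gm (Pi.single b 1)) (X c) - X c) =
      ∑ j' : Fin 3, pderiv (b, 0, j') (f : MvPolynomial (Cx T) (ZMod 2)) * X (b, 1, j') := by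
    simp only [hd]
    rw [Fintype.sum_prod_type]
    rw [Finset.sum_eq_single b]
    · rw [Fintype.sum_prod_type, Fin.sum_univ_two]
      simp
    · intro b' _ hb'
      refine Finset.sum_eq_zero fun c _ => ?_
      simp [hb']
    · intro h
      exact absurd (Finset.mem_univ b) h
  rw [hsum, sub_self, zero_sub] at ht
  have hE : ∑ j' : Fin 3, pderiv (b, 0, j') (f : MvPolynomial (Cx T) (ZMod 2)) * X (b, 1, j') ∈
      I * I := by
    rw [← neg_mem_iff]
    refine (Ideal.span_le.2 ?_) ht
    rintro _ ⟨p, rfl⟩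
    exact Ideal.mul_mem_mul (hdI p.1) (hdI p.2)
  have h1 := der_pderiv_mem I (b, 1, j) _ hE
  have h2 : pderiv (b, 1, j) (∑ j' : Fin 3, pderiv (b, 0, j') (f : MvPolynomial (Cx T) (ZMod 2)) *
      X (b, 1, j')) = pderiv (b, 0, j) (f : MvPolynomial (Cx T) (ZMod 2)) +
        ∑ j' : Fin 3, X (b, 1, j') * pderiv (b, 1, j) (pderiv (b, 0, j')
          (f : MvPolynomial (Cx T) (ZMod 2))) := by
    rw [map_sum]
    have h3 : ∀ j' : Fin 3, pderiv (b, 1, j) (pderiv (b, 0, j')
        (f : MvPolynomial (Cx T) (ZMod 2)) * X (b, 1, j')) =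
        (if j' = j then pderiv (b, 0, j') (f : MvPolynomial (Cx T) (ZMod 2)) else 0) +
          X (b, 1, j') * pderiv (b, 1, j) (pderiv (b, 0, j')
            (f : MvPolynomial (Cx T) (ZMod 2))) := by
      intro j'
      rw [Derivation.leibniz, pderiv_X]
      by_cases hj : j' = j
      · subst hj
        simp
      · rw [Pi.single_eq_of_ne (fun h => hj (by simpa using h))]
        simp [hj]
    simp only [h3, Finset.sum_add_distrib]
    simp
  rw [h2] at h1
  have h4 : ∑ j' : Fin 3, X (b, 1, j') * pderiv (b, 1, j) (pderiv (b, 0, j')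
      (f : MvPolynomial (Cx T) (ZMod 2))) ∈ I :=
    I.sum_mem fun j' _ => Ideal.mul_mem_right _ _ (hu j')
  have h5 := I.sub_mem h1 h4
  rwa [add_sub_cancel_right] at h5

/-- `thetaP` of a derivative `∂/∂x_{b,j}` of an invariant is divisible by `s_b` -/
theorem der_theta_dvd {T : ℕ} (i : Fin T → Fin 3) (b : Fin T) (j : Fin 3) (f : Inv (GB T)) :
    X (b, Cv.s) ∣ thetaP i (pderiv (b, 0, j) (f : MvPolynomial (Cx T) (ZMod 2))) := by
  have h := derS b j f
  refine Submodule.span_induction (p := fun x _ => X (b, Cv.s) ∣ thetaP i x) ?_ ?_ ?_ ?_ h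
  · rintro _ ⟨j', rfl⟩
    by_cases hj : j' = i b
    · simp [thetaP, hj]
    · simp [thetaP, hj]
  · rw [map_zero]
    exact dvd_zero _
  · intro x y _ _ hx hy
    rw [map_add]
    exact dvd_add hx hy
  · intro a x _ hx
    rw [smul_eq_mul, map_mul]
    exact hx.mul_left _

/-- `tau` commutes with the derivatives with respect to `w_j`, `z_j` -/
theorem der_tau {T : ℕ} (b : Fin T) (c : Cv) (hs : c ≠ Cv.s) (hx : c ≠ Cv.x) (g : P T) :
    pderiv (b, c) (tau T g) = tau T (pderiv (b, c) g) := by
  have h := der_chain (fun p : Fin T × Cv => if p.2 = Cv.x then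
    (X (p.1, Cv.x) ^ 2 + X (p.1, Cv.s) * X (p.1, Cv.x) : P T) else X p) (b, c) g
  have hv : ∀ p : Fin T × Cv, pderiv (b, c) (if p.2 = Cv.x then
      (X (p.1, Cv.x) ^ 2 + X (p.1, Cv.s) * X (p.1, Cv.x) : P T) else X p) =
      if p = (b, c) then 1 else 0 := by
    rintro ⟨b', c'⟩
    by_cases hc : c' = Cv.x
    · subst hc
      have h1 : (b', Cv.x) ≠ (b, c) := fun h => hx (Prod.mk.inj h).2.symm
      have h2 : (b', Cv.s) ≠ (b, c) := fun h => hs (Prod.mk.inj h).2.symm
      simp only [if_true, map_add, Derivation.leibniz, Derivation.leibniz_pow, pderiv_X_of_ne h1,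
        pderiv_X_of_ne h2, smul_zero, add_zero, h1, if_false]
    · simp only [hc, if_false]
      by_cases h1 : (b', c') = (b, c)
      · rw [h1]
        simp
      · rw [pderiv_X_of_ne h1]
        simp [h1]
  rw [tau]
  rw [h]
  simp only [hv, mul_ite, mul_one, mul_zero]
  simp

theorem der_final {T : ℕ} (i : Fin T → Fin 3) (b : Fin T) (c : Cv) (hs : c ≠ Cv.s) (hx : c ≠ Cv.x)
    (f : Inv (GB T)) : X (b, Cv.s) ∣ pderiv (b, c) (theta i f) := by
  refine dvd_of_dvd_tau (X_ne_zero _) ?_ ?_ ?_
  · simp [tau]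
  · intro b'
    simp [sig]
  · rw [← der_tau b c hs hx, theta_spec]
    have h := der_chain (fun p : Cx T => if p.2.1 = 1
      then (if p.2.2 = i p.1 then (X (p.1, Cv.s) : P T) else X (p.1, Cv.s) * X (p.1, Cv.w p.2.2))
      else (if p.2.2 = i p.1 then X (p.1, Cv.x)
        else X (p.1, Cv.z p.2.2) + X (p.1, Cv.w p.2.2) * X (p.1, Cv.x))) (b, c)
        (f : MvPolynomial (Cx T) (ZMod 2))
    have h' : pderiv (b, c) (thetaP i (f : MvPolynomial (Cx T) (ZMod 2))) = _ := h
    rw [h']
    refine Finset.dvd_sum ?_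
    rintro ⟨b', k, j'⟩ _
    by_cases hk : k = 1
    · subst hk
      refine Dvd.dvd.mul_left ?_ _
      have h2 : (b', Cv.s) ≠ (b, c) := fun h => hs (Prod.mk.inj h).2.symm
      by_cases hj : j' = i b'
      · simp only [if_true, hj, pderiv_X_of_ne h2]
        exact dvd_zero _
      · simp only [if_true, hj, if_false, Derivation.leibniz, pderiv_X_of_ne h2, smul_eq_mul,
          mul_zero, add_zero]
        by_cases h3 : (b', Cv.w j') = (b, c)
        · have hb : b' = b := (Prod.mk.inj h3).1
          rw [hb]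
          exact dvd_mul_right _ _
        · rw [pderiv_X_of_ne h3, mul_zero]
          exact dvd_zero _
    · have hk0 : k = 0 := by
        fin_cases k
        · rfl
        · exact absurd rfl hk
      subst hk0
      by_cases hb : b' = b
      · subst hb
        exact Dvd.dvd.mul_right (der_theta_dvd i b' j' f) _
      · refine Dvd.dvd.mul_left ?_ _
        have hne : ∀ c' : Cv, (b', c') ≠ (b, c) := fun c' h => hb (Prod.mk.inj h).1
        by_cases hj : j' = i b'
        · simp only [zero_ne_one, if_false, hj, if_true, pderiv_X_of_ne (hne _)]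
          exact dvd_zero _
        · simp only [zero_ne_one, if_false, hj, map_add, Derivation.leibniz,
            pderiv_X_of_ne (hne _), smul_zero, add_zero]
          exact dvd_zero _

theorem der_w {T : ℕ} (i : Fin T → Fin 3) (b : Fin T) (j : Fin 3) (f : Inv (GB T)) :
    X (b, Cv.s) ∣ pderiv (b, Cv.w j) (theta i f) :=
  der_final i b (Cv.w j) nofun nofun f

theorem der_z {T : ℕ} (i : Fin T → Fin 3) (b : Fin T) (j : Fin 3) (f : Inv (GB T)) :
    X (b, Cv.s) ∣ pderiv (b, Cv.z j) (theta i f) :=
  der_final i b (Cv.z j) nofun nofun f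

end H48SM

end S_Der

section S_Jac

/-! # Module JAC: Jacobian determinants of invariants are divisible by `∏ s_b^3`

Proofs.  Write `ν = nu i : Cx T → Fin T × Cv` (injective).  Chain rule for `thetaP`:
`pderiv (ν q) (thetaP i f) = ∑ p, thetaP i (pderiv p f) * pderiv (ν q) (thetaP i (X p))`
(both sides are derivations over `thetaP`).  Hence
`det (pderiv (ν q) (thetaP i (f p)))_{p,q} = thetaP i (jac f) * det (pderiv (ν q) (thetaP i (X p)))_{p,q}`
and the last determinant is `∏ b, X (b,s)^2` (block diagonal in `b`; in a block with pivot `i`: rows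
`u_i = s`, `u_j = s w_j`, `x_i = x`, `x_j = z_j + w_j x`, columns `s, w_j, x, z_j`: upper triangular in a
suitable order; e.g. reduce to the 6x6 (or 3x3 blocks, lower left block 0) determinants for the three
possible pivots).
Next for `tau` (characteristic 2): `pderiv (b,x) (tau g) = X (b,s) * tau (pderiv (b,x) g)`,
`pderiv (b,s) (tau g) = tau (pderiv (b,s) g) + X (b,x) * tau (pderiv (b,x) g)`, and
`pderiv c (tau g) = tau (pderiv c g)` for `c = w, z`.  So with `D(g) = det (pderiv (ν q) (g p))`:
`D(tau g) = ∏ b, X (b,s) * tau (D g)` (column operations: column of `s` is a column plus a multiple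
of the column of `x`; again: matrix product with a block diagonal matrix of determinant `∏ X (b,s)`).
By `der_w`, `der_z` the four columns `w_j`, `z_j` (`j ≠ i b`) of the matrix of `D(theta ∘ f)` are divisible
by `X (b,s)`: `D(theta f) = ∏ b, X (b,s)^4 * y` (`Matrix.det_mul_row` or `det_mul_column`).  Hence
`thetaP i (jac f) * ∏ X (b,s)^2 = ∏ X (b,s)^5 * tau y`, `thetaP i (jac f) = ∏ X (b,s)^3 * tau y`.
`jac_dvd`: `h = ∏_{l < r} jac (F l)`: `tau (theta i h) = thetaP i h = ∏ X (b,s)^(3r) * tau y'` and
`tau` fixes `X (b,s)`; `tau_injective` (or `dvd_of_dvd_tau`).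
`jac_mem`: the column `(b,0,0)` of the Jacobian matrix of `f` is in the ideal by `derS`, hence so is
`jac f` (`Matrix.det_apply`), and the product over `Fin r`, `r > 0`.
-/

set_option autoImplicit false

namespace H48SM

open MvPolynomial

/-! ### A triangular determinant -/

theorem jac_tri {m R : Type*} [Fintype m] [DecidableEq m] [CommRing R] (M : Matrix m m R)
    (b : m → ℕ) (h : ∀ i j, i ≠ j → b j ≤ b i → M i j = 0) : M.det = ∏ i, M i i := by
  rw [Matrix.det_apply, Finset.sum_eq_single 1]
  · simp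
  · intro σ _ hσ
    have hex : ∃ i, σ i ≠ i ∧ b i ≤ b (σ i) := by
      by_contra hcon
      push Not at hcon
      have hle : ∀ i ∈ (Finset.univ : Finset m), b (σ i) ≤ b i := by
        intro i _
        by_cases hi : σ i = i
        · rw [hi]
        · exact (hcon i hi).le
      have hsum : ∑ i, b (σ i) = ∑ i, b i := Equiv.sum_comp σ b
      have heq := (Finset.sum_eq_sum_iff_of_le hle).1 hsum
      apply hσ
      ext i
      by_contra hi
      exact absurd (heq i (Finset.mem_univ i)) (hcon i hi).ne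
    obtain ⟨i, hi, hbi⟩ := hex
    have h0 : ∏ i, M (σ i) i = 0 := Finset.prod_eq_zero (Finset.mem_univ i) (h (σ i) i hi hbi)
    rw [h0, smul_zero]
  · intro h'
    exact absurd (Finset.mem_univ _) h'

/-! ### The chain rule -/

theorem jac_chain {σ τ k : Type*} [Fintype σ] [DecidableEq σ] [CommRing k]
    (α : MvPolynomial σ k →ₐ[k] MvPolynomial τ k) (q : τ) (f : MvPolynomial σ k) :
    pderiv q (α f) = ∑ c, α (pderiv c f) * pderiv q (α (X c)) := by
  induction f using MvPolynomial.induction_on with
  | C a =>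
    have h1 : α (C a) = C a := α.commutes a
    rw [h1, pderiv_C]
    symm
    refine Finset.sum_eq_zero fun c _ => ?_
    rw [pderiv_C, map_zero, zero_mul]
  | add p r hp hr =>
    rw [map_add, map_add, hp, hr, ← Finset.sum_add_distrib]
    refine Finset.sum_congr rfl fun c _ => ?_
    rw [map_add, map_add, add_mul]
  | mul_X p n hp =>
    rw [map_mul, pderiv_mul, hp]
    have h1 : ∀ c, α (pderiv c (p * X n)) * pderiv q (α (X c)) =
        α (pderiv c p) * pderiv q (α (X c)) * α (X n) +
          (if c = n then α p * pderiv q (α (X n)) else 0) := by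
      intro c
      rw [pderiv_mul, map_add, map_mul, map_mul]
      by_cases hc : c = n
      · subst hc
        rw [pderiv_X_self, map_one, if_pos rfl]
        ring
      · rw [pderiv_X_of_ne (fun h' => hc h'.symm), map_zero, if_neg hc]
        ring
    rw [Finset.sum_congr rfl fun c _ => h1 c, Finset.sum_add_distrib, ← Finset.sum_mul]
    simp

/-! ### The chart coordinates -/

theorem jac_nu_injective {T : ℕ} (i : Fin T → Fin 3) : Function.Injective (nu i) := by
  rintro ⟨b, a, j⟩ ⟨b', a', j'⟩ h
  unfold nu at h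
  obtain ⟨h1, h2⟩ := Prod.mk.inj h
  simp only at h1 h2
  subst h1
  have ha : ∀ a : Fin 2, a = 0 ∨ a = 1 := by decide
  rcases ha a with rfl | rfl <;> rcases ha a' with rfl | rfl <;>
    by_cases hj : j = i b <;> by_cases hj' : j' = i b <;> simp_all

/-- product of the `s_b` -/
noncomputable def jacS (T : ℕ) : P T := ∏ b : Fin T, X (b, Cv.s)

theorem jacS_ne_zero (T : ℕ) : jacS T ≠ 0 :=
  Finset.prod_ne_zero_iff.2 fun b _ => X_ne_zero _

theorem tau_jacS (T : ℕ) : tau T (jacS T) = jacS T := by
  unfold jacS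
  rw [map_prod]
  refine Finset.prod_congr rfl fun b _ => ?_
  simp [tau]

theorem jac_fin3 {R : Type*} [CommRing R] (s : R) (c : Fin 3) :
    (∏ j : Fin 3, if j = c then 1 else s) = s ^ 2 := by
  fin_cases c <;> simp [Fin.prod_univ_three, pow_two]

theorem jac_fin3' {R : Type*} [CommRing R] (s : R) (c : Fin 3) :
    (∏ j : Fin 3, if j = c then s else 1) = s := by
  fin_cases c <;> simp [Fin.prod_univ_three]

/-- products over the coordinates -/
theorem jac_prod {T : ℕ} {R : Type*} [CommRing R] (g : Cx T → R) :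
    ∏ p, g p = ∏ b : Fin T, (∏ j : Fin 3, g (b, 0, j)) * ∏ j : Fin 3, g (b, 1, j) := by
  rw [Fintype.prod_prod_type]
  refine Finset.prod_congr rfl fun b _ => ?_
  rw [Fintype.prod_prod_type, Fin.prod_univ_two]

theorem jac_pd {T : ℕ} (b b' : Fin T) (c c' : Cv) :
    pderiv (b', c') (X (b, c) : P T) = if b = b' ∧ c = c' then 1 else 0 := by
  by_cases h : b = b' ∧ c = c'
  · obtain ⟨rfl, rfl⟩ := h
    rw [pderiv_X_self, if_pos ⟨rfl, rfl⟩]
  · rw [if_neg h, pderiv_X_of_ne]
    intro h'
    exact h (Prod.mk.inj h')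

/-- the weight for the triangular form -/
def jacw {T : ℕ} (i : Fin T → Fin 3) (p : Cx T) : ℕ :=
  if p.2.1 = 1 then (if p.2.2 = i p.1 then 2 else 1) else (if p.2.2 = i p.1 then 1 else 0)

theorem jac_A_off {T : ℕ} (i : Fin T → Fin 3) (p q : Cx T) (hpq : p ≠ q)
    (hw : jacw i q ≤ jacw i p) : pderiv (nu i q) (thetaP i (X p)) = 0 := by
  obtain ⟨b, a, j⟩ := p
  obtain ⟨b', a', j'⟩ := q
  have ha : ∀ a : Fin 2, a = 0 ∨ a = 1 := by decide
  unfold jacw at hw
  unfold thetaP nu
  rw [aeval_X]
  by_cases hb : b = b'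
  · subst hb
    rcases ha a with rfl | rfl <;> rcases ha a' with rfl | rfl <;>
      by_cases hj : j = i b <;> by_cases hj' : j' = i b <;>
      simp_all [pderiv_mul, jac_pd]
  · rcases ha a with rfl | rfl <;> rcases ha a' with rfl | rfl <;>
      by_cases hj : j = i b <;> by_cases hj' : j' = i b' <;>
      simp [pderiv_mul, jac_pd, hb, hj, hj']

theorem jac_A_diag {T : ℕ} (i : Fin T → Fin 3) (p : Cx T) :
    pderiv (nu i p) (thetaP i (X p)) =
      if p.2.1 = 1 then (if p.2.2 = i p.1 then 1 else X (p.1, Cv.s)) else 1 := by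
  obtain ⟨b, a, j⟩ := p
  have ha : ∀ a : Fin 2, a = 0 ∨ a = 1 := by decide
  unfold thetaP nu
  rw [aeval_X]
  rcases ha a with rfl | rfl <;> by_cases hj : j = i b <;>
    simp [pderiv_mul, jac_pd, hj]

theorem jac_A_det {T : ℕ} (i : Fin T → Fin 3) :
    Matrix.det (Matrix.of fun p q : Cx T => pderiv (nu i q) (thetaP i (X p))) = jacS T ^ 2 := by
  have h0 := jac_tri (Matrix.of fun p q : Cx T => pderiv (nu i q) (thetaP i (X p))) (jacw i)
    (fun p q hpq hw => jac_A_off i p q hpq hw)
  rw [h0]
  simp only [Matrix.of_apply]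
  rw [Finset.prod_congr rfl fun p _ => jac_A_diag i p, jac_prod]
  unfold jacS
  rw [← Finset.prod_pow]
  refine Finset.prod_congr rfl fun b _ => ?_
  simp only [zero_ne_one, if_false, if_true, Finset.prod_const_one, one_mul]
  exact jac_fin3 _ _

theorem jac_B_off {T : ℕ} (i : Fin T → Fin 3) (p q : Cx T) (hpq : p ≠ q)
    (hw : jacw i q ≤ jacw i p) : pderiv (nu i q) (tau T (X (nu i p))) = 0 := by
  obtain ⟨b, a, j⟩ := p
  obtain ⟨b', a', j'⟩ := q
  have ha : ∀ a : Fin 2, a = 0 ∨ a = 1 := by decide
  unfold jacw at hw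
  unfold tau nu
  rw [aeval_X]
  by_cases hb : b = b'
  · subst hb
    rcases ha a with rfl | rfl <;> rcases ha a' with rfl | rfl <;>
      by_cases hj : j = i b <;> by_cases hj' : j' = i b <;>
      simp_all [pderiv_mul, jac_pd, pow_two]
  · rcases ha a with rfl | rfl <;> rcases ha a' with rfl | rfl <;>
      by_cases hj : j = i b <;> by_cases hj' : j' = i b' <;>
      simp [pderiv_mul, jac_pd, hb, hj, hj', pow_two]

theorem jac_B_diag {T : ℕ} (i : Fin T → Fin 3) (p : Cx T) :
    pderiv (nu i p) (tau T (X (nu i p))) =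
      if p.2.1 = 0 then (if p.2.2 = i p.1 then X (p.1, Cv.s) else 1) else 1 := by
  obtain ⟨b, a, j⟩ := p
  have ha : ∀ a : Fin 2, a = 0 ∨ a = 1 := by decide
  unfold tau nu
  rw [aeval_X]
  have h2 : (X (b, Cv.x) : P T) + X (b, Cv.x) = 0 := CharTwo.add_self_eq_zero _
  rcases ha a with rfl | rfl <;> by_cases hj : j = i b <;>
    simp [pderiv_mul, jac_pd, hj, pow_two, h2]

theorem jac_B_det {T : ℕ} (i : Fin T → Fin 3) :
    Matrix.det (Matrix.of fun p q : Cx T => pderiv (nu i q) (tau T (X (nu i p)))) =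
      jacS T := by
  have h0 := jac_tri (Matrix.of fun p q : Cx T => pderiv (nu i q) (tau T (X (nu i p)))) (jacw i)
    (fun p q hpq hw => jac_B_off i p q hpq hw)
  rw [h0]
  simp only [Matrix.of_apply]
  rw [Finset.prod_congr rfl fun p _ => jac_B_diag i p, jac_prod]
  unfold jacS
  refine Finset.prod_congr rfl fun b _ => ?_
  simp only [one_ne_zero, if_false, if_true, Finset.prod_const_one, mul_one]
  exact jac_fin3' _ _

/-! ### The three matrix identities -/

theorem jac_theta {T : ℕ} (i : Fin T → Fin 3) (f : Cx T → MvPolynomial (Cx T) (ZMod 2)) :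
    Matrix.det (Matrix.of fun p q : Cx T => pderiv (nu i q) (thetaP i (f p))) =
      thetaP i (jac f) * jacS T ^ 2 := by
  rw [← jac_A_det i, jac, AlgHom.map_det, ← Matrix.det_mul]
  congr 1
  refine Matrix.ext fun p q => ?_
  rw [Matrix.mul_apply, Matrix.of_apply, jac_chain]
  rfl

theorem jac_range {T : ℕ} (i : Fin T → Fin 3) (c : Fin T × Cv) (hc : c ∉ Set.range (nu i))
    (q : Cx T) : pderiv (nu i q) (tau T (X c)) = 0 := by
  obtain ⟨b, c⟩ := c
  have hx : c ≠ Cv.x := by
    rintro rfl
    apply hc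
    exact ⟨(b, 0, i b), by simp [nu]⟩
  unfold tau
  rw [aeval_X]
  simp only [hx, if_false]
  exact pderiv_X_of_ne fun h => hc ⟨q, h.symm⟩

theorem jac_tau {T : ℕ} (i : Fin T → Fin 3) (g : Cx T → P T) :
    Matrix.det (Matrix.of fun p q : Cx T => pderiv (nu i q) (tau T (g p))) =
      tau T (Matrix.det (Matrix.of fun p q : Cx T => pderiv (nu i q) (g p))) * jacS T := by
  conv_rhs => rw [← jac_B_det i]
  rw [AlgHom.map_det, ← Matrix.det_mul]
  congr 1
  refine Matrix.ext fun p q => ?_
  rw [Matrix.mul_apply, Matrix.of_apply, jac_chain]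
  symm
  refine Fintype.sum_of_injective (nu i) (jac_nu_injective i) _
    (fun c => tau T (pderiv c (g p)) * pderiv (nu i q) (tau T (X c))) ?_ ?_
  · intro c hc
    rw [jac_range i c hc, mul_zero]
  · intro c
    rfl

/-- the divisibility of the columns -/
theorem jac_col {T : ℕ} (i : Fin T → Fin 3) (f : Inv (GB T)) (q : Cx T) :
    (if q.2.2 = i q.1 then 1 else X (q.1, Cv.s) : P T) ∣ pderiv (nu i q) (theta i f) := by
  obtain ⟨b, a, j⟩ := q
  simp only
  by_cases hj : j = i b
  · rw [if_pos hj]
    exact one_dvd _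
  · rw [if_neg hj]
    unfold nu
    by_cases ha : a = 1
    · simp only [ha, if_true, hj, if_false]
      exact der_w i b j f
    · simp only [ha, if_false, hj]
      exact der_z i b j f

theorem jac_cols {T : ℕ} (i : Fin T → Fin 3) (f : Cx T → Inv (GB T)) :
    ∃ y : P T, Matrix.det (Matrix.of fun p q : Cx T => pderiv (nu i q) (theta i (f p))) =
      jacS T ^ 4 * y := by
  choose m hm using fun p q => jac_col i (f p) q
  refine ⟨Matrix.det (Matrix.of m), ?_⟩
  have h1 : (Matrix.of fun p q : Cx T => pderiv (nu i q) (theta i (f p))) =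
      Matrix.of fun p q : Cx T =>
        (if q.2.2 = i q.1 then 1 else X (q.1, Cv.s) : P T) * (Matrix.of m) p q := by
    refine Matrix.ext fun p q => ?_
    exact hm p q
  rw [h1, Matrix.det_mul_row (fun q : Cx T => (if q.2.2 = i q.1 then 1 else X (q.1, Cv.s) : P T))]
  congr 1
  rw [jac_prod]
  unfold jacS
  rw [← Finset.prod_pow]
  refine Finset.prod_congr rfl fun b _ => ?_
  simp only
  rw [jac_fin3]
  ring

theorem jac_main {T : ℕ} (i : Fin T → Fin 3) (f : Cx T → Inv (GB T)) :
    ∃ y : P T, thetaP i (jac fun p => (f p : MvPolynomial (Cx T) (ZMod 2))) =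
      jacS T ^ 3 * tau T y := by
  obtain ⟨y, hy⟩ := jac_cols i f
  refine ⟨y, ?_⟩
  have h1 := jac_theta i (fun p => (f p : MvPolynomial (Cx T) (ZMod 2)))
  have h2 := jac_tau i (fun p => theta i (f p))
  simp only [theta_spec] at h2
  rw [h1, hy, map_mul, map_pow, tau_jacS] at h2
  have h3 : jacS T ^ 2 ≠ 0 := pow_ne_zero _ (jacS_ne_zero T)
  apply mul_right_cancel₀ h3
  rw [h2]
  ring

theorem jac_dvd {T : ℕ} (i : Fin T → Fin 3) (h : Inv (GB T)) (hh : h ∈ jacGen (GB T)) :
    (∏ b : Fin T, (X (b, Cv.s) : P T)) ^ (3 * rr T) ∣ theta i h := by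
  obtain ⟨F, hF⟩ := hh
  choose y hy using fun l => jac_main i (F l)
  refine ⟨∏ l, y l, ?_⟩
  apply tau_injective T
  rw [theta_spec, hF, map_prod, Finset.prod_congr rfl fun l _ => hy l, Finset.prod_mul_distrib,
    Finset.prod_const, Finset.card_univ, Fintype.card_fin, ← map_prod, map_mul, map_pow]
  have h1 := tau_jacS T
  unfold jacS at h1 ⊢
  rw [h1, ← pow_mul]

theorem jac_mem {T : ℕ} (b : Fin T) (h : Inv (GB T)) (hh : h ∈ jacGen (GB T)) :
    (h : MvPolynomial (Cx T) (ZMod 2)) ∈
      Ideal.span (Set.range fun j' : Fin 3 => (X (b, 1, j') : MvPolynomial (Cx T) (ZMod 2))) := by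
  obtain ⟨F, hF⟩ := hh
  rw [hF]
  have hr : 0 < Nat.card (GB T) := Nat.card_pos
  refine Ideal.mem_of_dvd _ (Finset.dvd_prod_of_mem _ (Finset.mem_univ (⟨0, hr⟩ : Fin _))) ?_
  unfold jac
  rw [Matrix.det_apply]
  refine Ideal.sum_mem _ fun σ _ => ?_
  rw [Units.smul_def, zsmul_eq_mul]
  refine Ideal.mul_mem_left _ _ ?_
  refine Ideal.mem_of_dvd _ (Finset.dvd_prod_of_mem _ (Finset.mem_univ (b, 0, 0))) ?_
  exact derS b 0 _

end H48SM

end S_Jac

section S_JacA

/-! # Module JACA: the minimal Jacobian order is attained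

Proof.  Take `F l = f₀` for all `l`, where `f₀ (b,1,j) = uI b j`, `f₀ (b,0,i b) = NI b (i b)` and
`f₀ (b,0,j) = MI b (i b) j` for `j ≠ i b`.  The Jacobian matrix `(pderiv q (f₀ p))` is block diagonal in `b`;
in block `b` (`i = i b`): rows `(b,1,j)` are the unit vectors of the columns `(b,1,j)`; in the columns
`(b,0,*)` the rows `(b,0,*)` are: `∂N_i/∂x_i = 2 x_i + u_i = u_i`, `∂M_{i,j}/∂x_j = u_i`, `∂M_{i,j}/∂x_i = u_j`,
all others `0`: triangular with diagonal `u_i` (with respect to an order in which `i` comes first).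
So `jac f₀ = ∏ b, X (b,1,i b)^3` (determinant: `Matrix.det_fromBlocks_zero₂₁` after reindexing, or
`Matrix.BlockTriangular`, e.g. with the function `Cx T → ℕ`, or the sum over permutations).
Then `h = (∏ b, uI b (i b))^(3 r)` is in `jacGen` and `theta i h = (∏ b, X (b,s))^(3 r)` (`theta_u_piv`).
-/

set_option autoImplicit false

namespace H48SM

open MvPolynomial

/-- a matrix whose nonzero off-diagonal entries strictly increase a function -/
theorem jaca_det {m R : Type} [Fintype m] [DecidableEq m] [CommRing R] (M : Matrix m m R)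
    (κ : m → ℕ) (h : ∀ r c, r ≠ c → κ c ≤ κ r → M r c = 0) : M.det = ∏ r, M r r := by
  classical
  let key : m → ℕ ×ₗ Fin (Fintype.card m) := fun p => toLex (κ p, Fintype.equivFin m p)
  have hkey : Function.Injective key := by
    intro a b hab
    have h1 : (κ a, Fintype.equivFin m a) = (κ b, Fintype.equivFin m b) := toLex.injective hab
    exact (Fintype.equivFin m).injective (Prod.mk.inj h1).2
  let _ : LinearOrder m := LinearOrder.lift' key hkey
  refine Matrix.det_of_isUpperTriangular ?_
  intro r c hrc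
  have h1 : key c < key r := hrc
  have h2 : r ≠ c := by
    rintro rfl
    exact absurd h1 (lt_irrefl _)
  refine h r c h2 ?_
  rcases Prod.Lex.lt_iff.1 h1 with h3 | h3
  · exact le_of_lt h3
  · exact le_of_eq h3.1

/-- the invariants with the smallest Jacobian -/
noncomputable def jaca_f {T : ℕ} (i : Fin T → Fin 3) (p : Cx T) : Inv (GB T) :=
  if p.2.1 = 1 then uI p.1 p.2.2 else if p.2.2 = i p.1 then NI p.1 p.2.2 else MI p.1 (i p.1) p.2.2

theorem jaca_jac {T : ℕ} (i : Fin T → Fin 3) :
    jac (fun p => (jaca_f i p : MvPolynomial (Cx T) (ZMod 2))) =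
      ∏ b : Fin T, (X (b, 1, i b) : MvPolynomial (Cx T) (ZMod 2)) ^ 3 := by
  unfold jac
  have h2 : (2 : MvPolynomial (Cx T) (ZMod 2)) = 0 := CharTwo.two_eq_zero
  rw [jaca_det _ (fun p => if p.2.1 = 1 then 2 else if p.2.2 = i p.1 then 1 else 0)]
  · have hdiag : ∀ p : Cx T, (Matrix.of fun p q => pderiv q
        (jaca_f i p : MvPolynomial (Cx T) (ZMod 2))) p p =
        if p.2.1 = 1 then 1 else X (p.1, 1, i p.1) := by
      rintro ⟨b, a, j⟩
      simp only [Matrix.of_apply, jaca_f]
      by_cases ha : a = 1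
      · subst ha
        simp [uI]
      · have ha0 : a = 0 := by omega
        subst ha0
        by_cases hj : j = i b
        · subst hj
          simp only [zero_ne_one, if_false, if_true, NI, map_add, Derivation.leibniz,
            Derivation.leibniz_pow, pderiv_X_self, smul_eq_mul, mul_one]
          rw [pderiv_X_of_ne (by simp)]
          simp [h2]
        · simp only [zero_ne_one, if_false, hj, MI, map_add, Derivation.leibniz, pderiv_X_self,
            smul_eq_mul, mul_one]
          rw [pderiv_X_of_ne (by simp), pderiv_X_of_ne (by simp [Ne.symm hj]),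
            pderiv_X_of_ne (by simp)]
          simp
    rw [Finset.prod_congr rfl fun p _ => hdiag p]
    rw [Fintype.prod_prod_type]
    refine Finset.prod_congr rfl fun b _ => ?_
    rw [Fintype.prod_prod_type]
    simp [Fin.prod_univ_succ]
  · rintro ⟨b, a, j⟩ ⟨b', a', j'⟩ hne hle
    simp only [Matrix.of_apply, jaca_f] at hle ⊢
    by_cases ha : a = 1
    · subst ha
      simp only [if_true, uI]
      exact pderiv_X_of_ne hne
    · have ha0 : a = 0 := by omega
      subst ha0
      by_cases hj : j = i b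
      · subst hj
        simp only [zero_ne_one, if_false, if_true] at hle ⊢
        by_cases ha' : a' = 1
        · subst ha'
          simp at hle
        · have ha0' : a' = 0 := by omega
          subst ha0'
          simp only [NI, map_add, Derivation.leibniz, Derivation.leibniz_pow, smul_eq_mul]
          rw [pderiv_X_of_ne hne, pderiv_X_of_ne (by simp)]
          simp
      · simp only [zero_ne_one, if_false, hj] at hle ⊢
        by_cases ha' : a' = 1
        · subst ha'
          simp at hle
        · have ha0' : a' = 0 := by omega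
          subst ha0'
          by_cases hj' : j' = i b'
          · subst hj'
            simp at hle
          · simp only [MI, map_add, Derivation.leibniz, smul_eq_mul]
            have h3 : (b, (0 : Fin 2), i b) ≠ (b', (0 : Fin 2), j') := by
              intro h4
              simp only [Prod.mk.injEq, true_and] at h4
              obtain ⟨h5, h6⟩ := h4
              subst h5
              exact hj' h6.symm
            rw [pderiv_X_of_ne (by simp), pderiv_X_of_ne h3, pderiv_X_of_ne (by simp),
              pderiv_X_of_ne hne]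
            simp

theorem jac_attained {T : ℕ} (i : Fin T → Fin 3) :
    ∃ h ∈ jacGen (GB T), theta i h = (∏ b : Fin T, (X (b, Cv.s) : P T)) ^ (3 * Nat.card (GB T)) := by
  refine ⟨(∏ b : Fin T, uI b (i b)) ^ (3 * Nat.card (GB T)), ⟨fun _ => jaca_f i, ?_⟩, ?_⟩
  · simp only [jaca_jac, Finset.prod_const, Finset.card_univ, Fintype.card_fin]
    rw [Finset.prod_pow, ← pow_mul]
    push_cast
    rfl
  · rw [map_pow, map_prod]
    simp only [theta_u_piv]

end H48SM

end S_JacA

section S_Zero

/-! # Module ZERO: arcs in the singular locus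

Proof of `arc_zero`: `S = k[V]` is integral over `A = Inv (GB T)` (`u_{b,j} ∈ A`, `x_{b,j}` is a root of the monic
`Y^2 + u_{b,j} Y + N_{b,j}` with coefficients in `A`; `S` is generated by these).  The kernel `p` of `γ` is
a prime ideal of `A` containing the `uI b j`.  By lying over (`Ideal.exists_ideal_over_prime_of_isIntegral`
or similar) there is a prime `P` of `S` with `P ∩ A = p`.  `h ∈ jacGen` lies in the ideal of `S` generated
by the `u_{b,j}` (`jac_mem`), which is contained in `P`; so `h ∈ P ∩ A = p`.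
`ordF_top`: infimum of `⊤` over `jacGen`.
-/

set_option autoImplicit false

namespace H48SM

open MvPolynomial

theorem zero_int_X {T : ℕ} (p : Cx T) :
    IsIntegral (Inv (GB T)) (X p : MvPolynomial (Cx T) (ZMod 2)) := by
  obtain ⟨b, a, j⟩ := p
  have ha : a = 0 ∨ a = 1 := by
    revert a
    decide
  rcases ha with rfl | rfl
  · refine ⟨Polynomial.X ^ 2 + (Polynomial.C (uI b j) * Polynomial.X + Polynomial.C (NI b j)),
      ?_, ?_⟩
    · refine Polynomial.monic_X_pow_add ?_
      refine lt_of_le_of_lt Polynomial.degree_linear_le ?_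
      exact_mod_cast one_lt_two
    · have h2 : (2 : MvPolynomial (Cx T) (ZMod 2)) = 0 := CharTwo.two_eq_zero
      simp only [Polynomial.eval₂_add, Polynomial.eval₂_mul, Polynomial.eval₂_pow,
        Polynomial.eval₂_X, Polynomial.eval₂_C]
      have e1 : algebraMap (Inv (GB T)) (MvPolynomial (Cx T) (ZMod 2)) (uI b j) = X (b, 1, j) := rfl
      have e2 : algebraMap (Inv (GB T)) (MvPolynomial (Cx T) (ZMod 2)) (NI b j) =
        X (b, 0, j) ^ 2 + X (b, 1, j) * X (b, 0, j) := rfl
      rw [e1, e2]
      linear_combination (X (b, 0, j) ^ 2 + X (b, 1, j) * X (b, 0, j)) * h2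
  · exact isIntegral_algebraMap (x := uI b j)

theorem zero_integral (T : ℕ) :
    Algebra.IsIntegral (Inv (GB T)) (MvPolynomial (Cx T) (ZMod 2)) := by
  refine ⟨fun f => ?_⟩
  induction f using MvPolynomial.induction_on with
  | C a => exact isIntegral_algebraMap (x := algebraMap (ZMod 2) (Inv (GB T)) a)
  | add p q hp hq => exact hp.add hq
  | mul_X p n hp => exact hp.mul (zero_int_X n)

theorem arc_zero {T : ℕ} {K : Type} [Field K] [Algebra (ZMod 2) K] (γ : Arc (GB T) K) (b : Fin T)
    (h0 : ∀ j, γ (uI b j) = 0) (h : Inv (GB T)) (hh : h ∈ jacGen (GB T)) : γ h = 0 := by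
  have hint := zero_integral T
  have hp : (RingHom.ker γ.toRingHom).IsPrime := RingHom.ker_isPrime _
  obtain ⟨Q, hQ, hQc⟩ := Ideal.exists_ideal_over_prime_of_isIntegral_of_isDomain
    (S := MvPolynomial (Cx T) (ZMod 2)) (RingHom.ker γ.toRingHom) (by
      intro x hx
      have hx' : x = 0 := Subtype.ext hx
      rw [hx']
      exact Ideal.zero_mem _)
  have hu : ∀ j : Fin 3, (X (b, 1, j) : MvPolynomial (Cx T) (ZMod 2)) ∈ Q := by
    intro j
    have h1 : uI b j ∈ Q.comap (algebraMap (Inv (GB T)) (MvPolynomial (Cx T) (ZMod 2))) := by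
      rw [hQc]
      exact h0 j
    exact h1
  have h1 : (h : MvPolynomial (Cx T) (ZMod 2)) ∈ Q := by
    refine (Ideal.span_le.2 ?_) (jac_mem b h hh)
    rintro _ ⟨j, rfl⟩
    exact hu j
  have h2 : h ∈ Q.comap (algebraMap (Inv (GB T)) (MvPolynomial (Cx T) (ZMod 2))) := h1
  rw [hQc] at h2
  exact h2

theorem ordF_top {T : ℕ} {K : Type} [Field K] [Algebra (ZMod 2) K] (γ : Arc (GB T) K) (b : Fin T)
    (h0 : ∀ j, γ (uI b j) = 0) : ordF (GB T) γ = ⊤ := by
  unfold ordF
  rw [iInf_eq_top]
  intro h
  rw [iInf_eq_top]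
  intro hh
  rw [arc_zero γ b h0 h hh, PowerSeries.order_zero]

end H48SM

end S_Zero

section S_Ord

/-! # Module ORD: the order function in the chart

Proof.  For `h ∈ jacGen`: `theta i h = (∏ X (b,s))^(3r) * y` (`jac_dvd`), so `order (γ h) = order (α (theta i h)) ≥
3 r ∑ order (α s_b) = 3 r ∑ e_b` (`PowerSeries.order_mul`, `order_pow`, `order_prod`: over a field the order is
additive); equality for the `h` of `jac_attained`.  (`iInf` over `h ∈ jacGen`: `le_antisymm`, `iInf₂_le`, `le_iInf₂`.)
-/

set_option autoImplicit false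

namespace H48SM

open MvPolynomial

theorem ord_prod {T : ℕ} {K : Type} [Field K] [Algebra (ZMod 2) K]
    (α : P T →ₐ[ZMod 2] PowerSeries K) (e : Fin T → ℕ)
    (he : ∀ b, (α (X (b, Cv.s))).order = e b) (F : Finset (Fin T)) :
    (∏ b ∈ F, α (X (b, Cv.s))).order = ((∑ b ∈ F, e b : ℕ) : ℕ∞) := by
  classical
  induction F using Finset.induction_on with
  | empty => simp
  | insert b F hb ih =>
    rw [Finset.prod_insert hb, PowerSeries.order_mul, ih, he, Finset.sum_insert hb]
    push_cast
    rfl

theorem ord_pow {K : Type} [Field K] (f : PowerSeries K) (m : ℕ) :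
    (f ^ m).order = m * f.order := by
  induction m with
  | zero => simp
  | succ m ih =>
    rw [pow_succ, PowerSeries.order_mul, ih]
    push_cast
    rw [add_mul, one_mul]

theorem ordF_chart {T : ℕ} {K : Type} [Field K] [Algebra (ZMod 2) K] (i : Fin T → Fin 3)
    (α : P T →ₐ[ZMod 2] PowerSeries K) (γ : Arc (GB T) K) (hγ : ∀ f, γ f = α (theta i f))
    (e : Fin T → ℕ) (he : ∀ b, (α (X (b, Cv.s))).order = e b) :
    ordF (GB T) γ = ((3 * rr T * ∑ b, e b : ℕ) : ℕ∞) := by
  have hord : (α ((∏ b : Fin T, (X (b, Cv.s) : P T)) ^ (3 * rr T))).order =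
      ((3 * rr T * ∑ b, e b : ℕ) : ℕ∞) := by
    rw [map_pow, map_prod, ord_pow, ord_prod α e he]
    push_cast
    rfl
  unfold ordF
  apply le_antisymm
  · obtain ⟨h, hh, hth⟩ := jac_attained i
    refine (iInf₂_le h hh).trans ?_
    rw [hγ, hth, hord]
  · refine le_iInf₂ (fun h hh => ?_)
    obtain ⟨y, hy⟩ := jac_dvd i h hh
    rw [hγ, hy, map_mul, PowerSeries.order_mul, hord]
    exact le_self_add

end H48SM

end S_Ord

section S_Tru

/-! # Module TRU: the `n`-jet depends only on the allowed coefficients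

Proof.  `taylor` for `α, β` and `theta i f`: the first order terms are `α(∂_c g)(β c - α c)`, `g = theta i f`.  For
`c = s, x` the difference is divisible by `t^(n+1)`.  For `c = w_j, z_j` of block `b`: `α(∂_c g)` is divisible by
`α(s_b)`, so by `t^(e_b)` (`der_w`, `der_z`), and the difference by `t^(n+1-e_b)`; `e_b ≤ n + 1`.  Second order terms: every
difference of block `b` is divisible by `t^(n+1-e_b)`, and `(n+1-e_b) + (n+1-e_b') ≥ n+1` since `2 e_b ≤ n`, `2 e_b' ≤ n`.
-/

set_option autoImplicit false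

namespace H48SM

open MvPolynomial

theorem trunc {T : ℕ} {R : Type} [CommRing R] [Algebra (ZMod 2) R] (i : Fin T → Fin 3)
    (e : Fin T → ℕ) (n : ℕ) (hn : ∀ b, 2 * e b ≤ n) (α β : P T →ₐ[ZMod 2] PowerSeries R)
    (hs : ∀ b, PowerSeries.X ^ (e b) ∣ α (X (b, Cv.s)))
    (h1 : ∀ b, PowerSeries.X ^ (n + 1) ∣ β (X (b, Cv.s)) - α (X (b, Cv.s)))
    (h2 : ∀ b, PowerSeries.X ^ (n + 1) ∣ β (X (b, Cv.x)) - α (X (b, Cv.x)))
    (h3 : ∀ b j, PowerSeries.X ^ (n + 1 - e b) ∣ β (X (b, Cv.w j)) - α (X (b, Cv.w j)))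
    (h4 : ∀ b j, PowerSeries.X ^ (n + 1 - e b) ∣ β (X (b, Cv.z j)) - α (X (b, Cv.z j)))
    (f : Inv (GB T)) : PowerSeries.X ^ (n + 1) ∣ β (theta i f) - α (theta i f) := by
  -- the differences
  have hδ : ∀ p : Fin T × Cv, PowerSeries.X ^ (n + 1 - e p.1) ∣ β (X p) - α (X p) := by
    rintro ⟨b, c⟩
    cases c with
    | s => exact (pow_dvd_pow _ (Nat.sub_le _ _)).trans (h1 b)
    | x => exact (pow_dvd_pow _ (Nat.sub_le _ _)).trans (h2 b)
    | w j => exact h3 b j
    | z j => exact h4 b j
  have ht := taylor α β (theta i f)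
  have hle : Ideal.span (Set.range fun p : (Fin T × Cv) × (Fin T × Cv) =>
        (β (X p.1) - α (X p.1)) * (β (X p.2) - α (X p.2))) ≤
      Ideal.span {(PowerSeries.X : PowerSeries R) ^ (n + 1)} := by
    rw [Ideal.span_le]
    rintro _ ⟨p, rfl⟩
    rw [SetLike.mem_coe, Ideal.mem_span_singleton]
    refine dvd_trans ?_ (mul_dvd_mul (hδ p.1) (hδ p.2))
    rw [← pow_add]
    refine pow_dvd_pow _ ?_
    have a1 := hn p.1.1
    have a2 := hn p.2.1
    omega
  have h5 := Ideal.mem_span_singleton.1 (hle ht)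
  have h6 : PowerSeries.X ^ (n + 1) ∣
      ∑ c, α (pderiv c (theta i f)) * (β (X c) - α (X c)) := by
    refine Finset.dvd_sum (fun p _ => ?_)
    obtain ⟨b, c⟩ := p
    have hpow : (PowerSeries.X : PowerSeries R) ^ (n + 1) =
        PowerSeries.X ^ (e b) * PowerSeries.X ^ (n + 1 - e b) := by
      rw [← pow_add]
      congr 1
      have := hn b
      omega
    cases c with
    | s => exact (h1 b).mul_left _
    | x => exact (h2 b).mul_left _
    | w j =>
      rw [hpow]
      exact mul_dvd_mul ((hs b).trans (map_dvd α (der_w i b j f))) (h3 b j)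
    | z j =>
      rw [hpow]
      exact mul_dvd_mul ((hs b).trans (map_dvd α (der_z i b j f))) (h4 b j)
  have h7 := dvd_add h5 h6
  rwa [sub_add_cancel] at h7

end H48SM

end S_Tru
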