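import Mathlib
import Pool.Agent.H48.SL.M1

set_option autoImplicit false

/-! Stringy motives of linear quotients, part M3: this file joins several modules to save build time. -/

section S_Gens

/-! # Module GENS: after multiplication by a power of `∏ u_{b,i_b}` every invariant is a polynomial in `u, N, M`

Proof.  `theta i f ∈ P T` is a polynomial in `s_b, x_b, w_{b,j}, z_{b,j}`, `j ≠ i b` (no dummies; see below).
For every `g ∈ P T` without dummy variables there is `m` with `(∏ s_b)^m * g` in the subalgebra generated by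
`s_b`, `x_b`, `s_b w_j`, `s_b z_j` (`j ≠ i b`) (induction on `g`: closed under sums (common `m`), products, variables), which are
the images under `theta i` of `uI b (i b)`, `NI b (i b)`, `uI b j`, `MI b (i b) j`.  So
`theta i ((∏ uI b (i b))^m * f) = theta i h` with `h` in the `Algebra.adjoin`, and `theta_injective`.
Dummies: apply the endomorphism `κ` of `P T` sending the dummy variables `w_{b,i b}`, `z_{b,i b}` to `0` and fixing
the others: `κ ∘ thetaP i = thetaP i` and `κ ∘ tau = tau ∘ κ`, so `κ (theta i f) = theta i f`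
(`tau_injective`), and `κ g` of a monomial with a dummy is `0`.  Hence the claim above may be proved in the
form: for all `g : P T` there are `m` and `h` with `(∏ s_b)^m * κ g = theta i h`.
-/

set_option autoImplicit false

namespace H48SM

open MvPolynomial

/-- kill the dummy variables -/
noncomputable def gens_kap {T : ℕ} (i : Fin T → Fin 3) : P T →ₐ[ZMod 2] P T :=
  aeval fun p => if p.2 = Cv.w (i p.1) ∨ p.2 = Cv.z (i p.1) then 0 else X p

theorem gens_kap_thetaP {T : ℕ} (i : Fin T → Fin 3) :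
    (gens_kap i).comp (thetaP i) = thetaP i := by
  apply MvPolynomial.algHom_ext
  rintro ⟨b, a, j⟩
  simp only [AlgHom.comp_apply, thetaP, aeval_X]
  by_cases ha : a = 1
  · by_cases hj : j = i b
    · simp [ha, hj, gens_kap]
    · simp [ha, hj, gens_kap]
  · by_cases hj : j = i b
    · simp [ha, hj, gens_kap]
    · simp [ha, hj, gens_kap]

theorem gens_kap_tau {T : ℕ} (i : Fin T → Fin 3) :
    (gens_kap i).comp (tau T) = (tau T).comp (gens_kap i) := by
  apply MvPolynomial.algHom_ext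
  rintro ⟨b, c⟩
  simp only [AlgHom.comp_apply, tau, gens_kap, aeval_X]
  cases c with
  | s => simp
  | x => simp
  | w j =>
    by_cases hj : j = i b
    · simp [hj]
    · simp [hj]
  | z j =>
    by_cases hj : j = i b
    · simp [hj]
    · simp [hj]

theorem gens_kap_theta {T : ℕ} (i : Fin T → Fin 3) (f : Inv (GB T)) :
    gens_kap i (theta i f) = theta i f := by
  apply tau_injective T
  have h1 : tau T (gens_kap i (theta i f)) = gens_kap i (tau T (theta i f)) :=
    (DFunLike.congr_fun (gens_kap_tau i) (theta i f)).symm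
  rw [h1, theta_spec]
  exact DFunLike.congr_fun (gens_kap_thetaP i) f.1

/-- the generators -/
def gens_S {T : ℕ} (i : Fin T → Fin 3) : Set (Inv (GB T)) :=
  (Set.range fun p : Fin T × Fin 3 => uI p.1 p.2) ∪ (Set.range fun b => NI b (i b)) ∪
        {y | ∃ b j, j ≠ i b ∧ y = MI b (i b) j}

theorem gens_u {T : ℕ} (i : Fin T → Fin 3) (b : Fin T) (j : Fin 3) :
    uI b j ∈ Algebra.adjoin (ZMod 2) (gens_S i) :=
  Algebra.subset_adjoin (Or.inl (Or.inl ⟨(b, j), rfl⟩))

theorem gens_N {T : ℕ} (i : Fin T → Fin 3) (b : Fin T) :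
    NI b (i b) ∈ Algebra.adjoin (ZMod 2) (gens_S i) :=
  Algebra.subset_adjoin (Or.inl (Or.inr ⟨b, rfl⟩))

theorem gens_M {T : ℕ} (i : Fin T → Fin 3) (b : Fin T) (j : Fin 3) (hj : j ≠ i b) :
    MI b (i b) j ∈ Algebra.adjoin (ZMod 2) (gens_S i) :=
  Algebra.subset_adjoin (Or.inr ⟨b, j, hj, rfl⟩)

theorem gens_U {T : ℕ} (i : Fin T → Fin 3) :
    (∏ b, uI b (i b)) ∈ Algebra.adjoin (ZMod 2) (gens_S i) :=
  Subalgebra.prod_mem _ fun b _ => gens_u i b (i b)

theorem gens_theta_U {T : ℕ} (i : Fin T → Fin 3) :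
    theta i (∏ b, uI b (i b)) = ∏ b, X (b, Cv.s) := by
  rw [map_prod]
  exact Finset.prod_congr rfl fun b _ => theta_u_piv i b

/-- the case of a variable -/
theorem gens_var {T : ℕ} (i : Fin T → Fin 3) (p : Fin T × Cv) :
    ∃ h ∈ Algebra.adjoin (ZMod 2) (gens_S i),
      theta i (∏ b, uI b (i b)) * gens_kap i (X p) = theta i h := by
  obtain ⟨b, c⟩ := p
  have hprod : ∀ y : P T, (∏ b', theta i (uI b' (i b'))) * y =
      (∏ b' ∈ Finset.univ.erase b, theta i (uI b' (i b'))) * (X (b, Cv.s) * y) := by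
    intro y
    rw [← Finset.prod_erase_mul (Finset.univ) _ (Finset.mem_univ b), theta_u_piv, mul_assoc]
  have hmem : (∏ b' ∈ Finset.univ.erase b, uI b' (i b')) ∈
      Algebra.adjoin (ZMod 2) (gens_S i) := Subalgebra.prod_mem _ fun b' _ => gens_u i b' (i b')
  cases c with
  | s =>
    refine ⟨(∏ b, uI b (i b)) * uI b (i b), mul_mem (gens_U i) (gens_u i b _), ?_⟩
    rw [map_mul, theta_u_piv]
    simp [gens_kap]
  | x =>
    refine ⟨(∏ b, uI b (i b)) * NI b (i b), mul_mem (gens_U i) (gens_N i b), ?_⟩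
    rw [map_mul, theta_N]
    simp [gens_kap]
  | w j =>
    by_cases hj : j = i b
    · refine ⟨0, zero_mem _, ?_⟩
      simp [gens_kap, hj]
    · refine ⟨(∏ b' ∈ Finset.univ.erase b, uI b' (i b')) * uI b j,
        mul_mem hmem (gens_u i b j), ?_⟩
      rw [map_mul, theta_u i b j hj, map_prod, map_prod, ← hprod]
      simp [gens_kap, hj]
  | z j =>
    by_cases hj : j = i b
    · refine ⟨0, zero_mem _, ?_⟩
      simp [gens_kap, hj]
    · refine ⟨(∏ b' ∈ Finset.univ.erase b, uI b' (i b')) * MI b (i b) j,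
        mul_mem hmem (gens_M i b j hj), ?_⟩
      rw [map_mul, theta_M i b j hj, map_prod, map_prod, ← hprod]
      simp [gens_kap, hj]

theorem gens_all {T : ℕ} (i : Fin T → Fin 3) (g : P T) :
    ∃ m : ℕ, ∃ h ∈ Algebra.adjoin (ZMod 2) (gens_S i),
      theta i (∏ b, uI b (i b)) ^ m * gens_kap i g = theta i h := by
  induction g using MvPolynomial.induction_on with
  | C a =>
    refine ⟨0, algebraMap (ZMod 2) _ a, Subalgebra.algebraMap_mem _ a, ?_⟩
    rw [pow_zero, one_mul, AlgHom.commutes]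
    exact (gens_kap i).commutes a
  | add p q hp hq =>
    obtain ⟨m, h, hh, he⟩ := hp
    obtain ⟨m', h', hh', he'⟩ := hq
    refine ⟨m + m', (∏ b, uI b (i b)) ^ m' * h + (∏ b, uI b (i b)) ^ m * h',
      add_mem (mul_mem (pow_mem (gens_U i) _) hh) (mul_mem (pow_mem (gens_U i) _) hh'), ?_⟩
    rw [map_add, map_add, map_mul, map_mul, ← he, ← he', map_pow, map_pow]
    ring
  | mul_X p n hp =>
    obtain ⟨m, h, hh, he⟩ := hp
    obtain ⟨h', hh', he'⟩ := gens_var i n
    refine ⟨m + 1, h * h', mul_mem hh hh', ?_⟩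
    rw [map_mul, map_mul, ← he, ← he']
    ring

theorem gens {T : ℕ} (i : Fin T → Fin 3) (f : Inv (GB T)) : ∃ m : ℕ,
    (∏ b, uI b (i b)) ^ m * f ∈ Algebra.adjoin (ZMod 2)
      ((Set.range fun p : Fin T × Fin 3 => uI p.1 p.2) ∪ (Set.range fun b => NI b (i b)) ∪
        {y | ∃ b j, j ≠ i b ∧ y = MI b (i b) j}) := by
  obtain ⟨m, h, hh, he⟩ := gens_all i (theta i f)
  refine ⟨m, ?_⟩
  rw [gens_kap_theta, ← map_pow, ← map_mul] at he
  rw [theta_injective i he]
  exact hh

end H48SM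

end S_Gens

section S_Arc

/-! # Module ARCL: arcs lift to the chart

Proof.  `R = K[[t]]` is a discrete valuation ring (a UFD, integrally closed domain).  Write `s_b = γ(u_{b,i_b}) ≠ 0`.
By hypothesis `γ(u_{b,j}) = s_b w_{b,j}`.  Let `M = γ(M_{b,i,j})`, `N_j = γ(NI b j)`, `i = i b`.  The identity in `Inv`
`M^2 + u_i u_j M + N_i u_j^2 + N_j u_i^2 = 0` (characteristic 2; check in `MvPolynomial`) gives
`M^2 + s^2 w_j M + N_i s^2 w_j^2 + N_j s^2 = 0`, so `s^2 ∣ M^2`, `s ∣ M`.  Put `z_{b,j} = M / s_b`.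
Define `α = aeval (s_b ↦ s_b, x_b ↦ γ(NI b (i b)), w_j ↦ w_{b,j}, z_j ↦ z_{b,j}` for `j ≠ i b`, dummies `↦ 0)`.  Then `γ` and
`α ∘ theta i` agree on `uI b j`, `NI b (i b)`, `MI b (i b) j` (`theta_u_piv, theta_u, theta_N, theta_M`), hence on the
`Algebra.adjoin` of GENS; for general `f`: `γ(∏ u)^m γ(f) = (α θ (∏ u))^m (α θ f)` and `γ(∏ u) ≠ 0`: cancel.
-/

set_option autoImplicit false

namespace H48SM

open MvPolynomial

/-- the quadratic equation of `M` -/
theorem arc_quad {T : ℕ} (b : Fin T) (i j : Fin 3) :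
    MI b i j ^ 2 = - ((uI b i * uI b j) * MI b i j + NI b i * uI b j ^ 2 + NI b j * uI b i ^ 2) := by
  apply Subtype.ext
  have h2 : (2 : MvPolynomial (Cx T) (ZMod 2)) = 0 := CharTwo.two_eq_zero
  simp only [MI, uI, NI, Subalgebra.coe_pow, Subalgebra.coe_neg, Subalgebra.coe_add,
    Subalgebra.coe_mul]
  linear_combination (X (b, 0, i) * X (b, 1, j) * X (b, 0, j) * X (b, 1, i) +
    X (b, 0, i) ^ 2 * X (b, 1, j) ^ 2 + X (b, 0, j) ^ 2 * X (b, 1, i) ^ 2 +
    X (b, 0, i) * X (b, 1, i) * X (b, 1, j) ^ 2 + X (b, 0, j) * X (b, 1, j) * X (b, 1, i) ^ 2) * h2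

theorem arc_dvd {T : ℕ} {K : Type} [Field K] [Algebra (ZMod 2) K] (γ : Arc (GB T) K)
    (b : Fin T) (i j : Fin 3) (hd : γ (uI b i) ∣ γ (uI b j)) :
    γ (uI b i) ∣ γ (MI b i j) := by
  obtain ⟨w, hw⟩ := hd
  have h := congrArg γ (arc_quad b i j)
  simp only [map_pow, map_neg, map_add, map_mul] at h
  have h1 : γ (uI b i) ^ 2 ∣ γ (MI b i j) ^ 2 := by
    rw [h, hw]
    refine ⟨-(w * γ (MI b i j) + γ (NI b i) * w ^ 2 + γ (NI b j)), ?_⟩
    ring
  exact (IsIntegrallyClosed.pow_dvd_pow_iff two_ne_zero).1 h1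

/-- the values of the coordinates of the chart -/
noncomputable def arc_val {T : ℕ} {K : Type} [Field K] (i : Fin T → Fin 3)
    (s x : Fin T → PowerSeries K) (w z : Fin T → Fin 3 → PowerSeries K) :
    Fin T × Cv → PowerSeries K
  | (b, Cv.s) => s b
  | (b, Cv.x) => x b
  | (b, Cv.w j) => if j = i b then 0 else w b j
  | (b, Cv.z j) => if j = i b then 0 else z b j

theorem arc_lift {T : ℕ} {K : Type} [Field K] [Algebra (ZMod 2) K] (γ : Arc (GB T) K)
    (i : Fin T → Fin 3) (h0 : ∀ b, γ (uI b (i b)) ≠ 0)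
    (hd : ∀ b j, γ (uI b (i b)) ∣ γ (uI b j)) :
    ∃ α : P T →ₐ[ZMod 2] PowerSeries K, (∀ f, γ f = α (theta i f)) ∧
      ∀ b, α (X (b, Cv.w (i b))) = 0 ∧ α (X (b, Cv.z (i b))) = 0 := by
  have hM : ∀ b j, γ (uI b (i b)) ∣ γ (MI b (i b) j) := fun b j => arc_dvd γ b (i b) j (hd b j)
  choose w hw using hd
  choose z hz using hM
  set α : P T →ₐ[ZMod 2] PowerSeries K :=
    aeval (arc_val i (fun b => γ (uI b (i b))) (fun b => γ (NI b (i b))) w z) with hα
  have αs : ∀ b, α (X (b, Cv.s)) = γ (uI b (i b)) := fun b => by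
    rw [hα, aeval_X]; rfl
  have αx : ∀ b, α (X (b, Cv.x)) = γ (NI b (i b)) := fun b => by
    rw [hα, aeval_X]; rfl
  have αw : ∀ b j, j ≠ i b → α (X (b, Cv.w j)) = w b j := fun b j hj => by
    rw [hα, aeval_X]
    exact if_neg hj
  have αz : ∀ b j, j ≠ i b → α (X (b, Cv.z j)) = z b j := fun b j hj => by
    rw [hα, aeval_X]
    exact if_neg hj
  have hu : ∀ b j, γ (uI b j) = α (theta i (uI b j)) := by
    intro b j
    by_cases hj : j = i b
    · subst hj
      rw [theta_u_piv, αs]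
    · rw [theta_u i b j hj, map_mul, αs, αw b j hj, hw b j]
  have hle : Algebra.adjoin (ZMod 2)
      ((Set.range fun p : Fin T × Fin 3 => uI p.1 p.2) ∪ (Set.range fun b => NI b (i b)) ∪
        {y | ∃ b j, j ≠ i b ∧ y = MI b (i b) j}) ≤
      AlgHom.equalizer γ (α.comp (theta i)) := by
    refine Algebra.adjoin_le ?_
    rintro y ((⟨p, rfl⟩ | ⟨b, rfl⟩) | ⟨b, j, hj, rfl⟩)
    · exact hu p.1 p.2
    · show γ (NI b (i b)) = α (theta i (NI b (i b)))
      rw [theta_N, αx]
    · show γ (MI b (i b) j) = α (theta i (MI b (i b) j))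
      rw [theta_M i b j hj, map_mul, αs, αz b j hj, hz b j]
  refine ⟨α, fun f => ?_, fun b => ⟨?_, ?_⟩⟩
  · obtain ⟨m, hm⟩ := gens i f
    have h1 : γ ((∏ b, uI b (i b)) ^ m * f) = α (theta i ((∏ b, uI b (i b)) ^ m * f)) := hle hm
    have h2 : γ (∏ b, uI b (i b)) = α (theta i (∏ b, uI b (i b))) := by
      rw [map_prod, map_prod, map_prod]
      exact Finset.prod_congr rfl fun b _ => hu b (i b)
    have h3 : γ (∏ b, uI b (i b)) ≠ 0 := by
      rw [map_prod]
      exact Finset.prod_ne_zero_iff.2 fun b _ => h0 b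
    rw [map_mul, map_pow, map_mul, map_mul, map_pow, map_pow, ← h2] at h1
    exact mul_left_cancel₀ (pow_ne_zero m h3) h1
  · rw [hα, aeval_X]
    exact if_pos rfl
  · rw [hα, aeval_X]
    exact if_pos rfl

end H48SM

end S_Arc
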