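import Mathlib
import Pool.Agent.H48.SL.M1

set_option autoImplicit false

/-! Stringy motives of linear quotients, part M4: this file joins several modules to save build time. -/

section S_Pie

/-! # Module PIE: `psi` is an immersion

Proof.  Write `R = MvPolynomial (Inv (GB T) × Fin (n+1)) (ZMod 2)`, `D = DR e i n h`, `ψ = psi e i n h`.
Values: `ψ (X (f,l)) = coeff l (UU (theta i f))`.  In particular (`theta_u_piv`, `theta_N`) `ψ (X (uI b (i b), l)) = dat (b,s) l`,
`ψ (X (NI b (i b), l)) = dat (b,x) l` for `l ≤ n`, and for `j ≠ i b` (`theta_u`, `theta_M`, `PowerSeries.coeff_mul`)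
`ψ (X (uI b j, l)) = ∑_{a+a'=l} dat (b,s) a * dat (b,w j) a'`, `ψ (X (MI b (i b) j, l)) = ∑ dat (b,s) a * dat (b,z j) a'`;
`dat (b,s) a = 0` for `a < e b`.  Let `f₀ = ∏ b, X (uI b (i b), e b)`: `ψ f₀ = algebraMap (lead)` is a unit.  Let
`Q = {p | ∃ g m, p * ψ f₀ ^ m = ψ g}`: a subring of `D` containing the range of `ψ` and the inverse of `ψ f₀`, hence the
inverses of all `dat (b,s) (e b)`.  It contains `dat (b,s) l`, `dat (b,x) l`; and `dat (b,w j) l` by strong induction on
`l` (`l + e b ≤ n`): `dat (b,s) (e b) * dat (b,w j) l = ψ (X (uI b j, e b + l)) - ∑_{a > e b} dat (b,s) a * dat (b,w j) (e b + l - a)`;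
the same for `z`.  `D` is generated by the `dat` (images of the variables) and the inverse of `lead`:
every element of `D` is `algebraMap g / lead^m` (`IsLocalization.Away.surj` or `IsLocalization.mk'_surjective`) and `g` is in the
subalgebra generated by variables (`MvPolynomial.induction_on`).
-/

set_option autoImplicit false

namespace H48SM

open MvPolynomial

section pie
variable {R D : Type} [CommRing R] [CommRing D] (ψ : R →+* D) (f₀ : R)

/-- fractions -/
def PieS (p : D) : Prop := ∃ (g : R) (m : ℕ), p * ψ f₀ ^ m = ψ g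

variable {ψ f₀}

theorem pie_of (g : R) : PieS ψ f₀ (ψ g) := ⟨g, 0, by rw [pow_zero, mul_one]⟩

theorem pie_zero : PieS ψ f₀ 0 := ⟨0, 0, by rw [zero_mul, map_zero]⟩

theorem pie_add {p q : D} (hp : PieS ψ f₀ p) (hq : PieS ψ f₀ q) : PieS ψ f₀ (p + q) := by
  obtain ⟨g1, m1, h1⟩ := hp
  obtain ⟨g2, m2, h2⟩ := hq
  refine ⟨g1 * f₀ ^ m2 + g2 * f₀ ^ m1, m1 + m2, ?_⟩
  rw [map_add, map_mul, map_mul, map_pow, map_pow, ← h1, ← h2]
  ring

theorem pie_mul {p q : D} (hp : PieS ψ f₀ p) (hq : PieS ψ f₀ q) : PieS ψ f₀ (p * q) := by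
  obtain ⟨g1, m1, h1⟩ := hp
  obtain ⟨g2, m2, h2⟩ := hq
  refine ⟨g1 * g2, m1 + m2, ?_⟩
  rw [map_mul, ← h1, ← h2]
  ring

theorem pie_neg {p : D} (hp : PieS ψ f₀ p) : PieS ψ f₀ (-p) := by
  obtain ⟨g1, m1, h1⟩ := hp
  exact ⟨-g1, m1, by rw [map_neg, ← h1]; ring⟩

theorem pie_sum {ι : Type} (s : Finset ι) (f : ι → D) (h : ∀ x ∈ s, PieS ψ f₀ (f x)) :
    PieS ψ f₀ (∑ x ∈ s, f x) := by
  classical
  induction s using Finset.induction_on with
  | empty => rw [Finset.sum_empty]; exact pie_zero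
  | insert a s ha ih =>
    rw [Finset.sum_insert ha]
    exact pie_add (h a (Finset.mem_insert_self a s)) (ih fun x hx => h x (Finset.mem_insert_of_mem hx))

theorem pie_prod {ι : Type} (s : Finset ι) (f : ι → D) (h : ∀ x ∈ s, PieS ψ f₀ (f x)) :
    PieS ψ f₀ (∏ x ∈ s, f x) := by
  classical
  induction s using Finset.induction_on with
  | empty => rw [Finset.prod_empty]; exact ⟨1, 0, by rw [pow_zero, mul_one, map_one]⟩
  | insert a s ha ih =>
    rw [Finset.prod_insert ha]
    exact pie_mul (h a (Finset.mem_insert_self a s)) (ih fun x hx => h x (Finset.mem_insert_of_mem hx))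

theorem pie_inv {v : D} (hv : ψ f₀ * v = 1) : PieS ψ f₀ v :=
  ⟨1, 1, by rw [pow_one, map_one, mul_comm, hv]⟩

end pie

section main
variable {T : ℕ} (e : Fin T → ℕ) (i : Fin T → Fin 3) (n : ℕ) (h : ∀ b, e b ≤ n)

theorem pie_psi (f : Inv (GB T)) (l : ℕ) (hl : l < n + 1) :
    psi e i n h (X (f, ⟨l, hl⟩)) = PowerSeries.coeff l (UU e i n h (theta i f)) := by
  unfold psi
  rw [aeval_X]

theorem pie_UU (p : Fin T × Cv) : UU e i n h (X p) = PowerSeries.mk fun l => dat e i n h p l := by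
  unfold UU
  rw [aeval_X]

theorem pie_s (b : Fin T) (l : ℕ) (hl : l < n + 1) :
    psi e i n h (X (uI b (i b), ⟨l, hl⟩)) = dat e i n h (b, Cv.s) l := by
  rw [pie_psi, theta_u_piv, pie_UU, PowerSeries.coeff_mk]

theorem pie_x (b : Fin T) (l : ℕ) (hl : l < n + 1) :
    psi e i n h (X (NI b (i b), ⟨l, hl⟩)) = dat e i n h (b, Cv.x) l := by
  rw [pie_psi, theta_N, pie_UU, PowerSeries.coeff_mk]

theorem pie_conv (b : Fin T) (f : Inv (GB T)) (c : Cv)
    (hf : theta i f = X (b, Cv.s) * X (b, c)) (l : ℕ) (hl : l < n + 1) :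
    psi e i n h (X (f, ⟨l, hl⟩)) =
      ∑ a ∈ Finset.HasAntidiagonal.antidiagonal l, dat e i n h (b, Cv.s) a.1 * dat e i n h (b, c) a.2 := by
  rw [pie_psi, hf, map_mul, pie_UU, pie_UU, PowerSeries.coeff_mul]
  refine Finset.sum_congr rfl fun a _ => ?_
  rw [PowerSeries.coeff_mk, PowerSeries.coeff_mk]

/-- the element to be inverted -/
noncomputable def pieF : MvPolynomial (Inv (GB T) × Fin (n + 1)) (ZMod 2) :=
  ∏ b, X (uI b (i b), ⟨e b, Nat.lt_succ_of_le (h b)⟩)

theorem pie_dat_s (b : Fin T) : dat e i n h (b, Cv.s) (e b) =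
    algebraMap (MvPolynomial (Ax e i n) (ZMod 2)) (DR e i n h) (X (ldi e i n h b)) := by
  unfold dat
  rw [dif_pos (show allowed e i n (b, Cv.s) (e b) from (ldi e i n h b).2)]
  rfl

theorem pie_lead : algebraMap (MvPolynomial (Ax e i n) (ZMod 2)) (DR e i n h) (lead e i n h) =
    ∏ b, dat e i n h (b, Cv.s) (e b) := by
  have h1 : lead e i n h = ∏ b, X (ldi e i n h b) := rfl
  refine ((congrArg _ h1).trans (map_prod (algebraMap (MvPolynomial (Ax e i n) (ZMod 2)) (DR e i n h)) _ _)).trans ?_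
  exact Finset.prod_congr rfl fun b _ => (pie_dat_s e i n h b).symm

theorem pie_psiF : psi e i n h (pieF e i n h) =
    algebraMap (MvPolynomial (Ax e i n) (ZMod 2)) (DR e i n h) (lead e i n h) := by
  unfold pieF
  rw [map_prod, pie_lead]
  refine Finset.prod_congr rfl fun b _ => ?_
  rw [pie_s]

theorem pie_unit : IsUnit (psi e i n h (pieF e i n h)) := by
  rw [pie_psiF]
  exact IsLocalization.Away.algebraMap_isUnit _

theorem pie_S_s (b : Fin T) (l : ℕ) :
    PieS (psi e i n h).toRingHom (pieF e i n h) (dat e i n h (b, Cv.s) l) := by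
  by_cases hl : l < n + 1
  · rw [← pie_s e i n h b l hl]
    exact pie_of _
  · have h0 : dat e i n h (b, Cv.s) l = 0 := by
      unfold dat
      rw [dif_neg]
      intro h1
      exact hl (Nat.lt_succ_of_le h1.1)
    rw [h0]
    exact pie_zero

theorem pie_S_x (b : Fin T) (l : ℕ) :
    PieS (psi e i n h).toRingHom (pieF e i n h) (dat e i n h (b, Cv.x) l) := by
  by_cases hl : l < n + 1
  · rw [← pie_x e i n h b l hl]
    exact pie_of _
  · have h0 : dat e i n h (b, Cv.x) l = 0 := by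
      unfold dat
      rw [dif_neg]
      intro h1
      exact hl (Nat.lt_succ_of_le h1.1)
    rw [h0]
    exact pie_zero

theorem pie_S_inv (b : Fin T) : ∃ v, PieS (psi e i n h).toRingHom (pieF e i n h) v ∧
    dat e i n h (b, Cv.s) (e b) * v = 1 := by
  classical
  obtain ⟨w, hw⟩ := (pie_unit e i n h).exists_right_inv
  have h1 : psi e i n h (pieF e i n h) = dat e i n h (b, Cv.s) (e b) *
      ∏ b' ∈ Finset.univ.erase b, dat e i n h (b', Cv.s) (e b') := by
    rw [pie_psiF, pie_lead]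
    exact (Finset.mul_prod_erase Finset.univ (fun b' => dat e i n h (b', Cv.s) (e b'))
      (Finset.mem_univ b)).symm
  refine ⟨(∏ b' ∈ Finset.univ.erase b, dat e i n h (b', Cv.s) (e b')) * w,
    pie_mul (pie_prod _ _ fun b' _ => pie_S_s e i n h b' _) (pie_inv hw), ?_⟩
  rw [← mul_assoc, ← h1, hw]

theorem pie_S_conv (b : Fin T) (c : Cv) (f : Inv (GB T))
    (hf : theta i f = X (b, Cv.s) * X (b, c))
    (hc : ∀ l, allowed e i n (b, c) l → l + e b ≤ n) (l : ℕ) :
    PieS (psi e i n h).toRingHom (pieF e i n h) (dat e i n h (b, c) l) := by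
  induction l using Nat.strong_induction_on with
  | _ l ih =>
    by_cases hal : allowed e i n (b, c) l
    · have hl : e b + l < n + 1 := by
        have := hc l hal
        omega
      obtain ⟨v, hv, hv1⟩ := pie_S_inv e i n h b
      have h1 := pie_conv e i n h b f c hf (e b + l) hl
      have hmem : (e b, l) ∈ Finset.HasAntidiagonal.antidiagonal (e b + l) := by
        rw [Finset.HasAntidiagonal.mem_antidiagonal]
      rw [← Finset.add_sum_erase _ _ hmem] at h1
      have h2 : PieS (psi e i n h).toRingHom (pieF e i n h)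
          (∑ a ∈ (Finset.HasAntidiagonal.antidiagonal (e b + l)).erase (e b, l),
            dat e i n h (b, Cv.s) a.1 * dat e i n h (b, c) a.2) := by
        refine pie_sum _ _ fun a ha => ?_
        rw [Finset.mem_erase, Finset.HasAntidiagonal.mem_antidiagonal] at ha
        obtain ⟨ha1, ha2⟩ := ha
        rcases lt_trichotomy a.1 (e b) with h3 | h3 | h3
        · have h0 : dat e i n h (b, Cv.s) a.1 = 0 := by
            unfold dat
            rw [dif_neg]
            intro h4
            exact absurd (h4.2.1 rfl) (not_le.2 h3)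
          rw [h0, zero_mul]
          exact pie_zero
        · exact absurd (Prod.ext h3 (by omega)) ha1
        · exact pie_mul (pie_S_s e i n h b _) (ih a.2 (by omega))
      have h3 : dat e i n h (b, Cv.s) (e b) * dat e i n h (b, c) l =
          psi e i n h (X (f, ⟨e b + l, hl⟩)) + -(∑ a ∈ (Finset.HasAntidiagonal.antidiagonal (e b + l)).erase (e b, l),
            dat e i n h (b, Cv.s) a.1 * dat e i n h (b, c) a.2) := by
        rw [h1]
        ring
      have h4 : PieS (psi e i n h).toRingHom (pieF e i n h)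
          (dat e i n h (b, Cv.s) (e b) * dat e i n h (b, c) l) := by
        rw [h3]
        exact pie_add (pie_of _) (pie_neg h2)
      have h5 : dat e i n h (b, c) l = v * (dat e i n h (b, Cv.s) (e b) * dat e i n h (b, c) l) := by
        rw [← mul_assoc, mul_comm v, hv1, one_mul]
      rw [h5]
      exact pie_mul hv h4
    · have h0 : dat e i n h (b, c) l = 0 := by
        unfold dat
        rw [dif_neg hal]
      rw [h0]
      exact pie_zero

theorem pie_S_dat (b : Fin T) (c : Cv) (l : ℕ) :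
    PieS (psi e i n h).toRingHom (pieF e i n h) (dat e i n h (b, c) l) := by
  cases c with
  | s => exact pie_S_s e i n h b l
  | x => exact pie_S_x e i n h b l
  | w j =>
    by_cases hj : j = i b
    · have h0 : dat e i n h (b, Cv.w j) l = 0 := by
        unfold dat
        rw [dif_neg]
        intro h4
        exact ((h4.2.2 j).1 rfl).1 hj
      rw [h0]
      exact pie_zero
    · exact pie_S_conv e i n h b (Cv.w j) (uI b j) (theta_u i b j hj)
        (fun l hl => ((hl.2.2 j).1 rfl).2.1) l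
  | z j =>
    by_cases hj : j = i b
    · have h0 : dat e i n h (b, Cv.z j) l = 0 := by
        unfold dat
        rw [dif_neg]
        intro h4
        exact ((h4.2.2 j).2 rfl).1 hj
      rw [h0]
      exact pie_zero
    · exact pie_S_conv e i n h b (Cv.z j) (MI b (i b) j) (theta_M i b j hj)
        (fun l hl => ((hl.2.2 j).2 rfl).2) l

theorem pie_S_poly (g : MvPolynomial (Ax e i n) (ZMod 2)) :
    PieS (psi e i n h).toRingHom (pieF e i n h)
      (algebraMap (MvPolynomial (Ax e i n) (ZMod 2)) (DR e i n h) g) := by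
  induction g using MvPolynomial.induction_on with
  | C a =>
    have h1 : algebraMap (MvPolynomial (Ax e i n) (ZMod 2)) (DR e i n h) (C a) =
        (psi e i n h).toRingHom (C a) := by
      have h2 : (psi e i n h).toRingHom (C a) = algebraMap (ZMod 2) (DR e i n h) a :=
        (psi e i n h).commutes a
      rw [h2, IsScalarTower.algebraMap_apply (ZMod 2) (MvPolynomial (Ax e i n) (ZMod 2))]
      rfl
    rw [h1]
    exact pie_of _
  | add p q hp hq => rw [map_add]; exact pie_add hp hq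
  | mul_X p v hp =>
    rw [map_mul]
    refine pie_mul hp ?_
    obtain ⟨⟨⟨b, c⟩, l⟩, hv⟩ := v
    have h1 : algebraMap (MvPolynomial (Ax e i n) (ZMod 2)) (DR e i n h) (X ⟨((b, c), l), hv⟩) =
        dat e i n h (b, c) l := by
      unfold dat
      rw [dif_pos hv]
    rw [h1]
    exact pie_S_dat e i n h b c l

end main

theorem isPiece_psi {T : ℕ} (e : Fin T → ℕ) (i : Fin T → Fin 3) (n : ℕ) (h : ∀ b, e b ≤ n) :
    IsPiece (psi e i n h).toRingHom := by
  refine ⟨pieF e i n h, pie_unit e i n h, fun p => ?_⟩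
  obtain ⟨m, g, hg⟩ := IsLocalization.Away.surj (lead e i n h) p
  obtain ⟨g', m', hg'⟩ := pie_S_poly e i n h g
  refine ⟨g', m + m', ?_⟩
  have h1 : (psi e i n h).toRingHom (pieF e i n h) =
      algebraMap (MvPolynomial (Ax e i n) (ZMod 2)) (DR e i n h) (lead e i n h) :=
    pie_psiF e i n h
  rw [← hg', ← hg, pow_add, h1, mul_assoc]

end H48SM

end S_Pie

section S_Dsj

/-! # Module DSJ: the pieces are disjoint

Proof.
`psi_disj`: let `p` be the comap of a prime `𝔮` of `DR e i n h`.  For `l ≤ n`: `X (uI b j, l) ∈ p` for `l < e b` and all `j`;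
`X (uI b (i b), e b) ∉ p` (its image `dat (b,s) (e b)` is a unit: it divides `lead`); `X (uI b j, e b) ∈ p` for `j < i b` (image
`∑ dat (b,s) a * dat (b,w j) a'` with `a ≥ e b`, and `dat (b,w j) 0 = 0`).  So `p` determines first `e` (least `l` such that
some `X (uI b j, l) ∉ p`) and then `i`.
(`psi (X (f,l)) = coeff l (UU (theta i f))`; `theta_u_piv`, `theta_u`, `PowerSeries.coeff_mul`; `dat (b,s) a = 0` for `a < e b`.)
-/

set_option autoImplicit false

namespace H48SM

open MvPolynomial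

theorem dsj_dat_s {T n : ℕ} (e : Fin T → ℕ) (i : Fin T → Fin 3) (h : ∀ b, e b ≤ n) (b : Fin T)
    (a : ℕ) (ha : a < e b) : dat e i n h (b, Cv.s) a = 0 := by
  unfold dat
  rw [dif_neg]
  intro hl
  have h1 : e b ≤ a := hl.2.1 rfl
  omega

theorem dsj_dat_w {T n : ℕ} (e : Fin T → ℕ) (i : Fin T → Fin 3) (h : ∀ b, e b ≤ n) (b : Fin T)
    (j : Fin 3) (hj : j < i b) : dat e i n h (b, Cv.w j) 0 = 0 := by
  unfold dat
  rw [dif_neg]
  intro hl
  have h1 := ((hl.2.2 j).1 rfl).2.2 hj
  omega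

theorem dsj_psi {T n : ℕ} (e : Fin T → ℕ) (i : Fin T → Fin 3) (h : ∀ b, e b ≤ n)
    (f : Inv (GB T)) (l : Fin (n + 1)) :
    psi e i n h (X (f, l)) = PowerSeries.coeff (l : ℕ) (UU e i n h (theta i f)) := by
  unfold psi
  rw [aeval_X]

theorem dsj_UU {T n : ℕ} (e : Fin T → ℕ) (i : Fin T → Fin 3) (h : ∀ b, e b ≤ n)
    (p : Fin T × Cv) (l : ℕ) :
    PowerSeries.coeff l (UU e i n h (X p)) = dat e i n h p l := by
  unfold UU
  rw [aeval_X, PowerSeries.coeff_mk]

theorem dsj_low {T n : ℕ} (e : Fin T → ℕ) (i : Fin T → Fin 3) (h : ∀ b, e b ≤ n)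
    (b : Fin T) (j : Fin 3) (l : Fin (n + 1)) (hl : (l : ℕ) < e b) :
    psi e i n h (X (uI b j, l)) = 0 := by
  rw [dsj_psi]
  by_cases hj : j = i b
  · rw [hj, theta_u_piv, dsj_UU]
    exact dsj_dat_s e i h b l hl
  · rw [theta_u i b j hj, map_mul, PowerSeries.coeff_mul]
    refine Finset.sum_eq_zero fun a ha => ?_
    have h1 : a.1 + a.2 = (l : ℕ) := Finset.HasAntidiagonal.mem_antidiagonal.1 ha
    rw [dsj_UU, dsj_dat_s e i h b a.1 (by omega), zero_mul]

theorem dsj_mid {T n : ℕ} (e : Fin T → ℕ) (i : Fin T → Fin 3) (h : ∀ b, e b ≤ n)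
    (b : Fin T) (j : Fin 3) (hj : j < i b) (l : Fin (n + 1)) (hl : (l : ℕ) = e b) :
    psi e i n h (X (uI b j, l)) = 0 := by
  rw [dsj_psi, theta_u i b j (ne_of_lt hj), map_mul, PowerSeries.coeff_mul]
  refine Finset.sum_eq_zero fun a ha => ?_
  have h1 : a.1 + a.2 = (l : ℕ) := Finset.HasAntidiagonal.mem_antidiagonal.1 ha
  by_cases h2 : a.1 < e b
  · rw [dsj_UU, dsj_dat_s e i h b a.1 h2, zero_mul]
  · have h3 : a.2 = 0 := by omega
    rw [dsj_UU, dsj_UU, h3, dsj_dat_w e i h b j hj, mul_zero]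

theorem dsj_unit {T n : ℕ} (e : Fin T → ℕ) (i : Fin T → Fin 3) (h : ∀ b, e b ≤ n)
    (b : Fin T) (l : Fin (n + 1)) (hl : (l : ℕ) = e b) :
    IsUnit (psi e i n h (X (uI b (i b), l))) := by
  rw [dsj_psi, theta_u_piv, dsj_UU]
  have h1 : l = ⟨e b, Nat.lt_succ_of_le (h b)⟩ := Fin.ext hl
  have hal : allowed e i n (b, Cv.s) (l : ℕ) := by
    rw [hl]
    exact (ldi e i n h b).2
  have h2 : dat e i n h (b, Cv.s) l =
      algebraMap (MvPolynomial (Ax e i n) (ZMod 2)) (DR e i n h) (X (ldi e i n h b)) := by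
    unfold dat
    rw [dif_pos hal]
    congr 2
    apply Subtype.ext
    refine Prod.ext rfl (Fin.ext ?_)
    exact hl
  rw [h2]
  have h3 : IsUnit (algebraMap (MvPolynomial (Ax e i n) (ZMod 2)) (DR e i n h)
      (lead e i n h)) := IsLocalization.Away.algebraMap_isUnit (lead e i n h)
  have h4 : X (ldi e i n h b) ∣ lead e i n h := by
    unfold lead
    exact Finset.dvd_prod_of_mem _ (Finset.mem_univ b)
  exact isUnit_of_dvd_unit (map_dvd _ h4) h3

theorem psi_disj {T n : ℕ} (e e' : Fin T → ℕ) (i i' : Fin T → Fin 3) (h : ∀ b, e b ≤ n)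
    (h' : ∀ b, e' b ≤ n) (hne : (e, i) ≠ (e', i')) :
    Disjoint (Set.range (PrimeSpectrum.comap (psi e i n h).toRingHom))
      (Set.range (PrimeSpectrum.comap (psi e' i' n h').toRingHom)) := by
  rw [Set.disjoint_left]
  rintro p ⟨q, hq⟩ ⟨q', hq'⟩
  apply hne
  have hz : ∀ f, psi e i n h f = 0 → ¬ IsUnit (psi e' i' n h' f) := by
    intro f hf hu
    have h1 : f ∈ p.asIdeal := by
      rw [← hq]
      show psi e i n h f ∈ q.asIdeal
      rw [hf]
      exact q.asIdeal.zero_mem
    rw [← hq'] at h1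
    exact q'.2.ne_top (Ideal.eq_top_of_isUnit_mem _ h1 hu)
  have hz' : ∀ f, psi e' i' n h' f = 0 → ¬ IsUnit (psi e i n h f) := by
    intro f hf hu
    have h1 : f ∈ p.asIdeal := by
      rw [← hq']
      show psi e' i' n h' f ∈ q'.asIdeal
      rw [hf]
      exact q'.asIdeal.zero_mem
    rw [← hq] at h1
    exact q.2.ne_top (Ideal.eq_top_of_isUnit_mem _ h1 hu)
  have he : e = e' := by
    funext b
    rcases lt_trichotomy (e b) (e' b) with hlt | heq | hgt
    · exact absurd (dsj_unit e i h b ⟨e b, Nat.lt_succ_of_le (h b)⟩ rfl)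
        (hz' _ (dsj_low e' i' h' b (i b) ⟨e b, Nat.lt_succ_of_le (h b)⟩ hlt))
    · exact heq
    · exact absurd (dsj_unit e' i' h' b ⟨e' b, Nat.lt_succ_of_le (h' b)⟩ rfl)
        (hz _ (dsj_low e i h b (i' b) ⟨e' b, Nat.lt_succ_of_le (h' b)⟩ hgt))
  have hi : i = i' := by
    funext b
    have hb : e b = e' b := congrFun he b
    rcases lt_trichotomy (i b) (i' b) with hlt | heq | hgt
    · exact absurd (dsj_unit e i h b ⟨e b, Nat.lt_succ_of_le (h b)⟩ rfl)
        (hz' _ (dsj_mid e' i' h' b (i b) hlt ⟨e b, Nat.lt_succ_of_le (h b)⟩ hb))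
    · exact heq
    · exact absurd (dsj_unit e' i' h' b ⟨e' b, Nat.lt_succ_of_le (h' b)⟩ rfl)
        (hz _ (dsj_mid e i h b (i' b) hgt ⟨e' b, Nat.lt_succ_of_le (h' b)⟩ hb.symm))
  rw [he, hi]

end H48SM

end S_Dsj
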