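import Mathlib
import Pool.Agent.H48.SL.M1
import Pool.Agent.H48.SL.M2
import Pool.Agent.H48.SL.M3

set_option autoImplicit false

/-! Stringy motives of linear quotients, part M5: this file joins several modules to save build time. -/

section S_Evd

/-! # Module EVD: arcs in the chart and points of the piece

Proofs.  `jet_of_arc`: define `ev₀ : MvPolynomial (Ax e i n) →ₐ K` by `X ⟨(p,l),_⟩ ↦ coeff l (α (X p))`; `lead` goes to the product of the
leading coefficients `coeff (e b) (α (X (b,s))) ≠ 0` (`PowerSeries.order`), a unit of `K`, so it extends to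
`ev : DR →ₐ K` (`IsLocalization.Away.lift`, as an algebra hom: `IsLocalization.liftAlgHom`).  Let `β = (map ev) ∘ UU : P T →ₐ K[[t]]`
(`PowerSeries.map` / `PowerSeries.mapAlgHom`), so `coeff l (β (X p)) = coeff l (α (X p))` if `(p,l)` is allowed, `0` otherwise.  Then `trunc`
applies (`β - α`: for `s`: coefficients below `e b` of `α s_b` vanish (order), those up to `n` agree; for `w_j`, `l + e b ≤ n`: either
allowed, or `j = i b` (dummy, `α = 0`), or `j < i b` and `l = 0` (constant coefficient of `α` zero by `hw`)).  Hence for all `f`, `l ≤ n`: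
`coeff l (γ f) = coeff l (α (theta i f)) = coeff l (β (theta i f)) = ev (coeff l (UU (theta i f)))`
(`(PowerSeries.map ev) (UU g) = β g` by `algHom_ext`).  Conclude by `MvPolynomial.algHom_ext`.
`arc_of_ev`: `α = (map ev) ∘ UU`, `γ = α ∘ theta i`; the order of `α (X (b,s))` is `e b` as the coefficient `ev (dat (b,s) (e b))` is nonzero
(`dat (b,s) (e b)` divides the unit `algebraMap lead`) and the lower ones vanish.
-/

set_option autoImplicit false

namespace H48SM

open MvPolynomial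

/-- the arc of the chart defined by a point of the piece -/
noncomputable def evd_be {T : ℕ} {K : Type} [Field K] [Algebra (ZMod 2) K] (e : Fin T → ℕ)
    (i : Fin T → Fin 3) (n : ℕ) (h : ∀ b, e b ≤ n) (ev : DR e i n h →ₐ[ZMod 2] K) :
    P T →ₐ[ZMod 2] PowerSeries K :=
  (PowerSeries.mapAlgHom ev).comp (UU e i n h)

theorem evd_coeff {T : ℕ} {K : Type} [Field K] [Algebra (ZMod 2) K] (e : Fin T → ℕ)
    (i : Fin T → Fin 3) (n : ℕ) (h : ∀ b, e b ≤ n) (ev : DR e i n h →ₐ[ZMod 2] K) (g : P T)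
    (l : ℕ) : PowerSeries.coeff l (evd_be e i n h ev g) =
      ev (PowerSeries.coeff l (UU e i n h g)) := by
  unfold evd_be
  rw [AlgHom.comp_apply, PowerSeries.mapAlgHom_apply, PowerSeries.coeff_map]
  rfl

theorem evd_X {T : ℕ} {K : Type} [Field K] [Algebra (ZMod 2) K] (e : Fin T → ℕ)
    (i : Fin T → Fin 3) (n : ℕ) (h : ∀ b, e b ≤ n) (ev : DR e i n h →ₐ[ZMod 2] K)
    (p : Fin T × Cv) (l : ℕ) : PowerSeries.coeff l (evd_be e i n h ev (X p)) =
      ev (dat e i n h p l) := by
  rw [evd_coeff]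
  congr 1
  unfold UU
  rw [aeval_X, PowerSeries.coeff_mk]

theorem evd_jet {T : ℕ} {K : Type} [Field K] [Algebra (ZMod 2) K] (e : Fin T → ℕ)
    (i : Fin T → Fin 3) (n : ℕ) (h : ∀ b, e b ≤ n) (ev : DR e i n h →ₐ[ZMod 2] K)
    (γ : Arc (GB T) K)
    (hγ : ∀ f, PowerSeries.X ^ (n + 1) ∣ evd_be e i n h ev (theta i f) - γ f) :
    jet (GB T) n γ = ev.comp (psi e i n h) := by
  apply MvPolynomial.algHom_ext
  rintro ⟨f, l⟩
  have h1 : jet (GB T) n γ (X (f, l)) = PowerSeries.coeff (l : ℕ) (γ f) := by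
    unfold jet
    rw [aeval_X]
  have h2 : psi e i n h (X (f, l)) = PowerSeries.coeff (l : ℕ) (UU e i n h (theta i f)) := by
    unfold psi
    rw [aeval_X]
  rw [h1, AlgHom.comp_apply, h2, ← evd_coeff]
  have h3 := PowerSeries.X_pow_dvd_iff.1 (hγ f) (l : ℕ) l.2
  rw [map_sub, sub_eq_zero] at h3
  exact h3.symm

theorem evd_dat_s {T : ℕ} (e : Fin T → ℕ) (i : Fin T → Fin 3) (n : ℕ) (h : ∀ b, e b ≤ n)
    (b : Fin T) : dat e i n h (b, Cv.s) (e b) =
    algebraMap (MvPolynomial (Ax e i n) (ZMod 2)) (DR e i n h) (X (ldi e i n h b)) := by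
  unfold dat
  rw [dif_pos (show allowed e i n (b, Cv.s) (e b) from (ldi e i n h b).2)]
  rfl

theorem evd_ne {T : ℕ} {K : Type} [Field K] [Algebra (ZMod 2) K] (e : Fin T → ℕ)
    (i : Fin T → Fin 3) (n : ℕ) (h : ∀ b, e b ≤ n) (ev : DR e i n h →ₐ[ZMod 2] K) (b : Fin T) :
    ev (dat e i n h (b, Cv.s) (e b)) ≠ 0 := by
  have h1 : IsUnit (algebraMap (MvPolynomial (Ax e i n) (ZMod 2)) (DR e i n h) (lead e i n h)) :=
    IsLocalization.Away.algebraMap_isUnit _
  have h2 : (X (ldi e i n h b) : MvPolynomial (Ax e i n) (ZMod 2)) ∣ lead e i n h :=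
    Finset.dvd_prod_of_mem (fun b => (X (ldi e i n h b) : MvPolynomial (Ax e i n) (ZMod 2)))
      (Finset.mem_univ b)
  have h3 : IsUnit (algebraMap (MvPolynomial (Ax e i n) (ZMod 2)) (DR e i n h)
      (X (ldi e i n h b))) :=
    isUnit_of_dvd_unit (map_dvd (algebraMap (MvPolynomial (Ax e i n) (ZMod 2)) (DR e i n h)) h2) h1
  rw [evd_dat_s]
  exact (h3.map ev).ne_zero

/-- the values of the coordinates -/
noncomputable def evd_ev0 {T : ℕ} {K : Type} [Field K] [Algebra (ZMod 2) K] (e : Fin T → ℕ)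
    (i : Fin T → Fin 3) (n : ℕ) (α : P T →ₐ[ZMod 2] PowerSeries K) :
    MvPolynomial (Ax e i n) (ZMod 2) →ₐ[ZMod 2] K :=
  aeval fun v => PowerSeries.coeff (v.1.2 : ℕ) (α (X v.1.1))

theorem evd_exists {T : ℕ} {K : Type} [Field K] [Algebra (ZMod 2) K] (e : Fin T → ℕ)
    (i : Fin T → Fin 3) (n : ℕ) (h : ∀ b, e b ≤ n) (α : P T →ₐ[ZMod 2] PowerSeries K)
    (he : ∀ b, (α (X (b, Cv.s))).order = e b) :
    ∃ ev : DR e i n h →ₐ[ZMod 2] K, ∀ g,
      ev (algebraMap (MvPolynomial (Ax e i n) (ZMod 2)) (DR e i n h) g) =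
        evd_ev0 e i n α g := by
  have hl : evd_ev0 e i n α (lead e i n h) ≠ 0 := by
    have h1 : lead e i n h = ∏ b, X (ldi e i n h b) := rfl
    rw [h1, map_prod, Finset.prod_ne_zero_iff]
    intro b _
    unfold evd_ev0
    rw [aeval_X]
    exact (PowerSeries.order_eq_nat.1 (he b)).1
  have hu : ∀ y : Submonoid.powers (lead e i n h), IsUnit (evd_ev0 e i n α y) := by
    rintro ⟨y, m, rfl⟩
    show IsUnit (evd_ev0 e i n α (lead e i n h ^ m))
    rw [map_pow]
    exact (IsUnit.mk0 _ hl).pow m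
  refine ⟨IsLocalization.liftAlgHom (M := Submonoid.powers (lead e i n h)) hu, fun g => ?_⟩
  rw [IsLocalization.liftAlgHom_apply, IsLocalization.lift_eq]
  rfl

theorem jet_of_arc {T : ℕ} {K : Type} [Field K] [Algebra (ZMod 2) K] (e : Fin T → ℕ)
    (i : Fin T → Fin 3) (n : ℕ) (h : ∀ b, e b ≤ n) (hn : ∀ b, 2 * e b ≤ n)
    (α : P T →ₐ[ZMod 2] PowerSeries K) (γ : Arc (GB T) K) (hγ : ∀ f, γ f = α (theta i f))
    (he : ∀ b, (α (X (b, Cv.s))).order = e b)
    (hw : ∀ b j, j < i b → PowerSeries.constantCoeff (α (X (b, Cv.w j))) = 0)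
    (hd : ∀ b, α (X (b, Cv.w (i b))) = 0 ∧ α (X (b, Cv.z (i b))) = 0) :
    ∃ ev : DR e i n h →ₐ[ZMod 2] K, jet (GB T) n γ = ev.comp (psi e i n h) := by
  obtain ⟨ev, hev⟩ := evd_exists e i n h α he
  refine ⟨ev, ?_⟩
  have hdat : ∀ (p : Fin T × Cv) (l : ℕ), ev (dat e i n h p l) =
      if allowed e i n p l then PowerSeries.coeff l (α (X p)) else 0 := by
    intro p l
    unfold dat
    by_cases hp : allowed e i n p l
    · rw [dif_pos hp, if_pos hp, hev]
      unfold evd_ev0
      rw [aeval_X]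
    · rw [dif_neg hp, if_neg hp, map_zero]
  -- divisibility of the difference
  have key : ∀ (p : Fin T × Cv) (N : ℕ),
      (∀ l < N, ¬ allowed e i n p l → PowerSeries.coeff l (α (X p)) = 0) →
      PowerSeries.X ^ N ∣ evd_be e i n h ev (X p) - α (X p) := by
    intro p N hN
    rw [PowerSeries.X_pow_dvd_iff]
    intro l hl
    rw [map_sub, evd_X, hdat]
    by_cases hp : allowed e i n p l
    · rw [if_pos hp, sub_self]
    · rw [if_neg hp, hN l hl hp, sub_zero]
  have k1 : ∀ b, PowerSeries.X ^ (n + 1) ∣ evd_be e i n h ev (X (b, Cv.s)) - α (X (b, Cv.s)) := by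
    intro b
    refine key _ _ fun l hl hna => ?_
    by_cases hlt : l < e b
    · exact PowerSeries.coeff_of_lt_order l (by rw [he b]; exact_mod_cast hlt)
    · exact absurd ⟨Nat.lt_succ_iff.1 hl, fun _ => not_lt.1 hlt, fun j => ⟨nofun, nofun⟩⟩ hna
  have k2 : ∀ b, PowerSeries.X ^ (n + 1) ∣ evd_be e i n h ev (X (b, Cv.x)) - α (X (b, Cv.x)) := by
    intro b
    refine key _ _ fun l hl hna => ?_
    exact absurd ⟨Nat.lt_succ_iff.1 hl, nofun, fun j => ⟨nofun, nofun⟩⟩ hna
  have k3 : ∀ b j, PowerSeries.X ^ (n + 1 - e b) ∣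
      evd_be e i n h ev (X (b, Cv.w j)) - α (X (b, Cv.w j)) := by
    intro b j
    refine key _ _ fun l hl hna => ?_
    by_cases hj : j = i b
    · subst hj
      rw [(hd b).1, map_zero]
    · by_cases hj2 : j < i b ∧ l = 0
      · obtain ⟨hj3, rfl⟩ := hj2
        rw [PowerSeries.coeff_zero_eq_constantCoeff_apply]
        exact hw b j hj3
      · refine absurd ⟨by omega, nofun, fun j' => ⟨fun hj' => ?_, nofun⟩⟩ hna
        have hjj : j = j' := by
          have := hj'
          simpa using this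
        subst hjj
        refine ⟨hj, ?_, fun hlt => ?_⟩
        · show l + e b ≤ n
          omega
        · by_contra h1
          exact hj2 ⟨hlt, by omega⟩
  have k4 : ∀ b j, PowerSeries.X ^ (n + 1 - e b) ∣
      evd_be e i n h ev (X (b, Cv.z j)) - α (X (b, Cv.z j)) := by
    intro b j
    refine key _ _ fun l hl hna => ?_
    by_cases hj : j = i b
    · subst hj
      rw [(hd b).2, map_zero]
    · refine absurd ⟨by omega, nofun, fun j' => ⟨nofun, fun hj' => ?_⟩⟩ hna
      have hjj : j = j' := by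
        have := hj'
        simpa using this
      subst hjj
      refine ⟨hj, ?_⟩
      show l + e b ≤ n
      omega
  refine evd_jet e i n h ev γ fun f => ?_
  rw [hγ f]
  refine trunc i e n hn α (evd_be e i n h ev) (fun b => ?_) k1 k2 k3 k4 f
  rw [PowerSeries.X_pow_dvd_iff]
  exact (PowerSeries.order_eq_nat.1 (he b)).2

theorem arc_of_ev {T : ℕ} {K : Type} [Field K] [Algebra (ZMod 2) K] (e : Fin T → ℕ)
    (i : Fin T → Fin 3) (n : ℕ) (h : ∀ b, e b ≤ n) (ev : DR e i n h →ₐ[ZMod 2] K) :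
    ∃ (α : P T →ₐ[ZMod 2] PowerSeries K) (γ : Arc (GB T) K), (∀ f, γ f = α (theta i f)) ∧
      (∀ b, (α (X (b, Cv.s))).order = e b) ∧ jet (GB T) n γ = ev.comp (psi e i n h) := by
  refine ⟨evd_be e i n h ev, (evd_be e i n h ev).comp (theta i), fun _ => rfl, fun b => ?_, ?_⟩
  · rw [PowerSeries.order_eq_nat]
    refine ⟨?_, fun l hl => ?_⟩
    · rw [evd_X]
      exact evd_ne e i n h ev b
    · rw [evd_X]
      have h0 : dat e i n h (b, Cv.s) l = 0 := by
        unfold dat
        rw [dif_neg]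
        intro h4
        exact absurd (h4.2.1 rfl) (not_le.2 hl)
      rw [h0, map_zero]
  · refine evd_jet e i n h ev _ fun f => ?_
    rw [AlgHom.comp_apply, sub_self]
    exact dvd_zero _

end H48SM

end S_Evd

section S_Jse

/-! # Module JSE: the jet sets -/

set_option autoImplicit false

namespace H48SM

open MvPolynomial

/-- the pivot of three power series, not all zero -/
theorem jse_pivot {K : Type} [Field K] (f : Fin 3 → PowerSeries K) (h : ∃ j, f j ≠ 0) :
    ∃ (i : Fin 3) (e : ℕ), (f i).order = e ∧ f i ≠ 0 ∧ (∀ j, f i ∣ f j) ∧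
      ∀ j < i, (e : ℕ∞) < (f j).order := by
  classical
  have hne : (Finset.univ : Finset (Fin 3)).Nonempty := Finset.univ_nonempty
  obtain ⟨i₀, -, hi₀⟩ := Finset.exists_min_image Finset.univ (fun j => (f j).order) hne
  set S : Finset (Fin 3) := Finset.univ.filter fun j => (f j).order ≤ (f i₀).order with hS
  have hSne : S.Nonempty := ⟨i₀, by rw [hS, Finset.mem_filter]; exact ⟨Finset.mem_univ _, le_rfl⟩⟩
  set i := S.min' hSne with hi
  have hiS : i ∈ S := Finset.min'_mem S hSne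
  have hio : (f i).order ≤ (f i₀).order := (Finset.mem_filter.mp hiS).2
  have hmin : ∀ j, (f i).order ≤ (f j).order := fun j => hio.trans (hi₀ j (Finset.mem_univ j))
  have hi0 : f i ≠ 0 := by
    obtain ⟨j, hj⟩ := h
    intro h0
    have := hmin j
    rw [h0, PowerSeries.order_zero, top_le_iff, PowerSeries.order_eq_top] at this
    exact hj this
  have hfin : (f i).order ≠ ⊤ := by
    intro h0
    exact hi0 (PowerSeries.order_eq_top.mp h0)
  refine ⟨i, (f i).order.toNat, (ENat.natCast_toNat hfin).symm, hi0, ?_, ?_⟩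
  · intro j
    have h1 : PowerSeries.X ^ (f i).order.toNat ∣ f j := by
      rw [PowerSeries.X_pow_dvd_iff]
      intro m hm
      apply PowerSeries.coeff_of_lt_order
      refine lt_of_lt_of_le ?_ (hmin j)
      rw [← ENat.natCast_toNat hfin]
      exact_mod_cast hm
    have h2 : f i ∣ PowerSeries.X ^ (f i).order.toNat := by
      have hu := PowerSeries.isUnit_divided_by_X_pow_order hi0
      have h3 : PowerSeries.X ^ (f i).order.toNat * (f i).divXPowOrder = f i :=
        PowerSeries.X_pow_order_mul_divXPowOrder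
      have h4 := (hu.mul_right_dvd (a := PowerSeries.X ^ (f i).order.toNat)
        (b := PowerSeries.X ^ (f i).order.toNat)).mpr dvd_rfl
      rwa [h3] at h4
    exact h2.trans h1
  · intro j hj
    rw [ENat.natCast_toNat hfin]
    refine lt_of_le_of_ne (hmin j) ?_
    intro heq
    have hjS : j ∈ S := by
      rw [hS, Finset.mem_filter]
      exact ⟨Finset.mem_univ _, heq ▸ hio⟩
    exact absurd (Finset.min'_le S j hjS) (not_le.mpr hj)

/-- the pivots and the lift of an arc with finite order function -/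
theorem jse_lift {T : ℕ} {K : Type} [Field K] [Algebra (ZMod 2) K] (γ : Arc (GB T) K)
    (hγ : ordF (GB T) γ ≠ ⊤) :
    ∃ (e : Fin T → ℕ) (i : Fin T → Fin 3) (α : P T →ₐ[ZMod 2] PowerSeries K),
      (∀ f, γ f = α (theta i f)) ∧ (∀ b, (α (X (b, Cv.s))).order = e b) ∧
      (∀ b j, j < i b → PowerSeries.constantCoeff (α (X (b, Cv.w j))) = 0) ∧
      (∀ b, α (X (b, Cv.w (i b))) = 0 ∧ α (X (b, Cv.z (i b))) = 0) ∧
      ordF (GB T) γ = ((3 * rr T * ∑ b, e b : ℕ) : ℕ∞) := by
  have hne : ∀ b, ∃ j, γ (uI b j) ≠ 0 := by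
    intro b
    by_contra hcon
    push Not at hcon
    exact hγ (ordF_top γ b hcon)
  choose i e he hi0 hd hlt using fun b => jse_pivot (fun j => γ (uI b j)) (hne b)
  obtain ⟨α, hα, hdum⟩ := arc_lift γ i hi0 hd
  have hs : ∀ b, α (X (b, Cv.s)) = γ (uI b (i b)) := by
    intro b
    rw [hα, theta_u_piv]
  have hord : ∀ b, (α (X (b, Cv.s))).order = e b := by
    intro b
    rw [hs]
    exact he b
  refine ⟨e, i, α, hα, hord, ?_, hdum, ordF_chart i α γ hα e hord⟩
  intro b j hj
  have h1 : γ (uI b j) = α (X (b, Cv.s)) * α (X (b, Cv.w j)) := by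
    rw [hα, theta_u i b j hj.ne, map_mul]
  have h2 := hlt b j hj
  rw [h1, PowerSeries.order_mul, hord] at h2
  by_contra h3
  have h4 : (α (X (b, Cv.w j))).order = ((0 : ℕ) : ℕ∞) :=
    PowerSeries.order_eq_nat.mpr ⟨by
      rw [PowerSeries.coeff_zero_eq_constantCoeff_apply]
      exact h3, fun i hi => absurd hi (Nat.not_lt_zero i)⟩
  rw [h4, Nat.cast_zero, add_zero] at h2
  exact lt_irrefl _ h2

theorem mem_jetSet {T E n : ℕ} (hn : 2 * E ≤ n)
    (p : PrimeSpectrum (MvPolynomial (Inv (GB T) × Fin (n + 1)) (ZMod 2))) :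
    p ∈ jetSet (GB T) n (3 * rr T * E) ↔ ∃ (e : Fin T → ℕ) (i : Fin T → Fin 3)
      (h : ∀ b, e b ≤ n), ∑ b, e b = E ∧
      p ∈ Set.range (PrimeSpectrum.comap (psi e i n h).toRingHom) := by
  constructor
  · rintro ⟨K, _, _, γ, hγ, hp⟩
    have hfin : ordF (GB T) γ ≠ ⊤ := by
      rw [hγ]
      exact ENat.natCast_ne_top _
    obtain ⟨e, i, α, hα, he, hw, hdum, hF⟩ := jse_lift γ hfin
    have hsum : ∑ b, e b = E := by
      rw [hγ] at hF
      have h1 : 3 * rr T * E = 3 * rr T * ∑ b, e b := by exact_mod_cast hF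
      have h2 : 0 < 3 * rr T := by
        have : 0 < rr T := Nat.card_pos
        omega
      exact (Nat.eq_of_mul_eq_mul_left h2 h1).symm
    have hle : ∀ b, e b ≤ E := by
      intro b
      rw [← hsum]
      exact Finset.single_le_sum (fun _ _ => Nat.zero_le _) (Finset.mem_univ b)
    have h : ∀ b, e b ≤ n := fun b => by
      have := hle b
      omega
    obtain ⟨ev, hev⟩ := jet_of_arc e i n h (fun b => by have := hle b; omega) α γ hα he hw hdum
    refine ⟨e, i, h, hsum, ?_⟩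
    have hprime : (RingHom.ker ev.toRingHom).IsPrime := RingHom.ker_isPrime _
    refine ⟨⟨RingHom.ker ev.toRingHom, hprime⟩, ?_⟩
    apply PrimeSpectrum.ext
    rw [PrimeSpectrum.comap_asIdeal, hp]
    ext x
    rw [Ideal.mem_comap, RingHom.mem_ker, RingHom.mem_ker]
    have : (jet (GB T) n γ) x = ev ((psi e i n h) x) := DFunLike.congr_fun hev x
    change ev ((psi e i n h) x) = 0 ↔ jet (GB T) n γ x = 0
    rw [this]
  · rintro ⟨e, i, h, hsum, q, rfl⟩
    set ev : DR e i n h →ₐ[ZMod 2] q.asIdeal.ResidueField :=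
      IsScalarTower.toAlgHom (ZMod 2) (DR e i n h) q.asIdeal.ResidueField with hev
    obtain ⟨α, γ, hα, he, hjet⟩ := arc_of_ev e i n h ev
    refine ⟨q.asIdeal.ResidueField, inferInstance, inferInstance, γ, ?_, ?_⟩
    · rw [ordF_chart i α γ hα e he, hsum]
    · rw [PrimeSpectrum.comap_asIdeal]
      ext x
      rw [Ideal.mem_comap, RingHom.mem_ker, hjet]
      have hk := Ideal.ker_algebraMap_residueField q.asIdeal
      conv_lhs => rw [← hk]
      rw [RingHom.mem_ker]
      rfl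

theorem jetSet_empty {T n e : ℕ} (h : ¬ 3 * rr T ∣ e) : jetSet (GB T) n e = ∅ := by
  rw [Set.eq_empty_iff_forall_notMem]
  rintro p ⟨K, _, _, γ, hγ, hp⟩
  have hfin : ordF (GB T) γ ≠ ⊤ := by
    rw [hγ]
    exact ENat.natCast_ne_top _
  obtain ⟨e', i, α, hα, he, hw, hdum, hF⟩ := jse_lift γ hfin
  rw [hγ] at hF
  apply h
  refine ⟨∑ b, e' b, ?_⟩
  exact_mod_cast hF

end H48SM

end S_Jse
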