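import Mathlib
import Pool.Agent.H48.SL.M1

set_option autoImplicit false

/-! Stringy motives of linear quotients, part M6: this file joins several modules to save build time. -/

section S_Clp

/-! # Module CLP: basic relations

Proofs.  Basic relations (from `RingQuot.mkRingHom_rel`): `cls_iso`, `cls_prod`, `cls_pt`, `cls_scissor`, `qq * qqi = 1`, `qq ^ r = cls line`.
`qpow_add`, `qpow_r`: the integers add up using `qq * qqi = 1` (`qpow j = ((unit) ^ j)`).
-/

set_option autoImplicit false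

namespace H48SM

open MvPolynomial

section
variable {k : Type} [Field k] {r : ℕ} {β : Prop}

theorem cls_iso (X Y : Aff k) (e : X.A ≃ₐ[k] Y.A) : (cls r X : Mot k r β) = cls r Y :=
  RingQuot.mkRingHom_rel (Rel.iso X Y e)

theorem cls_prod (X Y : Aff k) : (cls r (X.prod Y) : Mot k r β) = cls r X * cls r Y :=
  (RingQuot.mkRingHom_rel (Rel.prod X Y)).trans (map_mul (RingQuot.mkRingHom (Rel k r β)) _ _)

theorem cls_pt : (cls r (Aff.pt k) : Mot k r β) = 1 :=
  (RingQuot.mkRingHom_rel Rel.pt).trans (map_one (RingQuot.mkRingHom (Rel k r β)))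

theorem cls_scissor (X : Aff k) (f : X.A) :
    (cls r X : Mot k r β) = cls r (X.closed f) + cls r (X.opn f) :=
  (RingQuot.mkRingHom_rel (Rel.scissor X f)).trans (map_add (RingQuot.mkRingHom (Rel k r β)) _ _)

theorem clp_qq_mul : (qq k r : Mot k r β) * qqi k r = 1 :=
  (map_mul (RingQuot.mkRingHom (Rel k r β)) _ _).symm.trans
    ((RingQuot.mkRingHom_rel Rel.inv).trans (map_one (RingQuot.mkRingHom (Rel k r β))))

theorem clp_qq_pow : (qq k r : Mot k r β) ^ r = cls r (Aff.line k) :=
  (map_pow (RingQuot.mkRingHom (Rel k r β)) _ r).symm.trans (RingQuot.mkRingHom_rel Rel.root)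

/-- `q` as a unit -/
noncomputable def clpUnit (k : Type) [Field k] (r : ℕ) (β : Prop) : (Mot k r β)ˣ :=
  ⟨qq k r, qqi k r, clp_qq_mul, (mul_comm _ _).trans clp_qq_mul⟩

theorem clp_qpow (j : ℤ) : (qpow k r j : Mot k r β) = ((clpUnit k r β ^ j : (Mot k r β)ˣ) : Mot k r β) := by
  unfold qpow
  rcases Int.eq_nat_or_neg j with ⟨n, rfl | rfl⟩
  · have h1 : ((-(n : ℤ)).toNat) = 0 := by omega
    rw [h1, Int.toNat_natCast, pow_zero, mul_one, zpow_natCast, Units.val_pow_eq_pow_val]
    rfl
  · have h1 : ((-(n : ℤ)).toNat) = 0 := by omega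
    rw [neg_neg, h1, Int.toNat_natCast, pow_zero, one_mul, zpow_neg, zpow_natCast, ← inv_pow,
      Units.val_pow_eq_pow_val]
    rfl

theorem qpow_zero : (qpow k r 0 : Mot k r β) = 1 := by
  rw [clp_qpow, zpow_zero, Units.val_one]

theorem qpow_add (a b : ℤ) : (qpow k r (a + b) : Mot k r β) = qpow k r a * qpow k r b := by
  rw [clp_qpow, clp_qpow, clp_qpow, zpow_add, Units.val_mul]

theorem qpow_r : (qpow k r r : Mot k r β) = cls r (Aff.line k) := by
  rw [← clp_qq_pow, clp_qpow, zpow_natCast, Units.val_pow_eq_pow_val]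
  rfl

end

end H48SM

end S_Clp

section S_Clq

/-! # Module CLQ: class of affine space

Proof.  `cls_poly`: induction on the cardinality: `MvPolynomial (Option σ) k ≃ Polynomial (MvPolynomial σ k) ≃ MvPolynomial σ k ⊗ k[X]`
(`MvPolynomial.optionEquivLeft`, `polyEquivTensor`), `MvPolynomial` on an empty type is `k`; rename along equivalences.
-/

set_option autoImplicit false

namespace H48SM

open MvPolynomial

section
variable {k : Type} [Field k] {r : ℕ} {β : Prop}

theorem clq_card (σ : Type) [Finite σ] :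
    (cls r (Aff.poly k σ) : Mot k r β) = qpow k r (r * (Nat.card σ : ℤ)) := by
  have key : ∀ [Finite σ], (cls r (Aff.poly k σ) : Mot k r β) = qpow k r (r * (Nat.card σ : ℤ)) := by
    refine Finite.induction_empty_option
      (P := fun σ : Type => ∀ [Finite σ], (cls r (Aff.poly k σ) : Mot k r β) =
        qpow k r (r * (Nat.card σ : ℤ))) ?_ ?_ ?_ σ
    · intro α γ e h _
      have : Finite α := Finite.of_equiv γ e.symm
      rw [← Nat.card_congr e, ← h]
      exact cls_iso (Aff.poly k γ) (Aff.poly k α) (MvPolynomial.renameEquiv k e.symm)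
    · intro _
      rw [Nat.card_of_isEmpty, Nat.cast_zero, mul_zero, qpow_zero, ← cls_pt]
      exact cls_iso (Aff.poly k PEmpty) (Aff.pt k) (MvPolynomial.isEmptyAlgEquiv k PEmpty)
    · intro α _ h _
      have h1 : (cls r (Aff.poly k (Option α)) : Mot k r β) =
          cls r ((Aff.poly k α).prod (Aff.line k)) :=
        cls_iso (Aff.poly k (Option α)) ((Aff.poly k α).prod (Aff.line k))
          ((MvPolynomial.optionEquivLeft k α).trans (polyEquivTensor k (MvPolynomial α k)))
      rw [h1, cls_prod, h, ← qpow_r, ← qpow_add]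
      congr 1
      rw [Finite.card_option]
      push_cast
      ring
  exact key

theorem cls_poly (σ : Type) [Fintype σ] :
    (cls r (Aff.poly k σ) : Mot k r β) = qpow k r (r * Fintype.card σ) := by
  rw [clq_card, Nat.card_eq_fintype_card]

end

end H48SM

end S_Clq

section S_Clo

/-! # Module CLO: class of affine space minus coordinate hyperplanes -/

set_option autoImplicit false

namespace H48SM

open MvPolynomial

section
variable {k : Type} [Field k] {A B : Type} [CommRing A] [Algebra k A] [CommRing B] [Algebra k B]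

/-- lift of an algebra homomorphism to the localisation -/
noncomputable def cloLift (g : A) (f : A →ₐ[k] B) (h : IsUnit (f g)) :
    Localization.Away g →ₐ[k] B :=
  IsLocalization.liftAlgHom (M := Submonoid.powers g) (f := f) (by
    rintro ⟨_, n, rfl⟩
    simpa using h.pow n)

theorem cloLift_algebraMap (g : A) (f : A →ₐ[k] B) (h : IsUnit (f g)) (a : A) :
    cloLift g f h (algebraMap A (Localization.Away g) a) = f a := by
  unfold cloLift
  rw [IsLocalization.liftAlgHom_apply, IsLocalization.lift_eq]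
  rfl

theorem clo_ext (g : A) {f f' : Localization.Away g →ₐ[k] B}
    (h : ∀ a, f (algebraMap A (Localization.Away g) a) = f' (algebraMap A (Localization.Away g) a)) :
    f = f' := by
  apply IsLocalization.algHom_ext (Submonoid.powers g)
  ext a
  exact h a

/-- the structure map of the localisation -/
noncomputable def cloMk (k : Type) [Field k] {A : Type} [CommRing A] [Algebra k A] (g : A) :
    A →ₐ[k] Localization.Away g :=
  Algebra.algHom k A (Localization.Away g)

theorem cloMk_apply (g a : A) : cloMk k g a = algebraMap A (Localization.Away g) a := rfl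

theorem cloMk_isUnit (g : A) : IsUnit (cloMk k g g) :=
  IsLocalization.Away.algebraMap_isUnit g

theorem clo_one_equiv : Nonempty (Localization.Away (1 : A) ≃ₐ[k] A) := by
  have h1 : IsUnit (AlgHom.id k A 1) := isUnit_one
  refine ⟨AlgEquiv.ofAlgHom (cloLift (1 : A) (AlgHom.id k A) h1) (cloMk k (1 : A)) ?_ ?_⟩
  · ext a
    rw [AlgHom.comp_apply, cloMk_apply, cloLift_algebraMap]
  · apply clo_ext
    intro a
    rw [AlgHom.comp_apply, cloLift_algebraMap]
    rfl

theorem clo_mul_equiv (f g : A) :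
    Nonempty (Localization.Away (algebraMap A (Localization.Away g) f) ≃ₐ[k]
      Localization.Away (g * f)) := by
  have hg : IsUnit (cloMk k (g * f) g) :=
    isUnit_of_mul_isUnit_left (y := cloMk k (g * f) f) (by
      rw [← map_mul]
      exact cloMk_isUnit _)
  have hf : IsUnit (cloMk k (g * f) f) :=
    isUnit_of_mul_isUnit_right (x := cloMk k (g * f) g) (by
      rw [← map_mul]
      exact cloMk_isUnit _)
  have hf' : IsUnit (cloLift g (cloMk k (g * f)) hg (algebraMap A (Localization.Away g) f)) := by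
    rw [cloLift_algebraMap]
    exact hf
  set F : A →ₐ[k] Localization.Away (algebraMap A (Localization.Away g) f) :=
    (cloMk k (algebraMap A (Localization.Away g) f)).comp (cloMk k g) with hF
  have hgf : IsUnit (F (g * f)) := by
    rw [map_mul]
    refine IsUnit.mul ?_ ?_
    · have h1 : IsUnit (cloMk k g g) := cloMk_isUnit g
      have h2 := h1.map (cloMk k (algebraMap A (Localization.Away g) f) :
        Localization.Away g →ₐ[k] Localization.Away (algebraMap A (Localization.Away g) f))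
      exact h2
    · exact cloMk_isUnit (k := k) (algebraMap A (Localization.Away g) f)
  refine ⟨AlgEquiv.ofAlgHom (cloLift _ (cloLift g (cloMk k (g * f)) hg) hf') (cloLift _ F hgf)
    ?_ ?_⟩
  · apply clo_ext
    intro a
    rw [AlgHom.comp_apply, cloLift_algebraMap, hF, AlgHom.comp_apply, cloMk_apply, cloMk_apply,
      cloLift_algebraMap, cloLift_algebraMap]
    rfl
  · apply clo_ext
    intro a
    have : (cloLift _ F hgf).comp (cloLift g (cloMk k (g * f)) hg) =
        cloMk k (algebraMap A (Localization.Away g) f) := by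
      apply clo_ext
      intro a
      rw [AlgHom.comp_apply, cloLift_algebraMap, cloMk_apply, cloLift_algebraMap]
      rfl
    rw [AlgHom.comp_apply, cloLift_algebraMap]
    exact DFunLike.congr_fun this a

end

section
variable {k : Type} [Field k] {r : ℕ} {β : Prop}

theorem clo_closed_equiv (σ : Type) [Fintype σ] [DecidableEq σ] (S : Finset σ) (c₀ : σ)
    (hc : c₀ ∉ S) :
    Nonempty ((Localization.Away (∏ c ∈ S, (X c : MvPolynomial σ k)) ⧸
      Ideal.span {algebraMap (MvPolynomial σ k) (Localization.Away (∏ c ∈ S,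
        (X c : MvPolynomial σ k))) (X c₀)}) ≃ₐ[k]
      Localization.Away (∏ c ∈ S.subtype (fun c => c ≠ c₀),
        (X c : MvPolynomial {c // c ≠ c₀} k))) := by
  set g : MvPolynomial σ k := ∏ c ∈ S, (X c : MvPolynomial σ k) with hg
  set g' : MvPolynomial {c // c ≠ c₀} k := ∏ c ∈ S.subtype (fun c => c ≠ c₀),
        (X c : MvPolynomial {c // c ≠ c₀} k) with hg'
  set κ : MvPolynomial σ k →ₐ[k] MvPolynomial {c // c ≠ c₀} k :=
    aeval fun c => if h : c ≠ c₀ then X ⟨c, h⟩ else 0 with hκ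
  set ρ : MvPolynomial {c // c ≠ c₀} k →ₐ[k] MvPolynomial σ k := rename Subtype.val with hρ
  have h1 : ρ g' = g := by
    rw [hg', map_prod, hg]
    simp only [hρ, rename_X]
    rw [← Finset.prod_subtype_map_embedding (s := S.subtype (fun c => c ≠ c₀))
      (f := fun c => (X c.1 : MvPolynomial σ k)) (g := fun c => (X c : MvPolynomial σ k))
      (by intro x _; rfl)]
    rw [Finset.subtype_map, Finset.filter_true_of_mem]
    intro x hx hxc
    rw [hxc] at hx
    exact hc hx
  have h3 : κ.comp ρ = AlgHom.id k _ := by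
    apply MvPolynomial.algHom_ext
    rintro ⟨c, hc'⟩
    rw [AlgHom.comp_apply, hρ, rename_X, hκ, aeval_X, dif_pos hc']
    rfl
  have h2 : κ g = g' := by
    rw [← h1, ← AlgHom.comp_apply, h3]
    rfl
  set I : Ideal (Localization.Away g) :=
    Ideal.span {algebraMap (MvPolynomial σ k) (Localization.Away g) (X c₀)} with hI
  set m : Localization.Away g →ₐ[k] Localization.Away g ⧸ I := Ideal.Quotient.mkₐ k I with hm
  have hu1 : IsUnit ((cloMk k g').comp κ g) := by
    rw [AlgHom.comp_apply, h2]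
    exact cloMk_isUnit g'
  have hu2 : IsUnit (((m.comp (cloMk k g)).comp ρ) g') := by
    rw [AlgHom.comp_apply, h1, AlgHom.comp_apply]
    exact (cloMk_isUnit (k := k) g).map m
  have hκ0 : κ (X c₀) = 0 := by
    rw [hκ, aeval_X, dif_neg (by simp)]
  have h3a : ∀ a, κ (ρ a) = a := fun a => DFunLike.congr_fun h3 a
  have hker : ∀ a ∈ I, cloLift g ((cloMk k g').comp κ) hu1 a = 0 := by
    intro a ha
    rw [hI] at ha
    obtain ⟨y, rfl⟩ := Ideal.mem_span_singleton'.mp ha
    rw [map_mul, cloLift_algebraMap, AlgHom.comp_apply, hκ0, map_zero, mul_zero]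
  refine ⟨AlgEquiv.ofAlgHom (Ideal.Quotient.liftₐ I (cloLift g ((cloMk k g').comp κ) hu1) hker)
    (cloLift g' ((m.comp (cloMk k g)).comp ρ) hu2) ?_ ?_⟩
  · apply clo_ext
    intro a
    rw [AlgHom.comp_apply, cloLift_algebraMap, AlgHom.comp_apply, AlgHom.comp_apply, cloMk_apply]
    have : Ideal.Quotient.liftₐ I (cloLift g ((cloMk k g').comp κ) hu1) hker
        (m (algebraMap (MvPolynomial σ k) (Localization.Away g) (ρ a))) =
        cloLift g ((cloMk k g').comp κ) hu1
          (algebraMap (MvPolynomial σ k) (Localization.Away g) (ρ a)) := rfl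
    rw [this, cloLift_algebraMap, AlgHom.comp_apply, h3a]
    rfl
  · apply Ideal.Quotient.algHom_ext
    apply clo_ext
    intro a
    rw [AlgHom.comp_apply, AlgHom.comp_apply, AlgHom.comp_apply]
    have : Ideal.Quotient.liftₐ I (cloLift g ((cloMk k g').comp κ) hu1) hker
        (Ideal.Quotient.mkₐ k I (algebraMap (MvPolynomial σ k) (Localization.Away g) a)) =
        cloLift g ((cloMk k g').comp κ) hu1
          (algebraMap (MvPolynomial σ k) (Localization.Away g) a) := rfl
    rw [this, cloLift_algebraMap, AlgHom.comp_apply, cloMk_apply, cloLift_algebraMap]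
    have key : ((m.comp (cloMk k g)).comp ρ).comp κ = m.comp (cloMk k g) := by
      apply MvPolynomial.algHom_ext
      intro c
      rw [AlgHom.comp_apply, hκ, aeval_X]
      by_cases h : c ≠ c₀
      · rw [dif_pos h, AlgHom.comp_apply, hρ, rename_X]
      · rw [dif_neg h, map_zero]
        rw [not_not] at h
        subst h
        symm
        rw [AlgHom.comp_apply, hm]
        exact Ideal.Quotient.eq_zero_iff_mem.mpr (Ideal.subset_span rfl)
    exact DFunLike.congr_fun key a

theorem cls_opn_prod (σ : Type) [Fintype σ] [DecidableEq σ] (S : Finset σ) :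
    (cls r ((Aff.poly k σ).opn (∏ c ∈ S, (X c : MvPolynomial σ k))) : Mot k r β) =
      (qpow k r r - 1) ^ S.card * qpow k r (r * ((Fintype.card σ : ℤ) - S.card)) := by
  induction hm : S.card generalizing σ with
  | zero =>
    rw [Finset.card_eq_zero] at hm
    subst hm
    have h0 : (cls r ((Aff.poly k σ).opn (∏ c ∈ (∅ : Finset σ), (X c : MvPolynomial σ k))) :
        Mot k r β) = cls r ((Aff.poly k σ).opn (1 : MvPolynomial σ k)) :=
      congrArg (fun g : MvPolynomial σ k => (cls r ((Aff.poly k σ).opn g) : Mot k r β))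
        Finset.prod_empty
    obtain ⟨e⟩ := clo_one_equiv (k := k) (A := MvPolynomial σ k)
    have : (cls r ((Aff.poly k σ).opn (1 : MvPolynomial σ k)) : Mot k r β) =
        cls r (Aff.poly k σ) := cls_iso _ _ e
    rw [h0, this, cls_poly]
    simp
  | succ m ih =>
    obtain ⟨c₀, hc₀⟩ : S.Nonempty := by
      rw [← Finset.card_pos]
      omega
    have hS : insert c₀ (S.erase c₀) = S := Finset.insert_erase hc₀
    set S₀ := S.erase c₀ with hS₀
    have hn : c₀ ∉ S₀ := Finset.notMem_erase c₀ S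
    have hcard : S₀.card = m := by
      rw [hS₀, Finset.card_erase_of_mem hc₀, hm]
      rfl
    have hprod : ∏ c ∈ S, (X c : MvPolynomial σ k) = (∏ c ∈ S₀, (X c : MvPolynomial σ k)) * X c₀ := by
      rw [← hS, Finset.prod_insert hn, mul_comm]
    have h0 : (cls r ((Aff.poly k σ).opn (∏ c ∈ S, (X c : MvPolynomial σ k))) : Mot k r β) =
        cls r ((Aff.poly k σ).opn ((∏ c ∈ S₀, (X c : MvPolynomial σ k)) * X c₀)) :=
      congrArg (fun g : MvPolynomial σ k => (cls r ((Aff.poly k σ).opn g) : Mot k r β)) hprod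
    rw [h0]
    obtain ⟨e₁⟩ := clo_mul_equiv (k := k) (X c₀ : MvPolynomial σ k)
      (∏ c ∈ S₀, (X c : MvPolynomial σ k))
    obtain ⟨e₂⟩ := clo_closed_equiv (k := k) σ S₀ c₀ hn
    have E₁ : (cls r (((Aff.poly k σ).opn (∏ c ∈ S₀, (X c : MvPolynomial σ k))).opn
        (algebraMap (MvPolynomial σ k) (Localization.Away (∏ c ∈ S₀, (X c : MvPolynomial σ k)))
          (X c₀))) : Mot k r β) =
        cls r ((Aff.poly k σ).opn ((∏ c ∈ S₀, (X c : MvPolynomial σ k)) * X c₀)) :=
      cls_iso _ _ e₁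
    have E₂ : (cls r (((Aff.poly k σ).opn (∏ c ∈ S₀, (X c : MvPolynomial σ k))).closed
        (algebraMap (MvPolynomial σ k) (Localization.Away (∏ c ∈ S₀, (X c : MvPolynomial σ k)))
          (X c₀))) : Mot k r β) =
        cls r ((Aff.poly k {c // c ≠ c₀}).opn (∏ c ∈ S₀.subtype (fun c => c ≠ c₀),
          (X c : MvPolynomial {c // c ≠ c₀} k))) :=
      cls_iso _ _ e₂
    have E₃ := cls_scissor (r := r) (β := β)
      ((Aff.poly k σ).opn (∏ c ∈ S₀, (X c : MvPolynomial σ k)))
      (algebraMap (MvPolynomial σ k) (Localization.Away (∏ c ∈ S₀, (X c : MvPolynomial σ k)))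
          (X c₀))
    rw [E₁, E₂] at E₃
    have I₁ := ih σ S₀ hcard
    have hcs : (S₀.subtype (fun c => c ≠ c₀)).card = m := by
      rw [Finset.card_subtype, Finset.filter_true_of_mem, hcard]
      intro x hx hxc
      rw [hxc] at hx
      exact hn hx
    have I₂ := ih {c // c ≠ c₀} (S₀.subtype (fun c => c ≠ c₀)) hcs
    rw [I₁, I₂] at E₃
    have hσ : (Fintype.card {c // c ≠ c₀} : ℤ) = Fintype.card σ - 1 := by
      have : Fintype.card {c // c ≠ c₀} = Fintype.card σ - 1 := by
        simp [Fintype.card_subtype_compl]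
      have h1 : 0 < Fintype.card σ := Fintype.card_pos_iff.mpr ⟨c₀⟩
      omega
    rw [hσ] at E₃
    have E₄ := eq_sub_of_add_eq' E₃.symm
    rw [E₄]
    have h3 : ((r : ℤ) * ((Fintype.card σ : ℤ) - (m : ℕ))) =
        r + r * ((Fintype.card σ : ℤ) - ((m + 1 : ℕ) : ℤ)) := by
      push_cast
      ring
    have h4 : ((r : ℤ) * ((Fintype.card σ : ℤ) - 1 - (m : ℕ))) =
        r * ((Fintype.card σ : ℤ) - ((m + 1 : ℕ) : ℤ)) := by
      push_cast
      ring
    rw [h3, h4, qpow_add]
    ring

end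

end H48SM

end S_Clo

section S_Cla

/-! # Module CLA: the class of a piece

Proof.  `lead = ∏ c ∈ univ.image (ldi e i n h), X c` (`ldi` is injective: its first component is `b`), so `cls_opn_prod`.
Cardinality of `Ax e i n`: sum over `(p, l)` of the indicator of `allowed`: block `b`: `s`: `n + 1 - e b`; `x`: `n + 1`; `w j`, `j ≠ i b`:
`n + 1 - e b`, minus 1 if `j < i b` (possible since `e b ≤ n`); `z j`, `j ≠ i b`: `n + 1 - e b`; dummies `0`.  The number of `j < i b` is
`i b`.  Total in the block: `6 (n+1) - 5 e b - i b`.  (`Fintype.card_subtype`, `Finset.card_filter`, sums over products; the sum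
over `Cv` is `s + x + ∑ j w j + ∑ j z j`: e.g. an explicit `Finset.univ` of `Cv` by `decide`/`rfl`, `Fin.sum_univ_three`.)
-/

set_option autoImplicit false

namespace H48SM

theorem CLA_count (n a b : ℕ) (h : a + b ≤ n + 1) :
    (((Finset.univ : Finset (Fin (n + 1))).filter
      fun l : Fin (n + 1) => a ≤ (l : ℕ) ∧ (l : ℕ) + b ≤ n).card : ℤ) = (n : ℤ) + 1 - b - a := by
  have h1 : ((Finset.univ : Finset (Fin (n + 1))).filter
      fun l : Fin (n + 1) => a ≤ (l : ℕ) ∧ (l : ℕ) + b ≤ n).card = n + 1 - b - a := by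
    rw [Finset.card_filter, Fin.sum_univ_eq_sum_range
      (fun l => if a ≤ l ∧ l + b ≤ n then 1 else 0) (n + 1), ← Finset.card_filter]
    have h2 : (Finset.range (n + 1)).filter (fun l => a ≤ l ∧ l + b ≤ n) =
        Finset.Ico a (n + 1 - b) := by
      ext l
      simp only [Finset.mem_filter, Finset.mem_range, Finset.mem_Ico]
      omega
    rw [h2, Nat.card_Ico]
  rw [h1]
  omega

theorem CLA_univ : (Finset.univ : Finset Cv) =
    {Cv.s, Cv.x, Cv.w 0, Cv.w 1, Cv.w 2, Cv.z 0, Cv.z 1, Cv.z 2} := by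
  decide

theorem CLA_sum (f : Cv → ℤ) : ∑ c, f c = f Cv.s + f Cv.x + f (Cv.w 0) + f (Cv.w 1) + f (Cv.w 2) +
    f (Cv.z 0) + f (Cv.z 1) + f (Cv.z 2) := by
  rw [CLA_univ]
  rw [Finset.sum_insert (by decide), Finset.sum_insert (by decide), Finset.sum_insert (by decide),
    Finset.sum_insert (by decide), Finset.sum_insert (by decide), Finset.sum_insert (by decide),
    Finset.sum_insert (by decide), Finset.sum_singleton]
  ring

/-- the number of coefficients of the coordinate `p` -/
def CLA_N {T : ℕ} (e : Fin T → ℕ) (i : Fin T → Fin 3) (n : ℕ) (b : Fin T) (c : Cv) : ℤ :=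
  (((Finset.univ : Finset (Fin (n + 1))).filter fun l : Fin (n + 1) => allowed e i n (b, c) l).card : ℤ)

theorem CLA_eq {T : ℕ} {e : Fin T → ℕ} {i : Fin T → Fin 3} {n : ℕ} {b : Fin T} {c : Cv}
    (a d : ℕ) (hd : a + d ≤ n + 1)
    (h : ∀ l : ℕ, l ≤ n → (allowed e i n (b, c) l ↔ a ≤ l ∧ l + d ≤ n)) :
    CLA_N e i n b c = (n : ℤ) + 1 - d - a := by
  rw [← CLA_count n a d hd, CLA_N]
  congr 2
  ext l
  simp only [Finset.mem_filter, Finset.mem_univ, true_and]
  exact h l (Nat.lt_succ_iff.1 l.2)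

theorem CLA_s {T : ℕ} {e : Fin T → ℕ} {i : Fin T → Fin 3} {n : ℕ} {b : Fin T} (h : e b ≤ n) :
    CLA_N e i n b Cv.s = (n : ℤ) + 1 - e b := by
  rw [CLA_eq (e b) 0 (by omega)]
  · push_cast; ring
  · intro l hl
    unfold allowed
    constructor
    · rintro ⟨h1, h2, -⟩
      exact ⟨h2 rfl, by omega⟩
    · rintro ⟨h1, h2⟩
      exact ⟨hl, fun _ => h1, fun j => ⟨nofun, nofun⟩⟩

theorem CLA_x {T : ℕ} {e : Fin T → ℕ} {i : Fin T → Fin 3} {n : ℕ} {b : Fin T} :
    CLA_N e i n b Cv.x = (n : ℤ) + 1 := by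
  rw [CLA_eq 0 0 (by omega)]
  · push_cast; ring
  · intro l hl
    unfold allowed
    constructor
    · rintro ⟨h1, h2, -⟩
      exact ⟨by omega, by omega⟩
    · rintro ⟨h1, h2⟩
      exact ⟨hl, nofun, fun j => ⟨nofun, nofun⟩⟩

theorem CLA_z {T : ℕ} {e : Fin T → ℕ} {i : Fin T → Fin 3} {n : ℕ} {b : Fin T} (h : e b ≤ n)
    (j : Fin 3) (hj : j ≠ i b) : CLA_N e i n b (Cv.z j) = (n : ℤ) + 1 - e b := by
  rw [CLA_eq 0 (e b) (by omega)]
  · push_cast; ring
  · intro l hl
    unfold allowed
    constructor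
    · rintro ⟨h1, -, h2⟩
      exact ⟨by omega, ((h2 j).2 rfl).2⟩
    · rintro ⟨h1, h2⟩
      refine ⟨hl, nofun, fun j' => ⟨nofun, fun hjj => ?_⟩⟩
      cases hjj
      exact ⟨hj, h2⟩

theorem CLA_z' {T : ℕ} {e : Fin T → ℕ} {i : Fin T → Fin 3} {n : ℕ} {b : Fin T}
    (j : Fin 3) (hj : j = i b) : CLA_N e i n b (Cv.z j) = 0 := by
  rw [CLA_N, Int.natCast_eq_zero, Finset.card_eq_zero, Finset.filter_eq_empty_iff]
  rintro l - ⟨-, -, h2⟩
  exact ((h2 j).2 rfl).1 hj

theorem CLA_w' {T : ℕ} {e : Fin T → ℕ} {i : Fin T → Fin 3} {n : ℕ} {b : Fin T}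
    (j : Fin 3) (hj : j = i b) : CLA_N e i n b (Cv.w j) = 0 := by
  rw [CLA_N, Int.natCast_eq_zero, Finset.card_eq_zero, Finset.filter_eq_empty_iff]
  rintro l - ⟨-, -, h2⟩
  exact ((h2 j).1 rfl).1 hj

theorem CLA_w {T : ℕ} {e : Fin T → ℕ} {i : Fin T → Fin 3} {n : ℕ} {b : Fin T} (h : e b ≤ n)
    (j : Fin 3) (hj : i b < j) : CLA_N e i n b (Cv.w j) = (n : ℤ) + 1 - e b := by
  rw [CLA_eq 0 (e b) (by omega)]
  · push_cast; ring
  · intro l hl
    unfold allowed
    constructor
    · rintro ⟨h1, -, h2⟩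
      exact ⟨by omega, ((h2 j).1 rfl).2.1⟩
    · rintro ⟨h1, h2⟩
      refine ⟨hl, nofun, fun j' => ⟨fun hjj => ?_, nofun⟩⟩
      cases hjj
      exact ⟨hj.ne', h2, fun h3 => absurd (h3.trans hj) (lt_irrefl _)⟩

theorem CLA_w1 {T : ℕ} {e : Fin T → ℕ} {i : Fin T → Fin 3} {n : ℕ} {b : Fin T} (h : e b ≤ n)
    (j : Fin 3) (hj : j < i b) : CLA_N e i n b (Cv.w j) = (n : ℤ) + 1 - e b - 1 := by
  rw [CLA_eq 1 (e b) (by omega)]
  · push_cast; ring
  · intro l hl
    unfold allowed
    constructor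
    · rintro ⟨h1, -, h2⟩
      exact ⟨((h2 j).1 rfl).2.2 hj, ((h2 j).1 rfl).2.1⟩
    · rintro ⟨h1, h2⟩
      refine ⟨hl, nofun, fun j' => ⟨fun hjj => ?_, nofun⟩⟩
      cases hjj
      exact ⟨hj.ne, h2, fun _ => h1⟩

theorem card_Ax {T : ℕ} (e : Fin T → ℕ) (i : Fin T → Fin 3) (n : ℕ) (h : ∀ b, e b ≤ n) :
    (Fintype.card (Ax e i n) : ℤ) = ∑ b, (6 * ((n : ℤ) + 1) - 5 * e b - ((i b : ℕ) : ℤ)) := by
  have h1 : (Fintype.card (Ax e i n) : ℤ) = ∑ b, ∑ c, CLA_N e i n b c := by
    rw [Fintype.card_subtype, Finset.card_filter, Fintype.sum_prod_type, Fintype.sum_prod_type]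
    push_cast
    refine Finset.sum_congr rfl fun b _ => Finset.sum_congr rfl fun c _ => ?_
    rw [CLA_N, Finset.card_filter]
    push_cast
    rfl
  rw [h1]
  refine Finset.sum_congr rfl fun b _ => ?_
  rw [CLA_sum, CLA_s (h b), CLA_x]
  have h3 : i b = 0 ∨ i b = 1 ∨ i b = 2 := by
    generalize i b = j
    fin_cases j <;> simp
  rcases h3 with h3 | h3 | h3
  · rw [CLA_w' 0 h3.symm, CLA_z' 0 h3.symm, CLA_w (h b) 1 (by rw [h3]; decide),
      CLA_w (h b) 2 (by rw [h3]; decide), CLA_z (h b) 1 (by rw [h3]; decide),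
      CLA_z (h b) 2 (by rw [h3]; decide), h3]
    simp only [Fin.val_zero]
    push_cast
    ring
  · rw [CLA_w' 1 h3.symm, CLA_z' 1 h3.symm, CLA_w1 (h b) 0 (by rw [h3]; decide),
      CLA_w (h b) 2 (by rw [h3]; decide), CLA_z (h b) 0 (by rw [h3]; decide),
      CLA_z (h b) 2 (by rw [h3]; decide), h3]
    have : ((1 : Fin 3) : ℕ) = 1 := rfl
    rw [this]
    push_cast
    ring
  · rw [CLA_w' 2 h3.symm, CLA_z' 2 h3.symm, CLA_w1 (h b) 0 (by rw [h3]; decide),
      CLA_w1 (h b) 1 (by rw [h3]; decide), CLA_z (h b) 0 (by rw [h3]; decide),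
      CLA_z (h b) 1 (by rw [h3]; decide), h3]
    have : ((2 : Fin 3) : ℕ) = 2 := rfl
    rw [this]
    push_cast
    ring

theorem cls_DD (β : Prop) {T : ℕ} (e : Fin T → ℕ) (i : Fin T → Fin 3) (n : ℕ) (h : ∀ b, e b ≤ n) :
    (cls (rr T) (DD e i n h) : Mot (ZMod 2) (rr T) β) = (qpow (ZMod 2) (rr T) (rr T) - 1) ^ T *
      qpow (ZMod 2) (rr T) ((rr T : ℤ) *
        (∑ b, (6 * ((n : ℤ) + 1) - 5 * e b - ((i b : ℕ) : ℤ)) - T)) := by
  have hinj : Function.Injective (ldi e i n h) := by
    intro b b' hb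
    have := congrArg (fun x => x.1.1.1) hb
    exact this
  have h1 : lead e i n h = ∏ c ∈ Finset.univ.image (ldi e i n h),
      (MvPolynomial.X c : MvPolynomial (Ax e i n) (ZMod 2)) := by
    rw [Finset.prod_image (fun x _ y _ hxy => hinj hxy)]
    rfl
  have h2 : (Finset.univ.image (ldi e i n h)).card = T := by
    rw [Finset.card_image_of_injective _ hinj, Finset.card_univ, Fintype.card_fin]
  have h3 := cls_opn_prod (k := ZMod 2) (r := rr T) (β := β) (Ax e i n)
    (Finset.univ.image (ldi e i n h))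
  rw [h2, card_Ax e i n h] at h3
  have h4 : (cls (rr T) (DD e i n h) : Mot (ZMod 2) (rr T) β) =
      cls (rr T) ((Aff.poly (ZMod 2) (Ax e i n)).opn (∏ c ∈ Finset.univ.image (ldi e i n h),
        (MvPolynomial.X c : MvPolynomial (Ax e i n) (ZMod 2)))) := by
    unfold DD
    rw [h1]
    rfl
  exact h4.trans h3

end H48SM

end S_Cla
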