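import Mathlib
import Pool.Agent.H48.SL.M1

set_option autoImplicit false

/-! Stringy motives of linear quotients, part M7: this file joins several modules to save build time. -/

section S_Pca

/-! # Module PCA: homomorphisms to a finite field

Proofs.  For `A` of finite type the set `A →ₐ[ZMod 2] F` is finite (`finite_hom`: `A` is a quotient of a polynomial ring in finitely many
variables, a homomorphism is determined by the images of the generators).  `card_tensor`: `Algebra.TensorProduct.liftEquiv` (commutative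
case) gives `(A ⊗ B →ₐ F) ≃ (A →ₐ F) × (B →ₐ F)`.  `card_scissor`: split the homomorphisms `φ` according to `φ f = 0` (they factor
uniquely through `A ⧸ (f)`: `Ideal.Quotient.liftₐ`) or `φ f ≠ 0`, a unit (they factor uniquely through `Localization.Away f`).
-/

set_option autoImplicit false

open scoped TensorProduct

namespace H48SM

theorem finite_hom (A : Type) [CommRing A] [Algebra (ZMod 2) A] [Algebra.FiniteType (ZMod 2) A]
    (F : Type) [Field F] [Finite F] [Algebra (ZMod 2) F] : Finite (A →ₐ[ZMod 2] F) := by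
  obtain ⟨n, f, hf⟩ := Algebra.FiniteType.iff_quotient_mvPolynomial''.1
    (inferInstance : Algebra.FiniteType (ZMod 2) A)
  refine Finite.of_injective (fun φ : A →ₐ[ZMod 2] F => fun i : Fin n => φ (f (MvPolynomial.X i))) ?_
  intro φ ψ h
  have h1 : φ.comp f = ψ.comp f := by
    apply MvPolynomial.algHom_ext
    intro i
    exact congrFun h i
  apply AlgHom.ext
  intro a
  obtain ⟨p, rfl⟩ := hf a
  exact DFunLike.congr_fun h1 p

theorem card_tensor (A B : Type) [CommRing A] [Algebra (ZMod 2) A] [CommRing B]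
    [Algebra (ZMod 2) B] (F : Type) [Field F] [Algebra (ZMod 2) F] :
    Nat.card (A ⊗[ZMod 2] B →ₐ[ZMod 2] F) =
      Nat.card (A →ₐ[ZMod 2] F) * Nat.card (B →ₐ[ZMod 2] F) := by
  rw [← Nat.card_prod]
  refine Nat.card_congr ?_
  exact (Algebra.TensorProduct.liftEquiv (R := ZMod 2) (S := ZMod 2) (A := A) (B := B)
    (C := F)).symm.trans (Equiv.subtypeUnivEquiv fun fg x y => Commute.all _ _)

theorem card_scissor (A : Type) [CommRing A] [Algebra (ZMod 2) A]
    [Algebra.FiniteType (ZMod 2) A] (f : A) (F : Type) [Field F] [Finite F]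
    [Algebra (ZMod 2) F] :
    Nat.card (A →ₐ[ZMod 2] F) = Nat.card (A ⧸ Ideal.span {f} →ₐ[ZMod 2] F) +
      Nat.card (Localization.Away f →ₐ[ZMod 2] F) := by
  classical
  have hfin := finite_hom A F
  have h1 : Nat.card (A ⧸ Ideal.span {f} →ₐ[ZMod 2] F) =
      Nat.card {φ : A →ₐ[ZMod 2] F // φ f = 0} := by
    refine Nat.card_congr (Equiv.ofBijective (fun ψ : A ⧸ Ideal.span {f} →ₐ[ZMod 2] F =>
      (⟨ψ.comp (Ideal.Quotient.mkₐ (ZMod 2) (Ideal.span {f})), ?_⟩ :
        {φ : A →ₐ[ZMod 2] F // φ f = 0})) ⟨?_, ?_⟩)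
    · have h2 : Ideal.Quotient.mk (Ideal.span {f}) f = 0 :=
        Ideal.Quotient.eq_zero_iff_mem.2 (Ideal.mem_span_singleton_self f)
      show ψ (Ideal.Quotient.mk (Ideal.span {f}) f) = 0
      rw [h2, map_zero]
    · intro ψ ψ' h
      apply Ideal.Quotient.algHom_ext
      exact congrArg Subtype.val h
    · rintro ⟨φ, hφ⟩
      refine ⟨Ideal.Quotient.liftₐ (Ideal.span {f}) φ ?_, ?_⟩
      · intro a ha
        obtain ⟨b, rfl⟩ := Ideal.mem_span_singleton'.1 ha
        rw [map_mul, hφ, mul_zero]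
      · apply Subtype.ext
        exact Ideal.Quotient.liftₐ_comp _ _ _
  have h2 : Nat.card (Localization.Away f →ₐ[ZMod 2] F) =
      Nat.card {φ : A →ₐ[ZMod 2] F // ¬ φ f = 0} := by
    refine Nat.card_congr (Equiv.ofBijective (fun ψ : Localization.Away f →ₐ[ZMod 2] F =>
      (⟨ψ.comp (IsScalarTower.toAlgHom (ZMod 2) A (Localization.Away f)), ?_⟩ :
        {φ : A →ₐ[ZMod 2] F // ¬ φ f = 0})) ⟨?_, ?_⟩)
    · have h3 : IsUnit (algebraMap A (Localization.Away f) f) :=
        IsLocalization.Away.algebraMap_isUnit f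
      have h4 : IsUnit (ψ (algebraMap A (Localization.Away f) f)) := h3.map ψ
      exact h4.ne_zero
    · intro ψ ψ' h
      have h3 : ψ.comp (IsScalarTower.toAlgHom (ZMod 2) A (Localization.Away f)) =
          ψ'.comp (IsScalarTower.toAlgHom (ZMod 2) A (Localization.Away f)) :=
        congrArg Subtype.val h
      apply AlgHom.coe_ringHom_injective
      apply IsLocalization.ringHom_ext (Submonoid.powers f)
      apply RingHom.ext
      intro a
      exact DFunLike.congr_fun h3 a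
    · rintro ⟨φ, hφ⟩
      have hu : ∀ y : Submonoid.powers f, IsUnit (φ y) := by
        rintro ⟨y, n, rfl⟩
        show IsUnit (φ (f ^ n))
        rw [map_pow]
        exact (IsUnit.mk0 _ hφ).pow n
      refine ⟨IsLocalization.liftAlgHom (M := Submonoid.powers f) (f := φ) hu, ?_⟩
      apply Subtype.ext
      apply AlgHom.ext
      intro a
      exact IsLocalization.lift_eq _ _
  rw [h1, h2, ← Nat.card_sum]
  exact Nat.card_congr (Equiv.sumCompl _).symm

end H48SM

end S_Pca

section S_Pcb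

/-! # Module PCB: geometrically bijective morphisms are bijective on rational points over finite fields

Proof.  Composition with `f` is a bijection `(Y.A →ₐ F) → (X.A →ₐ F)`.  Let `K = AlgebraicClosure F`, `ι = algebraMap F K`
(as an algebra homomorphism over `ZMod 2`).  Injective: if `φ ∘ f = φ' ∘ f` then `(ι φ) ∘ f = (ι φ') ∘ f`, so `ι φ = ι φ'`, `φ = φ'`.
Surjective: for `χ : X.A → F` there is a unique `Φ : Y.A → K` with `Φ ∘ f = ι χ`.  Let `σ x = x ^ #F`, an algebra endomorphism of `K` over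
`ZMod 2` (`frobenius`, `iterateFrobenius`, `frobeniusAlgHom`), fixing exactly `F` (roots of `X^q - X`; `FiniteField.pow_card`).
`(σ Φ) ∘ f = σ ι χ = ι χ`, so `σ Φ = Φ`: `Φ` has values in the range of `ι`.  (`AlgebraicClosure F` is a `ZMod 2`-algebra through `F`.)
-/

set_option autoImplicit false

open scoped TensorProduct

namespace H48SM

/-- the elements of an extension field fixed by `x ↦ x ^ #F` are the elements of the finite field `F` -/
theorem pcb_fixed (F K : Type) [Field F] [Fintype F] [Field K] [Algebra F K] (x : K)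
    (hx : x ^ Fintype.card F = x) : ∃ y : F, algebraMap F K y = x := by
  classical
  by_contra hne
  push Not at hne
  have hq : 1 < Fintype.card F := Fintype.one_lt_card
  set P : Polynomial K := Polynomial.X ^ Fintype.card F - Polynomial.X with hP
  have hdeg : P.natDegree = Fintype.card F := FiniteField.X_pow_card_sub_X_natDegree_eq K hq
  have hP0 : P ≠ 0 := by
    intro h0
    rw [h0, Polynomial.natDegree_zero] at hdeg
    omega
  have hsub : insert x (Finset.univ.image (algebraMap F K)) ⊆ P.roots.toFinset := by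
    intro z hz
    rw [Multiset.mem_toFinset, Polynomial.mem_roots hP0, Polynomial.IsRoot.def, hP,
      Polynomial.eval_sub, Polynomial.eval_pow, Polynomial.eval_X]
    rcases Finset.mem_insert.1 hz with rfl | hz
    · rw [hx, sub_self]
    · obtain ⟨y, -, rfl⟩ := Finset.mem_image.1 hz
      rw [← map_pow, FiniteField.pow_card, sub_self]
  have hcard : (insert x (Finset.univ.image (algebraMap F K))).card = Fintype.card F + 1 := by
    rw [Finset.card_insert_of_notMem, Finset.card_image_of_injective _ (algebraMap F K).injective,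
      Finset.card_univ]
    intro hmem
    obtain ⟨y, -, hy⟩ := Finset.mem_image.1 hmem
    exact hne y hy
  have h1 := Finset.card_le_card hsub
  have h2 := Multiset.toFinset_card_le P.roots
  have h3 := Polynomial.card_roots' P
  omega

theorem card_homeo (X Y : Aff (ZMod 2)) (f : X.A →ₐ[ZMod 2] Y.A)
    (hf : ∀ (K : Type) [Field K] [Algebra (ZMod 2) K] [IsAlgClosed K],
      Function.Bijective fun φ : Y.A →ₐ[ZMod 2] K => φ.comp f)
    (F : Type) [Field F] [Finite F] [Algebra (ZMod 2) F] :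
    Nat.card (X.A →ₐ[ZMod 2] F) = Nat.card (Y.A →ₐ[ZMod 2] F) := by
  classical
  have : Fintype F := Fintype.ofFinite F
  obtain ⟨hinj, hsurj⟩ := hf (AlgebraicClosure F)
  set ι : F →ₐ[ZMod 2] AlgebraicClosure F := IsScalarTower.toAlgHom (ZMod 2) F (AlgebraicClosure F)
    with hι
  have hιinj : Function.Injective ι := (algebraMap F (AlgebraicClosure F)).injective
  have hιa : ∀ y, ι y = algebraMap F (AlgebraicClosure F) y := fun y => rfl
  set σ : AlgebraicClosure F →ₐ[ZMod 2] AlgebraicClosure F :=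
    (FiniteField.frobeniusAlgHom F (AlgebraicClosure F)).restrictScalars (ZMod 2) with hσ
  have hσa : ∀ x, σ x = x ^ Fintype.card F := fun x => rfl
  symm
  refine Nat.card_eq_of_bijective (fun φ : Y.A →ₐ[ZMod 2] F => φ.comp f) ⟨?_, ?_⟩
  · intro φ φ' h
    have h1 : (ι.comp φ).comp f = (ι.comp φ').comp f := by
      have h' : φ.comp f = φ'.comp f := h
      rw [AlgHom.comp_assoc, h', ← AlgHom.comp_assoc]
    have h2 := hinj h1
    refine AlgHom.ext fun a => hιinj ?_
    exact DFunLike.congr_fun h2 a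
  · intro χ
    obtain ⟨Φ, hΦ⟩ := hsurj (ι.comp χ)
    have hΦ' : ∀ a, Φ (f a) = ι (χ a) := fun a => DFunLike.congr_fun hΦ a
    have h1 : (σ.comp Φ).comp f = Φ.comp f := by
      refine AlgHom.ext fun a => ?_
      change σ (Φ (f a)) = Φ (f a)
      rw [hΦ', hσa, ← map_pow, FiniteField.pow_card]
    have h2 : σ.comp Φ = Φ := hinj h1
    have h3 : ∀ b, Φ b ^ Fintype.card F = Φ b := fun b => DFunLike.congr_fun h2 b
    have h4 : ∀ b, ∃ y : F, ι y = Φ b := fun b => pcb_fixed F (AlgebraicClosure F) (Φ b) (h3 b)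
    choose g hg using h4
    let G : Y.A →ₐ[ZMod 2] F :=
      { toFun := g
        map_one' := hιinj (by rw [hg, map_one, map_one])
        map_mul' := fun a b => hιinj (by rw [hg, map_mul, map_mul, hg, hg])
        map_zero' := hιinj (by rw [hg, map_zero, map_zero])
        map_add' := fun a b => hιinj (by rw [hg, map_add, map_add, hg, hg])
        commutes' := fun r => hιinj (by rw [hg, AlgHom.commutes, AlgHom.commutes]) }
    refine ⟨G, AlgHom.ext fun a => hιinj ?_⟩
    change ι (g (f a)) = ι (χ a)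
    rw [hg, hΦ']

end H48SM

end S_Pcb

section S_Pc

/-! # Module PC: counting points is a realisation

Proof.  `F = GaloisField 2 (r t)` is a finite field with `2^(r t)` elements (`GaloisField.card`).  `RingQuot.lift` of
`MvPolynomial.eval₂Hom (Int.castRingHom ℝ)` with `cls X ↦ #(X.A →ₐ F)`, `q ↦ 2^t`, `qi ↦ (2^t)⁻¹`; check the seven relations (`iso`: composition with the
equivalence; `prod`: `card_tensor`; `pt`: `ZMod 2 →ₐ F` is unique; `scissor`: `card_scissor`; `root`: `Polynomial (ZMod 2) →ₐ F` is `F`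
(`Polynomial.aeval`), `(2^t)^r = 2^(r t)`; `homeo`: `card_homeo`).  `Aff.prod` etc. unfold by `rfl`.
-/

set_option autoImplicit false

open scoped TensorProduct

namespace H48SM

/-- the values of the generators -/
noncomputable def pc_val (F : Type) [Field F] [Algebra (ZMod 2) F] (t : ℕ) : Gen (ZMod 2) → ℝ
  | Gen.cls X => (Nat.card (X.A →ₐ[ZMod 2] F) : ℝ)
  | Gen.q => 2 ^ t
  | Gen.qi => (2 ^ t)⁻¹

theorem pc_rel (β : Prop) {r t : ℕ} (F : Type) [Field F] [Finite F] [Algebra (ZMod 2) F]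
    (hF : Nat.card F = 2 ^ (r * t)) ⦃x y : MvPolynomial (Gen (ZMod 2)) ℤ⦄
    (h : Rel (ZMod 2) r β x y) :
    MvPolynomial.eval₂Hom (Int.castRingHom ℝ) (pc_val F t) x =
      MvPolynomial.eval₂Hom (Int.castRingHom ℝ) (pc_val F t) y := by
  cases h with
  | iso X Y e =>
    rw [MvPolynomial.eval₂Hom_X', MvPolynomial.eval₂Hom_X']
    show (Nat.card (X.A →ₐ[ZMod 2] F) : ℝ) = (Nat.card (Y.A →ₐ[ZMod 2] F) : ℝ)
    rw [Nat.card_congr (AlgEquiv.arrowCongr e (AlgEquiv.refl : F ≃ₐ[ZMod 2] F))]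
  | prod X Y =>
    rw [map_mul, MvPolynomial.eval₂Hom_X', MvPolynomial.eval₂Hom_X', MvPolynomial.eval₂Hom_X']
    have h1 := card_tensor X.A Y.A F
    show (Nat.card (X.A ⊗[ZMod 2] Y.A →ₐ[ZMod 2] F) : ℝ) =
      (Nat.card (X.A →ₐ[ZMod 2] F) : ℝ) * (Nat.card (Y.A →ₐ[ZMod 2] F) : ℝ)
    rw [h1, Nat.cast_mul]
  | pt =>
    rw [map_one, MvPolynomial.eval₂Hom_X']
    show (Nat.card (ZMod 2 →ₐ[ZMod 2] F) : ℝ) = 1
    have h1 : Nat.card (ZMod 2 →ₐ[ZMod 2] F) = 1 :=
      Nat.card_eq_one_iff_unique.2 ⟨inferInstance, ⟨Algebra.ofId (ZMod 2) F⟩⟩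
    rw [h1, Nat.cast_one]
  | scissor X f =>
    rw [map_add, MvPolynomial.eval₂Hom_X', MvPolynomial.eval₂Hom_X', MvPolynomial.eval₂Hom_X']
    have h1 := card_scissor X.A f F
    show (Nat.card (X.A →ₐ[ZMod 2] F) : ℝ) =
      (Nat.card (X.A ⧸ Ideal.span {f} →ₐ[ZMod 2] F) : ℝ) +
        (Nat.card (Localization.Away f →ₐ[ZMod 2] F) : ℝ)
    rw [h1, Nat.cast_add]
  | inv =>
    rw [map_mul, map_one, MvPolynomial.eval₂Hom_X', MvPolynomial.eval₂Hom_X']
    show (2 : ℝ) ^ t * (2 ^ t)⁻¹ = 1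
    exact mul_inv_cancel₀ (pow_ne_zero _ two_ne_zero)
  | root =>
    rw [map_pow, MvPolynomial.eval₂Hom_X', MvPolynomial.eval₂Hom_X']
    show ((2 : ℝ) ^ t) ^ r = (Nat.card (Polynomial (ZMod 2) →ₐ[ZMod 2] F) : ℝ)
    let E : (Polynomial (ZMod 2) →ₐ[ZMod 2] F) ≃ F :=
      { toFun := fun φ => φ Polynomial.X
        invFun := fun x => Polynomial.aeval x
        left_inv := fun φ => Polynomial.algHom_ext (by simp)
        right_inv := fun x => by simp }
    rw [Nat.card_congr E, hF, ← pow_mul, mul_comm t r]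
    push_cast
    rfl
  | homeo hβ X Y f hf =>
    rw [MvPolynomial.eval₂Hom_X', MvPolynomial.eval₂Hom_X']
    show (Nat.card (X.A →ₐ[ZMod 2] F) : ℝ) = (Nat.card (Y.A →ₐ[ZMod 2] F) : ℝ)
    rw [card_homeo X Y f hf F]

theorem exists_pc (β : Prop) {r t : ℕ} (hr : 0 < r) (ht : 0 < t) :
    ∃ c : Mot (ZMod 2) r β →+* ℝ, IsPC r t c := by
  have hF : Nat.card (GaloisField 2 (r * t)) = 2 ^ (r * t) :=
    GaloisField.card 2 (r * t) (Nat.mul_pos hr ht).ne'
  let c : RingQuot (Rel (ZMod 2) r β) →+* ℝ := RingQuot.lift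
    ⟨MvPolynomial.eval₂Hom (Int.castRingHom ℝ) (pc_val (GaloisField 2 (r * t)) t),
      pc_rel β (GaloisField 2 (r * t)) hF⟩
  refine ⟨c, ⟨fun X => ?_, ?_⟩⟩
  · show RingQuot.lift _ (RingQuot.mkRingHom (Rel (ZMod 2) r β) (MvPolynomial.X (Gen.cls X))) = _
    rw [RingQuot.lift_mkRingHom_apply, MvPolynomial.eval₂Hom_X']
    rfl
  · show RingQuot.lift _ (RingQuot.mkRingHom (Rel (ZMod 2) r β) (MvPolynomial.X Gen.q)) = _
    rw [RingQuot.lift_mkRingHom_apply, MvPolynomial.eval₂Hom_X']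
    rfl

end H48SM

end S_Pc

section S_Hcc

/-! # Module HCC: the number of rational points of a constructible set does not depend on the partition

Proof.  `F = GaloisField 2 (r t)`.  For pieces `P_i, ψ_i` of `Tt`: composition with `ψ_i` is a bijection from
`P_i →ₐ F` onto `{φ : R →ₐ F | ker φ ∈ range (comap ψ_i)}`: injective since `P_i` is generated by the image of `ψ_i` and the inverse of the
unit `ψ_i f` (`IsPiece`: `χ p * χ (ψ f)^n = χ (ψ g)`); surjective: if `ker φ = comap ψ_i 𝔮` (`𝔮` prime) then `φ f ≠ 0`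
(as `ψ_i f` is a unit, not in `𝔮`) and `ker ψ_i ≤ ker φ`; define `χ p = φ g / φ f^n` where `p * ψ f^n = ψ g` (well defined, a homomorphism).
So `c (∑ cls P_i) = ∑ #(P_i →ₐ F) = #{φ | ker φ ∈ Tt}` by disjointness (`Nat.card` of a finite disjoint union, all finite by `finite_hom`).
The right side does not depend on the partition.
-/

set_option autoImplicit false

namespace H48SM

/-- the point of the spectrum given by a homomorphism to a field -/
def hccPt {R F : Type} [CommRing R] [Algebra (ZMod 2) R] [Field F] [Algebra (ZMod 2) F]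
    (φ : R →ₐ[ZMod 2] F) : PrimeSpectrum R :=
  ⟨RingHom.ker φ.toRingHom, RingHom.ker_isPrime φ.toRingHom⟩

theorem hcc_inj {R P F : Type} [CommRing R] [Algebra (ZMod 2) R] [CommRing P]
    [Algebra (ZMod 2) P] [Field F] [Algebra (ZMod 2) F] (ψ : R →ₐ[ZMod 2] P)
    (hψ : IsPiece ψ.toRingHom) (χ χ' : P →ₐ[ZMod 2] F) (h : χ.comp ψ = χ'.comp ψ) : χ = χ' := by
  obtain ⟨f, hf, hg⟩ := hψ
  have hf' : IsUnit (ψ f) := hf
  have key : ∀ r : R, χ (ψ r) = χ' (ψ r) := fun r => DFunLike.congr_fun h r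
  ext p
  obtain ⟨g, n, hn⟩ := hg p
  have hn' : p * ψ f ^ n = ψ g := hn
  have h1 : χ p * χ (ψ f) ^ n = χ (ψ g) := by rw [← map_pow, ← map_mul, hn']
  have h2 : χ' p * χ' (ψ f) ^ n = χ' (ψ g) := by rw [← map_pow, ← map_mul, hn']
  have h0 : χ (ψ f) ^ n ≠ 0 := pow_ne_zero _ (hf'.map χ).ne_zero
  apply mul_right_cancel₀ h0
  rw [h1, key g, ← h2, key f]

theorem hcc_mem {R P F : Type} [CommRing R] [Algebra (ZMod 2) R] [CommRing P]
    [Algebra (ZMod 2) P] [Field F] [Algebra (ZMod 2) F] (ψ : R →ₐ[ZMod 2] P)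
    (χ : P →ₐ[ZMod 2] F) :
    hccPt (χ.comp ψ) ∈ Set.range (PrimeSpectrum.comap ψ.toRingHom) := by
  refine ⟨hccPt χ, ?_⟩
  apply PrimeSpectrum.ext
  ext r
  rfl

theorem hcc_surj {R P F : Type} [CommRing R] [Algebra (ZMod 2) R] [CommRing P]
    [Algebra (ZMod 2) P] [Field F] [Algebra (ZMod 2) F] (ψ : R →ₐ[ZMod 2] P)
    (hψ : IsPiece ψ.toRingHom) (φ : R →ₐ[ZMod 2] F)
    (h : hccPt φ ∈ Set.range (PrimeSpectrum.comap ψ.toRingHom)) :
    ∃ χ : P →ₐ[ZMod 2] F, χ.comp ψ = φ := by
  obtain ⟨f, hf, hg⟩ := hψ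
  obtain ⟨q, hq⟩ := h
  have hf' : IsUnit (ψ f) := hf
  have hmem : ∀ r : R, φ r = 0 ↔ ψ r ∈ q.asIdeal := by
    intro r
    have h1 : r ∈ (PrimeSpectrum.comap ψ.toRingHom q).asIdeal ↔ r ∈ (hccPt φ).asIdeal := by
      rw [hq]
    exact h1.symm
  have hφf : φ f ≠ 0 := by
    intro h0
    exact q.isPrime.ne_top (Ideal.eq_top_of_isUnit_mem _ ((hmem f).1 h0) hf')
  have hker : ∀ r : R, ψ r = 0 → φ r = 0 := by
    intro r hr
    rw [hmem, hr]
    exact q.asIdeal.zero_mem
  have hker2 : ∀ r s : R, ψ r = ψ s → φ r = φ s := by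
    intro r s hrs
    have := hker (r - s) (by rw [map_sub, hrs, sub_self])
    rwa [map_sub, sub_eq_zero] at this
  choose g n hgn using hg
  have hgn' : ∀ p, p * ψ f ^ n p = ψ (g p) := hgn
  -- the key property of the value
  have key : ∀ (p : P) (a : R) (m : ℕ), p * ψ f ^ m = ψ a →
      (φ (g p) / φ f ^ n p) * φ f ^ m = φ a := by
    intro p a m hp
    have h1 : ψ (g p * f ^ m) = ψ (a * f ^ n p) := by
      rw [map_mul, map_mul, map_pow, map_pow, ← hgn', ← hp]
      ring
    have h2 := hker2 _ _ h1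
    rw [map_mul, map_mul, map_pow, map_pow] at h2
    rw [div_mul_eq_mul_div, div_eq_iff (pow_ne_zero _ hφf)]
    exact h2
  have keyU : ∀ (p : P) (a : R) (m : ℕ) (y : F), p * ψ f ^ m = ψ a → y * φ f ^ m = φ a →
      φ (g p) / φ f ^ n p = y := by
    intro p a m y hp hy
    apply mul_right_cancel₀ (pow_ne_zero m hφf)
    rw [key p a m hp, hy]
  have hval : ∀ r : R, φ (g (ψ r)) / φ f ^ n (ψ r) = φ r := by
    intro r
    exact keyU (ψ r) r 0 (φ r) (by simp) (by simp)
  have kp : ∀ p, (φ (g p) / φ f ^ n p) * φ f ^ n p = φ (g p) := fun p =>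
    div_mul_cancel₀ _ (pow_ne_zero _ hφf)
  refine ⟨{ toFun := fun p => φ (g p) / φ f ^ n p
            map_one' := ?_
            map_mul' := ?_
            map_zero' := ?_
            map_add' := ?_
            commutes' := ?_ }, ?_⟩
  · exact keyU 1 1 0 1 (by simp) (by simp)
  · intro p p'
    refine keyU (p * p') (g p * g p') (n p + n p') _ ?_ ?_
    · rw [map_mul, ← hgn', ← hgn', pow_add]
      ring
    · rw [map_mul, pow_add]
      field_simp
  · exact keyU 0 0 0 0 (by simp) (by simp)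
  · intro p p'
    refine keyU (p + p') (g p * f ^ n p' + g p' * f ^ n p) (n p + n p') _ ?_ ?_
    · rw [map_add, map_mul, map_mul, map_pow, map_pow, ← hgn', ← hgn', pow_add]
      ring
    · rw [map_add, map_mul, map_mul, map_pow, map_pow, pow_add]
      field_simp
  · intro s
    have h1 := hval (algebraMap (ZMod 2) R s)
    rw [AlgHom.commutes, AlgHom.commutes] at h1
    exact h1
  · ext r
    exact hval r

theorem hcc_card {R P F : Type} [CommRing R] [Algebra (ZMod 2) R] [CommRing P]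
    [Algebra (ZMod 2) P] [Field F] [Algebra (ZMod 2) F] (ψ : R →ₐ[ZMod 2] P)
    (hψ : IsPiece ψ.toRingHom) :
    Nonempty ((P →ₐ[ZMod 2] F) ≃
      {φ : R →ₐ[ZMod 2] F | hccPt φ ∈ Set.range (PrimeSpectrum.comap ψ.toRingHom)}) := by
  refine ⟨Equiv.ofBijective (fun χ => ⟨χ.comp ψ, hcc_mem ψ χ⟩) ⟨?_, ?_⟩⟩
  · intro χ χ' h
    exact hcc_inj ψ hψ χ χ' (congrArg Subtype.val h)
  · rintro ⟨φ, hφ⟩
    obtain ⟨χ, hχ⟩ := hcc_surj ψ hψ φ hφ
    exact ⟨χ, Subtype.ext hχ⟩

theorem hcc_count {β : Prop} {r t : ℕ} {c : Mot (ZMod 2) r β →+* ℝ}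
    (hc : IsPC r t c) {R : Type} [CommRing R] [Algebra (ZMod 2) R] {Tt : Set (PrimeSpectrum R)}
    {x : Mot (ZMod 2) r β} (h : HasClass Tt x) :
    c x = Nat.card {φ : R →ₐ[ZMod 2] GaloisField 2 (r * t) | hccPt φ ∈ Tt} := by
  obtain ⟨m, P, ψ, hp, hd, hT, hx⟩ := h
  have hF : Finite (GaloisField 2 (r * t)) := inferInstance
  let S : Fin m → Set (R →ₐ[ZMod 2] GaloisField 2 (r * t)) := fun i =>
    {φ | hccPt φ ∈ Set.range (PrimeSpectrum.comap (ψ i).toRingHom)}
  have hS : {φ : R →ₐ[ZMod 2] GaloisField 2 (r * t) | hccPt φ ∈ Tt} = ⋃ i, S i := by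
    ext φ
    rw [hT]
    constructor
    · intro h1
      obtain ⟨i, hi⟩ := Set.mem_iUnion.1 h1
      exact Set.mem_iUnion.2 ⟨i, hi⟩
    · intro h1
      obtain ⟨i, hi⟩ := Set.mem_iUnion.1 h1
      exact Set.mem_iUnion.2 ⟨i, hi⟩
  have hdS : Pairwise (Function.onFun Disjoint S) := by
    intro i j hij
    have h1 := hd i j hij
    show Disjoint (S i) (S j)
    rw [Set.disjoint_left] at h1 ⊢
    intro φ hi hj
    exact h1 hi hj
  have hfin : ∀ i, Finite (S i) := by
    intro i
    obtain ⟨e⟩ := hcc_card (F := GaloisField 2 (r * t)) (ψ i) (hp i)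
    have := finite_hom (P i).A (GaloisField 2 (r * t))
    exact Finite.of_equiv _ e
  rw [hS, Nat.card_congr (Set.unionEqSigmaOfDisjoint hdS), Nat.card_sigma, hx, map_sum,
    Nat.cast_sum]
  refine Finset.sum_congr rfl fun i _ => ?_
  obtain ⟨e⟩ := hcc_card (F := GaloisField 2 (r * t)) (ψ i) (hp i)
  rw [hc.cls, Nat.card_congr e]

theorem pc_hasClass {β : Prop} {r t : ℕ} {c : Mot (ZMod 2) r β →+* ℝ} (hr : 0 < r) (ht : 0 < t)
    (hc : IsPC r t c) {R : Type} [CommRing R] [Algebra (ZMod 2) R] {Tt : Set (PrimeSpectrum R)}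
    {x x' : Mot (ZMod 2) r β} (h : HasClass Tt x) (h' : HasClass Tt x') : c x = c x' := by
  rw [hcc_count hc h, hcc_count hc h']

end H48SM

end S_Hcc

section S_Bna

/-! # Module BNA: the number of points is `O(q^dim)`

Proof.  `card_hom_le`: if `X.A` is trivial there are no homomorphisms (`F` is nontrivial).  Otherwise Noether normalisation
(`exists_finite_inj_algHom_of_fg` or similar in `Mathlib/RingTheory/NoetherNormalization.lean`): an injective finite
homomorphism `g : MvPolynomial (Fin s) (ZMod 2) →ₐ X.A`; the Krull dimension of `X.A` is at least that of the polynomial ring (integral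
extension: lying over / going up; grep `ringKrullDim` + `IsIntegral`), which is `s` (`MvPolynomial.ringKrullDim_of_isNoetherianRing`), so
`s ≤ D`.  `X.A` is generated as a module over `g` by finitely many elements `a_1, ..., a_m`, each a root of a monic polynomial
`p_j` over `MvPolynomial (Fin s)`.  A homomorphism `φ : X.A → F` is determined by `φ ∘ g` (at most `|F|^s` choices) and the
`φ a_j`, roots of the image of `p_j`, at most `natDegree p_j` choices each.  `C = ∏ natDegree p_j`.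
-/

set_option autoImplicit false

namespace H48SM

/-- lifting of chains of primes along an injective integral extension -/
theorem bna_lift_series {R S : Type} [CommRing R] [CommRing S] [Algebra R S]
    [Algebra.IsIntegral R S] (hinj : Function.Injective (algebraMap R S)) (n : ℕ) :
    ∀ p : LTSeries (PrimeSpectrum R), p.length = n →
      ∃ q : LTSeries (PrimeSpectrum S), q.length = n ∧
        PrimeSpectrum.comap (algebraMap R S) q.last = p.last := by
  induction n with
  | zero =>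
    intro p hp
    obtain ⟨Q, -, hQ, hQ'⟩ := Ideal.exists_ideal_over_prime_of_isIntegral (S := S)
      p.last.asIdeal ⊥ (by
        intro x hx
        have h0 : algebraMap R S x = 0 := by simpa using hx
        have : x = 0 := hinj (by rw [h0, map_zero])
        rw [this]
        exact Ideal.zero_mem _)
    refine ⟨RelSeries.singleton _ ⟨Q, hQ⟩, rfl, ?_⟩
    exact PrimeSpectrum.ext hQ'
  | succ n ih =>
    intro p hp
    obtain ⟨q, hq, hq'⟩ := ih p.eraseLast (by simp [hp])
    have hlt : p.eraseLast.last < p.last := by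
      have := p.eraseLast_last_rel_last (by omega)
      exact this
    obtain ⟨Q, hQ1, hQ, hQ'⟩ := Ideal.exists_ideal_over_prime_of_isIntegral (S := S)
      p.last.asIdeal q.last.asIdeal (by
        have h1 : (PrimeSpectrum.comap (algebraMap R S) q.last).asIdeal ≤ p.last.asIdeal := by
          rw [hq']
          exact hlt.le
        exact h1)
    have hne : q.last < ⟨Q, hQ⟩ := by
      refine lt_of_le_of_ne hQ1 ?_
      intro h
      have h2 : PrimeSpectrum.comap (algebraMap R S) q.last = p.last := by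
        rw [h]
        exact PrimeSpectrum.ext hQ'
      rw [hq'] at h2
      exact hlt.ne h2
    refine ⟨q.snoc ⟨Q, hQ⟩ hne, by simp [hq], ?_⟩
    rw [RelSeries.last_snoc]
    exact PrimeSpectrum.ext hQ'

theorem bna_krullDim_le {R S : Type} [CommRing R] [CommRing S] [Algebra R S]
    [Algebra.IsIntegral R S] (hinj : Function.Injective (algebraMap R S)) :
    ringKrullDim R ≤ ringKrullDim S := by
  unfold ringKrullDim Order.krullDim
  refine iSup_le fun p => ?_
  obtain ⟨q, hq, -⟩ := bna_lift_series hinj p.length p rfl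
  rw [← hq]
  exact le_iSup (fun q : LTSeries (PrimeSpectrum S) => (q.length : WithBot ℕ∞)) q

theorem bna_aux (A : Type) [CommRing A] [Algebra (ZMod 2) A] [Algebra.FiniteType (ZMod 2) A]
    (s : ℕ) (g : MvPolynomial (Fin s) (ZMod 2) →ₐ[ZMod 2] A) (hg : g.Finite) :
    ∃ C : ℕ, ∀ (F : Type) [Field F] [Finite F] [Algebra (ZMod 2) F],
      Nat.card (A →ₐ[ZMod 2] F) ≤ C * Nat.card F ^ s := by
  classical
  letI : Algebra (MvPolynomial (Fin s) (ZMod 2)) A := g.toRingHom.toAlgebra
  have hfin : Module.Finite (MvPolynomial (Fin s) (ZMod 2)) A := hg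
  obtain ⟨m, a, ha⟩ := Submodule.fg_iff_exists_fin_generating_family.mp hfin.fg_top
  have hint : ∀ j, ∃ p : Polynomial (MvPolynomial (Fin s) (ZMod 2)), p.Monic ∧
      p.eval₂ (algebraMap (MvPolynomial (Fin s) (ZMod 2)) A) (a j) = 0 := fun j =>
    (Algebra.IsIntegral.of_finite (MvPolynomial (Fin s) (ZMod 2)) A).isIntegral (a j)
  choose p hp1 hp2 using hint
  refine ⟨∏ j, (p j).natDegree, ?_⟩
  intro F _ _ _
  have := finite_hom A F
  letI := Fintype.ofFinite (A →ₐ[ZMod 2] F)
  letI := Fintype.ofFinite F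
  set f : (A →ₐ[ZMod 2] F) → (Fin s → F) := fun φ i => φ (g (MvPolynomial.X i)) with hf
  have hkey : ∀ φ : A →ₐ[ZMod 2] F, ∀ c, φ (g c) = MvPolynomial.aeval (f φ) c := by
    intro φ c
    have : φ.comp g = MvPolynomial.aeval (f φ) := by
      apply MvPolynomial.algHom_ext
      intro i
      simp [hf]
    rw [← this]
    rfl
  have h1 : (Finset.univ : Finset (A →ₐ[ZMod 2] F)).card ≤
      (∏ j, (p j).natDegree) * ((Finset.univ : Finset (A →ₐ[ZMod 2] F)).image f).card := by
    apply Finset.card_le_mul_card_image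
    intro v _
    have h2 : (Fintype.piFinset fun j : Fin m =>
        ((p j).map (MvPolynomial.aeval v : MvPolynomial (Fin s) (ZMod 2) →ₐ[ZMod 2] F).toRingHom
          ).roots.toFinset).card ≤ ∏ j, (p j).natDegree := by
      rw [Fintype.card_piFinset]
      apply Finset.prod_le_prod'
      intro j _
      exact ((Multiset.toFinset_card_le _).trans (Polynomial.card_roots' _)).trans
        Polynomial.natDegree_map_le
    refine le_trans ?_ h2
    apply Finset.card_le_card_of_injOn (fun φ j => φ (a j))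
    · intro φ hφ
      rw [Finset.mem_coe, Finset.mem_filter] at hφ
      rw [Finset.mem_coe, Fintype.mem_piFinset]
      intro j
      rw [Multiset.mem_toFinset, Polynomial.mem_roots ((hp1 j).map _).ne_zero,
        Polynomial.IsRoot.def, Polynomial.eval_map]
      have h3 := congrArg φ (hp2 j)
      rw [map_zero, ← AlgHom.coe_toRingHom, Polynomial.hom_eval₂] at h3
      rw [← h3]
      have h6 : (MvPolynomial.aeval v : MvPolynomial (Fin s) (ZMod 2) →ₐ[ZMod 2] F).toRingHom =
          ((φ : A →+* F).comp (algebraMap (MvPolynomial (Fin s) (ZMod 2)) A)) := by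
        apply RingHom.ext
        intro c
        have h7 : φ (g c) = MvPolynomial.aeval v c := by rw [hkey, hφ.2]
        exact h7.symm
      rw [h6]
      rfl
    · intro φ hφ φ' hφ' h
      rw [Finset.mem_coe, Finset.mem_filter] at hφ hφ'
      have h4 : ∀ x : A, x ∈ Submodule.span (MvPolynomial (Fin s) (ZMod 2)) (Set.range a) →
          φ x = φ' x := by
        intro x hx
        induction hx using Submodule.span_induction with
        | mem x hx =>
          obtain ⟨j, rfl⟩ := hx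
          exact congrFun h j
        | zero => rw [map_zero, map_zero]
        | add x y _ _ hx hy => rw [map_add, map_add, hx, hy]
        | smul c x _ hx =>
          have : c • x = g c * x := rfl
          rw [this, map_mul, map_mul, hx, hkey, hkey, hφ.2, hφ'.2]
      ext x
      exact h4 x (by rw [ha]; trivial)
  have h5 : ((Finset.univ : Finset (A →ₐ[ZMod 2] F)).image f).card ≤ Fintype.card F ^ s := by
    refine (Finset.card_le_univ _).trans ?_
    rw [Fintype.card_fun, Fintype.card_fin]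
  rw [Nat.card_eq_fintype_card, Nat.card_eq_fintype_card, ← Finset.card_univ]
  exact h1.trans (Nat.mul_le_mul_left _ h5)

theorem card_hom_le (X : Aff (ZMod 2)) (D : ℕ) (hD : ringKrullDim X.A ≤ D) :
    ∃ C : ℕ, ∀ (F : Type) [Field F] [Finite F] [Algebra (ZMod 2) F],
      Nat.card (X.A →ₐ[ZMod 2] F) ≤ C * Nat.card F ^ D := by
  rcases subsingleton_or_nontrivial X.A with hs | hn
  · refine ⟨0, ?_⟩
    intro F _ _ _
    have : IsEmpty (X.A →ₐ[ZMod 2] F) := by
      refine ⟨fun φ => ?_⟩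
      have h1 : φ 1 = φ 0 := by rw [Subsingleton.elim (1 : X.A) 0]
      rw [map_one, map_zero] at h1
      exact one_ne_zero h1
    rw [Nat.card_of_isEmpty]
    exact Nat.zero_le _
  · obtain ⟨s, g, hinj, hfin⟩ := exists_finite_inj_algHom_of_fg (ZMod 2) X.A
    have hsD : s ≤ D := by
      letI : Algebra (MvPolynomial (Fin s) (ZMod 2)) X.A := g.toRingHom.toAlgebra
      have hfin' : Module.Finite (MvPolynomial (Fin s) (ZMod 2)) X.A := hfin
      have := Algebra.IsIntegral.of_finite (MvPolynomial (Fin s) (ZMod 2)) X.A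
      have h1 := bna_krullDim_le (R := MvPolynomial (Fin s) (ZMod 2)) (S := X.A) hinj
      rw [MvPolynomial.ringKrullDim_of_isNoetherianRing, ringKrullDim_eq_zero_of_field] at h1
      have h2 := h1.trans hD
      simp only [zero_add, Nat.card_eq_fintype_card, Fintype.card_fin] at h2
      exact_mod_cast h2
    obtain ⟨C, hC⟩ := bna_aux X.A s g hfin
    refine ⟨C, ?_⟩
    intro F _ _ _
    refine (hC F).trans (Nat.mul_le_mul_left _ (Nat.pow_le_pow_right ?_ hsD))
    exact Nat.card_pos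

end H48SM

end S_Bna

section S_Bnd

/-! # Module BND: bounds for numbers of points

Proofs.  `fil_bound`: `AddSubgroup.closure_induction`; generators: `|c (cls X * qpow j)| ≤ C (2^(r t))^D * (2^t)^j = C 2^(t (r D + j)) ≤ C (1/2)^(t m)`.
`mot_bound`: every element of `Mot` is `mkRingHom` of a polynomial (`RingQuot.mkRingHom_surjective`): `MvPolynomial.induction_on`; `cls X`:
an integer, bounded by `C 2^(t r D)` (the Krull dimension is finite: `X.A` is a quotient of a polynomial ring); `q`: `2^t`; `qi`: `(2^t)⁻¹`; sums,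
products: enlarge `J`.
-/

set_option autoImplicit false

namespace H48SM

theorem bnd_qqi {β : Prop} {r t : ℕ} {c : Mot (ZMod 2) r β →+* ℝ} (hc : IsPC r t c) :
    c (qqi (ZMod 2) r) = (2 ^ t)⁻¹ := by
  have h : qq (ZMod 2) r * qqi (ZMod 2) r = (1 : Mot (ZMod 2) r β) := by
    have h1 := RingQuot.mkRingHom_rel (Rel.inv (k := ZMod 2) (r := r) (β := β))
    rw [map_mul, map_one] at h1
    exact h1
  have h2 := congrArg c h
  rw [map_mul, map_one, hc.q] at h2
  exact eq_inv_of_mul_eq_one_right h2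

theorem bnd_qpow {β : Prop} {r t : ℕ} {c : Mot (ZMod 2) r β →+* ℝ} (hc : IsPC r t c) (j : ℤ) :
    c (qpow (ZMod 2) r j) = ((2 : ℝ) ^ t) ^ j := by
  unfold qpow
  rw [map_mul, map_pow, map_pow, hc.q, bnd_qqi hc]
  obtain ⟨n, rfl | rfl⟩ := j.eq_nat_or_neg
  · simp
  · simp

theorem bnd_cls {r : ℕ} (hr : 0 < r) (X : Aff (ZMod 2)) (D : ℕ) (hD : ringKrullDim X.A ≤ D) :
    ∃ C : ℝ, 0 ≤ C ∧ ∀ t > 0, ∀ (β : Prop) (c : Mot (ZMod 2) r β →+* ℝ), IsPC r t c →
      0 ≤ c (cls r X) ∧ c (cls r X) ≤ C * ((2 : ℝ) ^ t) ^ (r * D) := by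
  obtain ⟨C, hC⟩ := card_hom_le X D hD
  refine ⟨C, Nat.cast_nonneg C, fun t ht β c hc => ?_⟩
  rw [hc.cls]
  refine ⟨Nat.cast_nonneg _, ?_⟩
  have h1 := hC (GaloisField 2 (r * t))
  rw [GaloisField.card 2 (r * t) (Nat.mul_pos hr ht).ne'] at h1
  have h2 : (Nat.card (X.A →ₐ[ZMod 2] GaloisField 2 (r * t)) : ℝ) ≤
      ((C * (2 ^ (r * t)) ^ D : ℕ) : ℝ) := Nat.cast_le.2 h1
  refine h2.trans (le_of_eq ?_)
  push_cast
  rw [← pow_mul, ← pow_mul]
  congr 2
  ring

theorem fil_bound {β : Prop} {r : ℕ} (hr : 0 < r) (m : ℕ) (ξ : Mot (ZMod 2) r β)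
    (h : ξ ∈ Fil (ZMod 2) r m) :
    ∃ C : ℝ, ∀ t > 0, ∀ c, IsPC r t c → |c ξ| ≤ C * (1 / 2) ^ (t * m) := by
  unfold Fil at h
  induction h using AddSubgroup.closure_induction with
  | mem x hx =>
    obtain ⟨X, D, j, hD, hj, rfl⟩ := hx
    obtain ⟨C, hC0, hC⟩ := bnd_cls hr X D hD
    refine ⟨C, fun t ht c hc => ?_⟩
    obtain ⟨h1, h2⟩ := hC t ht β c hc
    have hp : (0 : ℝ) < 2 ^ t := by positivity
    have hp1 : (1 : ℝ) ≤ 2 ^ t := one_le_pow₀ (by norm_num)
    rw [map_mul, bnd_qpow hc, abs_of_nonneg (by positivity)]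
    calc c (cls r X) * ((2 : ℝ) ^ t) ^ j ≤ C * ((2 : ℝ) ^ t) ^ (r * D) * ((2 : ℝ) ^ t) ^ j :=
          mul_le_mul_of_nonneg_right h2 (by positivity)
      _ = C * ((2 : ℝ) ^ t) ^ ((r : ℤ) * D + j) := by
          rw [mul_assoc, ← zpow_natCast ((2 : ℝ) ^ t) (r * D), ← zpow_add₀ hp.ne']
          push_cast
          rfl
      _ ≤ C * ((2 : ℝ) ^ t) ^ (-(m : ℤ)) :=
          mul_le_mul_of_nonneg_left (zpow_le_zpow_right₀ hp1 hj) hC0
      _ = C * (1 / 2) ^ (t * m) := by
          rw [zpow_neg, zpow_natCast, ← pow_mul, one_div, inv_pow]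
  | zero =>
    refine ⟨0, fun t _ c _ => ?_⟩
    rw [map_zero, abs_zero, zero_mul]
  | add x y _ _ hx hy =>
    obtain ⟨C, hC⟩ := hx
    obtain ⟨C', hC'⟩ := hy
    refine ⟨C + C', fun t ht c hc => ?_⟩
    rw [map_add, add_mul]
    exact (abs_add_le _ _).trans (add_le_add (hC t ht c hc) (hC' t ht c hc))
  | neg x _ hx =>
    obtain ⟨C, hC⟩ := hx
    refine ⟨C, fun t ht c hc => ?_⟩
    rw [map_neg, abs_neg]
    exact hC t ht c hc

/-- the property in `mot_bound` -/
def BndP {β : Prop} (r : ℕ) (ξ : Mot (ZMod 2) r β) : Prop :=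
  ∃ (J : ℕ) (C : ℝ), ∀ t > 0, ∀ c, IsPC r t c →
      |c ξ| ≤ C * 2 ^ (t * J) ∧ ∃ z : ℤ, c ξ * 2 ^ (t * J) = z

theorem bnd_krull (X : Aff (ZMod 2)) : ∃ D : ℕ, ringKrullDim X.A ≤ D := by
  obtain ⟨n, f, hf⟩ := Algebra.FiniteType.iff_quotient_mvPolynomial''.1 X.fin
  refine ⟨n, ?_⟩
  have h1 := ringKrullDim_le_of_surjective f.toRingHom hf
  have h2 : ringKrullDim (MvPolynomial (Fin n) (ZMod 2)) = n := by
    rw [MvPolynomial.ringKrullDim_of_isNoetherianRing, ringKrullDim_eq_zero_of_field]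
    simp
  rw [h2] at h1
  exact h1

theorem BndP.add {β : Prop} {r : ℕ} {ξ η : Mot (ZMod 2) r β} (h : BndP r ξ) (h' : BndP r η) :
    BndP r (ξ + η) := by
  obtain ⟨J, C, h⟩ := h
  obtain ⟨J', C', h'⟩ := h'
  refine ⟨J + J', |C| + |C'|, fun t ht c hc => ?_⟩
  obtain ⟨h1, z, hz⟩ := h t ht c hc
  obtain ⟨h1', z', hz'⟩ := h' t ht c hc
  have e : (2 : ℝ) ^ (t * (J + J')) = 2 ^ (t * J) * 2 ^ (t * J') := by rw [mul_add, pow_add]
  have hp : (1 : ℝ) ≤ 2 ^ (t * J) := one_le_pow₀ (by norm_num)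
  have hp' : (1 : ℝ) ≤ 2 ^ (t * J') := one_le_pow₀ (by norm_num)
  rw [map_add, e]
  constructor
  · have h2 : C * 2 ^ (t * J) ≤ |C| * (2 ^ (t * J) * 2 ^ (t * J')) := by
      calc C * 2 ^ (t * J) ≤ |C| * 2 ^ (t * J) :=
            mul_le_mul_of_nonneg_right (le_abs_self C) (by positivity)
        _ ≤ |C| * (2 ^ (t * J) * 2 ^ (t * J')) :=
            mul_le_mul_of_nonneg_left (le_mul_of_one_le_right (by positivity) hp') (abs_nonneg C)
    have h2' : C' * 2 ^ (t * J') ≤ |C'| * (2 ^ (t * J) * 2 ^ (t * J')) := by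
      calc C' * 2 ^ (t * J') ≤ |C'| * 2 ^ (t * J') :=
            mul_le_mul_of_nonneg_right (le_abs_self C') (by positivity)
        _ ≤ |C'| * (2 ^ (t * J) * 2 ^ (t * J')) :=
            mul_le_mul_of_nonneg_left (le_mul_of_one_le_left (by positivity) hp) (abs_nonneg C')
    rw [add_mul]
    exact (abs_add_le _ _).trans (add_le_add (h1.trans h2) (h1'.trans h2'))
  · refine ⟨z * 2 ^ (t * J') + z' * 2 ^ (t * J), ?_⟩
    push_cast
    rw [← hz, ← hz']
    ring

theorem BndP.mul {β : Prop} {r : ℕ} {ξ η : Mot (ZMod 2) r β} (h : BndP r ξ) (h' : BndP r η) :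
    BndP r (ξ * η) := by
  obtain ⟨J, C, h⟩ := h
  obtain ⟨J', C', h'⟩ := h'
  refine ⟨J + J', |C| * |C'|, fun t ht c hc => ?_⟩
  obtain ⟨h1, z, hz⟩ := h t ht c hc
  obtain ⟨h1', z', hz'⟩ := h' t ht c hc
  have e : (2 : ℝ) ^ (t * (J + J')) = 2 ^ (t * J) * 2 ^ (t * J') := by rw [mul_add, pow_add]
  rw [map_mul, e]
  constructor
  · have h2 : C * 2 ^ (t * J) ≤ |C| * 2 ^ (t * J) :=
      mul_le_mul_of_nonneg_right (le_abs_self C) (by positivity)
    have h2' : C' * 2 ^ (t * J') ≤ |C'| * 2 ^ (t * J') :=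
      mul_le_mul_of_nonneg_right (le_abs_self C') (by positivity)
    rw [abs_mul]
    calc |c ξ| * |c η| ≤ (|C| * 2 ^ (t * J)) * (|C'| * 2 ^ (t * J')) :=
          mul_le_mul (h1.trans h2) (h1'.trans h2') (abs_nonneg _) (by positivity)
      _ = |C| * |C'| * (2 ^ (t * J) * 2 ^ (t * J')) := by ring
  · refine ⟨z * z', ?_⟩
    push_cast
    rw [← hz, ← hz']
    ring

theorem mot_bound {β : Prop} {r : ℕ} (hr : 0 < r) (ξ : Mot (ZMod 2) r β) :
    ∃ (J : ℕ) (C : ℝ), ∀ t > 0, ∀ c, IsPC r t c →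
      |c ξ| ≤ C * 2 ^ (t * J) ∧ ∃ z : ℤ, c ξ * 2 ^ (t * J) = z := by
  change BndP r ξ
  obtain ⟨p, hp⟩ := RingQuot.mkRingHom_surjective (Rel (ZMod 2) r β) ξ
  rw [← hp]
  clear hp ξ
  induction p using MvPolynomial.induction_on with
  | C a =>
    refine ⟨0, |(a : ℝ)|, fun t _ c _ => ?_⟩
    have h1 : RingQuot.mkRingHom (Rel (ZMod 2) r β) (MvPolynomial.C a) =
        ((a : ℤ) : RingQuot (Rel (ZMod 2) r β)) := by
      have h2 : (MvPolynomial.C a : MvPolynomial (Gen (ZMod 2)) ℤ) = ((a : ℤ) :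
        MvPolynomial (Gen (ZMod 2)) ℤ) := by simp
      rw [h2, map_intCast]
    have h3 : c (RingQuot.mkRingHom (Rel (ZMod 2) r β) (MvPolynomial.C a)) = (a : ℝ) := by
      rw [h1]
      exact map_intCast c a
    rw [h3]
    refine ⟨by simp, a, by simp⟩
  | add p q hp hq =>
    rw [map_add]
    exact BndP.add hp hq
  | mul_X p i hp =>
    rw [map_mul]
    refine BndP.mul hp ?_
    cases i with
    | cls X =>
      obtain ⟨D, hD⟩ := bnd_krull X
      obtain ⟨C, hC0, hC⟩ := bnd_cls hr X D hD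
      refine ⟨r * D, C, fun t ht c hc => ?_⟩
      obtain ⟨h1, h2⟩ := hC t ht β c hc
      have e : (2 : ℝ) ^ (t * (r * D)) = (2 ^ t) ^ (r * D) := by rw [pow_mul]
      have h3 : c (RingQuot.mkRingHom (Rel (ZMod 2) r β) (MvPolynomial.X (Gen.cls X))) =
        c (cls r X) := rfl
      rw [h3, e]
      refine ⟨by rw [abs_of_nonneg h1]; exact h2,
        (Nat.card (X.A →ₐ[ZMod 2] GaloisField 2 (r * t)) : ℤ) * (2 ^ t) ^ (r * D), ?_⟩
      rw [hc.cls]
      push_cast
      rfl
    | q =>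
      refine ⟨1, 1, fun t _ c hc => ?_⟩
      have h3 : c (RingQuot.mkRingHom (Rel (ZMod 2) r β) (MvPolynomial.X Gen.q)) = 2 ^ t := hc.q
      rw [h3]
      refine ⟨by rw [mul_one, one_mul, abs_of_nonneg (by positivity)], 2 ^ t * 2 ^ t, ?_⟩
      push_cast
      rw [mul_one]
    | qi =>
      refine ⟨1, 1, fun t _ c hc => ?_⟩
      have h3 : c (RingQuot.mkRingHom (Rel (ZMod 2) r β) (MvPolynomial.X Gen.qi)) = (2 ^ t)⁻¹ :=
        bnd_qqi hc
      have hp1 : (1 : ℝ) ≤ 2 ^ t := one_le_pow₀ (by norm_num)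
      rw [h3]
      refine ⟨?_, 1, ?_⟩
      · rw [mul_one, one_mul, abs_of_nonneg (by positivity)]
        exact (inv_le_one_of_one_le₀ hp1).trans hp1
      · rw [mul_one, inv_mul_cancel₀ (by positivity)]
        simp

end H48SM

end S_Bnd
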