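import Mathlib
import Pool.Agent.H48.SL.M1

set_option autoImplicit false

/-! Stringy motives of linear quotients, part M8: this file joins several modules to save build time. -/

section S_NumV

/-! # Module NUMV: the series of the fractions, in numbers

`c` is the realisation for the field with `2^(r t)` elements, `c (qpow j) = (2^t)^j` (from `IsPC.q` and `qq * qqi = 1`, relation `inv`
of `Rel`; prove it here, `zpow`).
Proof of `num_v`: `y_l = 2^{-t a_l} ≤ 2^{-t} ≤ 1/2` (`a_l ≥ 1`); `∑_N ∑_{|m|=N} ∏_l y_l^{m_l+1} = ∏_l y_l/(1-y_l) =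
∏_l 1/(2^{t a_l} - 1)` (a product of `s` geometric series; `Finset.Nat.antidiagonalTuple` sums; induction on `s` with Cauchy products
(`tsum_mul_tsum_eq_tsum_sum_antidiagonal...`), or summation over `Fin s → ℕ` (`prod_univ_tsum`-like) fibered over `∑ m`).
The tail over `|m| ≥ M` is at most `∑_{N ≥ M} #antidiagonalTuple s N * (2^{-t})^{N} ≤ (2^{-t})^M * C_M` with
`C_M = ∑_j #antidiagonalTuple s (M+j) (1/2)^j` (`# ≤ (N+1)^s`); and `|c ξ_i| ≤ C₀ 2^(t J)` is given by `hξ`.  So `M₀ = J + m`,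
`C = n C₀ C_M`.
-/

set_option autoImplicit false

namespace H48SM

/-- NUMV: weighted sum over the tuples of sum `N` -/
noncomputable def numv_W (s : ℕ) (y : Fin s → ℝ) (N : ℕ) : ℝ :=
  ∑ m ∈ Finset.Nat.antidiagonalTuple s N, ∏ l, y l ^ m l

theorem numv_succ (s N : ℕ) (y : Fin (s + 1) → ℝ) :
    numv_W (s + 1) y N =
      ∑ p ∈ Finset.HasAntidiagonal.antidiagonal N, y 0 ^ p.1 * numv_W s (fun l => y l.succ) p.2 := by
  unfold numv_W
  simp only [Finset.mul_sum]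
  rw [Finset.sum_sigma']
  refine Finset.sum_nbij' (fun m => ⟨(m 0, ∑ l : Fin s, m l.succ), Fin.tail m⟩)
    (fun x => Fin.cons x.1.1 x.2) ?_ ?_ ?_ ?_ ?_
  · intro m hm
    rw [Finset.Nat.mem_antidiagonalTuple, Fin.sum_univ_succ] at hm
    rw [Finset.mem_sigma, Finset.HasAntidiagonal.mem_antidiagonal, Finset.Nat.mem_antidiagonalTuple]
    exact ⟨hm, rfl⟩
  · intro x hx
    rw [Finset.mem_sigma, Finset.HasAntidiagonal.mem_antidiagonal, Finset.Nat.mem_antidiagonalTuple] at hx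
    rw [Finset.Nat.mem_antidiagonalTuple, Fin.sum_univ_succ]
    simp only [Fin.cons_zero, Fin.cons_succ]
    rw [hx.2]
    exact hx.1
  · intro m _
    exact Fin.cons_self_tail m
  · rintro ⟨⟨a, b⟩, x⟩ hx
    rw [Finset.mem_sigma, Finset.HasAntidiagonal.mem_antidiagonal, Finset.Nat.mem_antidiagonalTuple] at hx
    simp only at hx
    simp only [Fin.cons_zero, Fin.cons_succ, Fin.tail_cons, hx.2]
  · intro m _
    rw [Fin.prod_univ_succ]
    rfl

theorem numv_nonneg (s : ℕ) (y : Fin s → ℝ) (h0 : ∀ l, 0 ≤ y l) (N : ℕ) : 0 ≤ numv_W s y N :=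
  Finset.sum_nonneg (fun m _ => Finset.prod_nonneg (fun l _ => pow_nonneg (h0 l) _))

theorem numv_sum (s : ℕ) : ∀ y : Fin s → ℝ, (∀ l, 0 ≤ y l) → (∀ l, y l < 1) →
    Summable (numv_W s y) ∧ ∑' N, numv_W s y N = ∏ l, (1 - y l)⁻¹ := by
  induction s with
  | zero =>
    intro y _ _
    have h : ∀ N, N ≠ 0 → numv_W 0 y N = 0 := by
      intro N hN
      obtain ⟨n, rfl⟩ := Nat.exists_eq_succ_of_ne_zero hN
      unfold numv_W
      rw [Finset.Nat.antidiagonalTuple_zero_succ, Finset.sum_empty]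
    have h0 : numv_W 0 y 0 = 1 := by
      unfold numv_W
      rw [Finset.Nat.antidiagonalTuple_zero_zero, Finset.sum_singleton]
      simp
    have hs := hasSum_single (f := numv_W 0 y) 0 h
    rw [h0] at hs
    refine ⟨hs.summable, ?_⟩
    rw [hs.tsum_eq]
    simp
  | succ s ih =>
    intro y h0 h1
    obtain ⟨hs, ht⟩ := ih (fun l => y l.succ) (fun l => h0 _) (fun l => h1 _)
    have hf : Summable (fun n : ℕ => ‖y 0 ^ n‖) := by
      have := summable_geometric_of_lt_one (h0 0) (h1 0)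
      refine this.congr (fun n => ?_)
      rw [Real.norm_eq_abs, abs_of_nonneg (pow_nonneg (h0 0) _)]
    have hg : Summable (fun n : ℕ => ‖numv_W s (fun l => y l.succ) n‖) := by
      refine hs.congr (fun n => ?_)
      rw [Real.norm_eq_abs, abs_of_nonneg (numv_nonneg _ _ (fun l => h0 _) _)]
    have e : numv_W (s + 1) y = fun N => ∑ p ∈ Finset.HasAntidiagonal.antidiagonal N,
        y 0 ^ p.1 * numv_W s (fun l => y l.succ) p.2 := by
      funext N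
      exact numv_succ s N y
    rw [e]
    refine ⟨(summable_norm_sum_mul_antidiagonal_of_summable_norm hf hg).of_norm, ?_⟩
    rw [← tsum_mul_tsum_eq_tsum_sum_antidiagonal_of_summable_norm hf hg, ht,
      tsum_geometric_of_lt_one (h0 0) (h1 0), Fin.prod_univ_succ]

/-- NUMV: the constant in the estimate of the tail -/
noncomputable def numv_C (s M : ℕ) (z : ℝ) : ℝ :=
  ∑' j : ℕ, ((Finset.Nat.antidiagonalTuple s (j + M)).card : ℝ) * z ^ j

theorem numv_const (s : ℕ) (z : ℝ) (N : ℕ) :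
    numv_W s (fun _ => z) N = ((Finset.Nat.antidiagonalTuple s N).card : ℝ) * z ^ N := by
  unfold numv_W
  rw [Finset.sum_congr rfl (g := fun _ => z ^ N) (fun m hm => by
    rw [Finset.prod_pow_eq_pow_sum, Finset.Nat.mem_antidiagonalTuple.1 hm])]
  rw [Finset.sum_const, nsmul_eq_mul]

theorem numv_summ (s M : ℕ) {z : ℝ} (h0 : 0 < z) (h1 : z < 1) :
    Summable (fun j : ℕ => ((Finset.Nat.antidiagonalTuple s (j + M)).card : ℝ) * z ^ j) := by
  have h := (numv_sum s (fun _ => z) (fun _ => h0.le) (fun _ => h1)).1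
  have h2 := ((summable_nat_add_iff M).2 h).mul_right (z ^ M)⁻¹
  refine h2.congr (fun j => ?_)
  rw [numv_const, pow_add]
  have : z ^ M ≠ 0 := (pow_pos h0 M).ne'
  field_simp

theorem numv_tail (s M : ℕ) (y : Fin s → ℝ) {z z0 : ℝ} (h0 : ∀ l, 0 ≤ y l) (hz : ∀ l, y l ≤ z)
    (hz0 : 0 ≤ z) (hzz : z ≤ z0) (hz0p : 0 < z0) (hz1 : z0 < 1) :
    |∑ N ∈ Finset.range M, numv_W s y N - ∏ l, (1 - y l)⁻¹| ≤ numv_C s M z0 * z ^ M := by
  obtain ⟨hs, ht⟩ := numv_sum s y h0 (fun l => (hz l).trans_lt (hzz.trans_lt hz1))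
  rw [← ht, ← hs.sum_add_tsum_nat_add M]
  have e : ∑ N ∈ Finset.range M, numv_W s y N -
      (∑ N ∈ Finset.range M, numv_W s y N + ∑' j, numv_W s y (j + M)) =
      -∑' j, numv_W s y (j + M) := by ring
  rw [e, abs_neg, abs_of_nonneg (tsum_nonneg (fun j => numv_nonneg s y h0 _))]
  unfold numv_C
  rw [← tsum_mul_right]
  refine ((summable_nat_add_iff M).2 hs).tsum_le_tsum (fun j => ?_)
    ((numv_summ s M hz0p hz1).mul_right _)
  calc numv_W s y (j + M) ≤ numv_W s (fun _ => z) (j + M) := by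
        unfold numv_W
        refine Finset.sum_le_sum (fun m _ => Finset.prod_le_prod (fun l _ => pow_nonneg (h0 l) _)
          (fun l _ => pow_le_pow_left₀ (h0 l) (hz l) _))
    _ = ((Finset.Nat.antidiagonalTuple s (j + M)).card : ℝ) * (z ^ j * z ^ M) := by
        rw [numv_const, pow_add]
    _ ≤ ((Finset.Nat.antidiagonalTuple s (j + M)).card : ℝ) * (z0 ^ j * z ^ M) := by
        gcongr
    _ = ((Finset.Nat.antidiagonalTuple s (j + M)).card : ℝ) * z0 ^ j * z ^ M := by ring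

theorem numv_C_nonneg (s M : ℕ) {z : ℝ} (h0 : 0 ≤ z) : 0 ≤ numv_C s M z :=
  tsum_nonneg (fun _ => by positivity)

/-- NUMV: the realisation of `q⁻¹` -/
theorem numv_qi {β : Prop} {r t : ℕ} {c : Mot (ZMod 2) r β →+* ℝ} (hc : IsPC r t c) :
    c (qqi (ZMod 2) r) = ((2 : ℝ) ^ t)⁻¹ := by
  have h1 : (qq (ZMod 2) r : Mot (ZMod 2) r β) * qqi (ZMod 2) r = 1 := by
    have h2 := RingQuot.mkRingHom_rel (Rel.inv (k := ZMod 2) (r := r) (β := β))
    rw [map_mul, map_one] at h2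
    exact h2
  have h3 := congrArg c h1
  rw [map_mul, map_one, hc.q] at h3
  exact eq_inv_of_mul_eq_one_right h3

/-- NUMV: the realisation of the powers of `q` -/
theorem numv_qpow {β : Prop} {r t : ℕ} {c : Mot (ZMod 2) r β →+* ℝ} (hc : IsPC r t c) (j : ℤ) :
    c (qpow (ZMod 2) r j) = ((2 : ℝ) ^ t) ^ j := by
  unfold qpow
  rw [map_mul, map_pow, map_pow, hc.q, numv_qi hc]
  rcases le_total 0 j with h | h
  · obtain ⟨n, rfl⟩ := Int.eq_ofNat_of_zero_le h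
    simp
  · obtain ⟨n, hn⟩ := Int.eq_ofNat_of_zero_le (Int.neg_nonneg_of_nonpos h)
    have hj : j = -(n : ℤ) := by omega
    subst hj
    simp

theorem num_v {β : Prop} {r : ℕ} (hr : 0 < r) (s n : ℕ) (ξ : Fin n → Mot (ZMod 2) r β)
    (a : Fin n → Fin s → ℕ)
    (ha : ∀ i l, 0 < a i l) (J : ℕ) (C₀ : ℝ)
    (hξ : ∀ i, ∀ t > 0, ∀ c, IsPC r t c → |c (ξ i)| ≤ C₀ * 2 ^ (t * J)) (m : ℕ) :
    ∃ M₀ : ℕ, ∀ M ≥ M₀, ∃ C : ℝ, ∀ t > 0, ∀ c, IsPC r t c →
      |∑ N ∈ Finset.range M, c (fracSum s n ξ a N) -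
        ∑ i, c (ξ i) * ∏ l, (1 / ((2 : ℝ) ^ (t * a i l) - 1))| ≤ C * (1 / 2) ^ (t * m) := by
  refine ⟨J + m, fun M hM => ⟨n * (|C₀| * numv_C s M (1 / 2)), fun t ht c hc => ?_⟩⟩
  have hx : (1 : ℝ) < 2 ^ t := one_lt_pow₀ (by norm_num) (by omega)
  have hx0 : (0 : ℝ) < 2 ^ t := by positivity
  -- the value of a term
  have hterm : ∀ i N, c (∑ m ∈ Finset.Nat.antidiagonalTuple s N,
      ∏ l, qpow (ZMod 2) r (-((a i l : ℤ) * (m l + 1)))) =
      (∏ l, ((2 : ℝ) ^ (t * a i l))⁻¹) * numv_W s (fun l => ((2 : ℝ) ^ (t * a i l))⁻¹) N := by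
    intro i N
    unfold numv_W
    rw [map_sum, Finset.mul_sum]
    refine Finset.sum_congr rfl (fun m _ => ?_)
    rw [map_prod, ← Finset.prod_mul_distrib]
    refine Finset.prod_congr rfl (fun l _ => ?_)
    rw [numv_qpow hc, zpow_neg, ← inv_zpow, mul_add, mul_one, zpow_add₀ (by positivity)]
    have e1 : (((2 : ℝ) ^ t)⁻¹) ^ ((a i l : ℤ) * (m l : ℤ)) = (((2 : ℝ) ^ (t * a i l))⁻¹) ^ m l := by
      rw [← Nat.cast_mul, zpow_natCast, pow_mul, inv_pow, ← pow_mul]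
    have e2 : (((2 : ℝ) ^ t)⁻¹) ^ (a i l : ℤ) = ((2 : ℝ) ^ (t * a i l))⁻¹ := by
      rw [zpow_natCast, inv_pow, ← pow_mul]
    rw [e1, e2, mul_comm]
  have hsum : ∑ N ∈ Finset.range M, c (fracSum s n ξ a N) =
      ∑ i, c (ξ i) * ((∏ l, ((2 : ℝ) ^ (t * a i l))⁻¹) *
        ∑ N ∈ Finset.range M, numv_W s (fun l => ((2 : ℝ) ^ (t * a i l))⁻¹) N) := by
    unfold fracSum
    simp only [map_sum c, map_mul]
    rw [Finset.sum_comm]
    refine Finset.sum_congr rfl (fun i _ => ?_)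
    rw [Finset.mul_sum, Finset.mul_sum]
    refine Finset.sum_congr rfl (fun N _ => ?_)
    rw [← hterm i N, map_sum]
  have hy1 : ∀ i l, (1 : ℝ) < 2 ^ (t * a i l) := fun i l =>
    one_lt_pow₀ (by norm_num) (Nat.mul_pos ht (ha i l)).ne'
  have hprod : ∀ i, ∏ l, (1 / ((2 : ℝ) ^ (t * a i l) - 1)) =
      (∏ l, ((2 : ℝ) ^ (t * a i l))⁻¹) * ∏ l, (1 - ((2 : ℝ) ^ (t * a i l))⁻¹)⁻¹ := by
    intro i
    rw [← Finset.prod_mul_distrib]
    refine Finset.prod_congr rfl (fun l _ => ?_)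
    have h1 := hy1 i l
    have h2 : (2 : ℝ) ^ (t * a i l) - 1 ≠ 0 := by linarith
    have h3 : (2 : ℝ) ^ (t * a i l) ≠ 0 := by positivity
    field_simp
  rw [hsum, ← Finset.sum_sub_distrib]
  refine (Finset.abs_sum_le_sum_abs _ _).trans ?_
  have hone : ∀ i : Fin n, |c (ξ i) * ((∏ l, ((2 : ℝ) ^ (t * a i l))⁻¹) *
        ∑ N ∈ Finset.range M, numv_W s (fun l => ((2 : ℝ) ^ (t * a i l))⁻¹) N) -
        c (ξ i) * ∏ l, (1 / ((2 : ℝ) ^ (t * a i l) - 1))| ≤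
      (|C₀| * numv_C s M (1 / 2)) * (1 / 2) ^ (t * m) := by
    intro i
    rw [hprod i, ← mul_sub, ← mul_sub, abs_mul, abs_mul]
    have h1 : |∏ l, ((2 : ℝ) ^ (t * a i l))⁻¹| ≤ 1 := by
      rw [abs_of_nonneg (Finset.prod_nonneg (fun l _ => by positivity))]
      exact Finset.prod_le_one (fun l _ => by positivity) (fun l _ => inv_le_one_of_one_le₀ (hy1 i l).le)
    have h2 := numv_tail s M (fun l => ((2 : ℝ) ^ (t * a i l))⁻¹) (z := ((2 : ℝ) ^ t)⁻¹) (z0 := 1 / 2)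
      (fun l => by positivity) (fun l => by
        refine inv_anti₀ hx0 (pow_le_pow_right₀ (by norm_num) ?_)
        exact Nat.le_mul_of_pos_right t (ha i l)) (by positivity) (by
        rw [one_div]
        refine inv_anti₀ (by norm_num) ?_
        calc (2 : ℝ) = 2 ^ 1 := by norm_num
          _ ≤ 2 ^ t := pow_le_pow_right₀ (by norm_num) ht) (by norm_num) (by norm_num)
    have h3 := hξ i t ht c hc
    have hC := numv_C_nonneg s M (z := 1 / 2) (by norm_num)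
    calc |c (ξ i)| * (|∏ l, ((2 : ℝ) ^ (t * a i l))⁻¹| *
          |∑ N ∈ Finset.range M, numv_W s (fun l => ((2 : ℝ) ^ (t * a i l))⁻¹) N -
            ∏ l, (1 - ((2 : ℝ) ^ (t * a i l))⁻¹)⁻¹|)
        ≤ (|C₀| * 2 ^ (t * J)) * (1 * (numv_C s M (1 / 2) * ((2 : ℝ) ^ t)⁻¹ ^ M)) := by
          have h4 : |c (ξ i)| ≤ |C₀| * 2 ^ (t * J) :=
            h3.trans (mul_le_mul_of_nonneg_right (le_abs_self _) (by positivity))
          gcongr
      _ = (|C₀| * numv_C s M (1 / 2)) * (2 ^ (t * J) * ((2 : ℝ) ^ t)⁻¹ ^ M) := by ring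
      _ ≤ (|C₀| * numv_C s M (1 / 2)) * (1 / 2) ^ (t * m) := by
          refine mul_le_mul_of_nonneg_left ?_ (by positivity)
          rw [inv_pow, ← pow_mul, ← div_eq_mul_inv, div_le_iff₀ (by positivity), one_div, inv_pow,
            ← div_eq_inv_mul, le_div_iff₀ (by positivity), ← pow_add]
          refine pow_le_pow_right₀ (by norm_num) ?_
          calc t * J + t * m = t * (J + m) := by ring
            _ ≤ t * M := Nat.mul_le_mul_left t hM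
  refine (Finset.sum_le_sum (fun i _ => hone i)).trans (le_of_eq ?_)
  rw [Finset.sum_const, Finset.card_univ, Fintype.card_fin, nsmul_eq_mul]
  ring

end H48SM

end S_NumV

section S_NumU

/-! # Module NUMU: the series of the stringy motive, in numbers

`c` is the realisation for the field with `Q = 2^(r t)` elements, `r = rr T`, `c (qpow j) = (2^t)^j` (from `IsPC.q` and
`qq * qqi = 1`, relation `inv` of `Rel`; prove it here, `zpow`).
Proof of `num_u`: `c (uE T E) = ∑_e ∑_i (Q-1)^T Q^{∑_b (5 - 5 e_b - i_b) + 3E} = N_E (Q-1)^T Q^{5T} Q^{-2E} (1 + Q^{-1} + Q^{-2})^T`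
(as `∑ e_b = E`), where `N_E = #antidiagonalTuple T E` (`Finset.prod_univ_sum`, `Fintype.piFinset_univ` for the sum over `i`, or
`Finset.sum_prod_piFinset`/`Fintype.sum_pow`-like lemmas: `∏_b ∑_{i : Fin 3} Q^{-i} = ∑_i ∏_b Q^{-i_b}`).
With `x = Q^{-2} ≤ 1/4`: `∑_E N_E x^E = (1-x)^{-T}`: either by induction on `T` (`Finset.Nat.antidiagonalTuple_succ` and Cauchy
products), or `N_E = (E+T-1).choose (T-1)` (`Finset.Nat.card_antidiagonalTuple`?) and `hasSum_choose_mul_geometric_of_norm_lt_one`.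
`(Q-1)^T Q^{5T} (1+Q^{-1}+Q^{-2})^T (1-Q^{-2})^{-T} = AA r T t` (`(Q-1) Q^2/(Q^2-1) = Q^2/(Q+1)`).  Tail: `∑_{E ≥ M} N_E x^E ≤
x^M ∑_j N_{M+j} (1/4)^j =: x^M C_M`, so the error is at most `Q^{6T} 3^T C_M Q^{-2M}`: choose `M₀` with `2 r M₀ - 6 r T ≥ m`
(`C` may depend on `M`, not on `t` and `c`).  `N_E ≤ (E+1)^T` gives summability.
-/

set_option autoImplicit false

namespace H48SM

/-- NUMU: the value of one part of the series -/
theorem numu_term {β : Prop} {T t : ℕ} {c : Mot (ZMod 2) (rr T) β →+* ℝ} (hc : IsPC (rr T) t c)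
    {Q : ℝ} (hQ : Q = (2 : ℝ) ^ (rr T * t)) (E : ℕ) :
    c (uE β T E) = ((Q - 1) ^ T * Q ^ (5 * T) * (∑ j : Fin 3, Q⁻¹ ^ (j : ℕ)) ^ T) *
      numv_W T (fun _ => (Q ^ 2)⁻¹) E := by
  have hQ0 : 0 < Q := by rw [hQ]; positivity
  have hr : ∀ X : ℤ, c (qpow (ZMod 2) (rr T) ((rr T : ℤ) * X)) = Q ^ X := by
    intro X
    rw [numv_qpow hc, zpow_mul, zpow_natCast, ← pow_mul, mul_comm t, ← hQ]
  have hr1 : c (qpow (ZMod 2) (rr T) (rr T)) = Q := by
    have := hr 1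
    rwa [mul_one, zpow_one] at this
  unfold uE
  rw [map_sum]
  have h1 : ∀ e ∈ Finset.Nat.antidiagonalTuple T E, c (∑ i : Fin T → Fin 3,
      (qpow (ZMod 2) (rr T) (rr T) - 1) ^ T *
        qpow (ZMod 2) (rr T) ((rr T : ℤ) * (∑ b, (5 - 5 * (e b : ℤ) - ((i b : ℕ) : ℤ)) + 3 * E))) =
      ((Q - 1) ^ T * Q ^ (5 * T) * (∑ j : Fin 3, Q⁻¹ ^ (j : ℕ)) ^ T) * (Q ^ 2)⁻¹ ^ E := by
    intro e he
    rw [Finset.Nat.mem_antidiagonalTuple] at he
    rw [map_sum]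
    have h2 : ∀ i : Fin T → Fin 3, c ((qpow (ZMod 2) (rr T) (rr T) - 1) ^ T *
        qpow (ZMod 2) (rr T) ((rr T : ℤ) * (∑ b, (5 - 5 * (e b : ℤ) - ((i b : ℕ) : ℤ)) + 3 * E))) =
        (Q - 1) ^ T * Q ^ (5 * T) * (Q ^ 2)⁻¹ ^ E * ∏ b, Q⁻¹ ^ (i b : ℕ) := by
      intro i
      rw [map_mul, map_pow, map_sub, map_one, hr1, hr]
      have h3 : (∑ b, (5 - 5 * (e b : ℤ) - ((i b : ℕ) : ℤ)) + 3 * (E : ℤ)) =
          ((5 * T : ℕ) : ℤ) + (-((2 * E : ℕ) : ℤ) + -((∑ b, (i b : ℕ) : ℕ) : ℤ)) := by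
        rw [Finset.sum_sub_distrib, Finset.sum_sub_distrib, ← Finset.mul_sum]
        have h4 : (∑ b, (e b : ℤ)) = E := by exact_mod_cast he
        rw [h4]
        simp
        ring
      rw [h3, zpow_add₀ hQ0.ne', zpow_add₀ hQ0.ne', zpow_natCast, zpow_neg, zpow_natCast, zpow_neg,
        zpow_natCast, Finset.prod_pow_eq_pow_sum, inv_pow, inv_pow, ← pow_mul]
      ring
    rw [Finset.sum_congr rfl (fun i _ => h2 i), ← Finset.mul_sum,
      Fintype.sum_pow (fun j : Fin 3 => Q⁻¹ ^ (j : ℕ)) T]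
    ring
  rw [Finset.sum_congr rfl h1, Finset.sum_const, numv_const, nsmul_eq_mul]
  ring

/-- NUMU: the value of the series -/
theorem numu_AA {T t : ℕ} {Q : ℝ} (hQ : Q = (2 : ℝ) ^ (rr T * t)) (hQ1 : 1 < Q) :
    AA (rr T) T t = ((Q - 1) ^ T * Q ^ (5 * T) * (∑ j : Fin 3, Q⁻¹ ^ (j : ℕ)) ^ T) *
      ∏ _l : Fin T, (1 - (Q ^ 2)⁻¹)⁻¹ := by
  unfold AA
  rw [← hQ, Finset.prod_const, Finset.card_univ, Fintype.card_fin, pow_mul, ← mul_pow, ← mul_pow,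
    ← mul_pow]
  congr 1
  have h0 : Q ≠ 0 := by linarith
  have h1 : Q + 1 ≠ 0 := by linarith
  have h2 : Q - 1 ≠ 0 := by linarith
  have h3 : 1 - (Q ^ 2)⁻¹ = (Q - 1) * (Q + 1) / Q ^ 2 := by
    field_simp
    ring
  rw [h3, Fin.sum_univ_three]
  simp only [Fin.val_zero, Fin.val_one, Fin.val_two, pow_zero, pow_one]
  field_simp

theorem num_u (β : Prop) (T : ℕ) (hT : 0 < T) (m : ℕ) : ∃ M₀ : ℕ, ∀ M ≥ M₀, ∃ C : ℝ, ∀ t > 0, ∀ c,
    IsPC (rr T) t c →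
      |∑ E ∈ Finset.range M, c (uE β T E) - AA (rr T) T t| ≤ C * (1 / 2) ^ (t * m) := by
  refine ⟨3 * T + m, fun M hM => ⟨3 ^ T * numv_C T M (1 / 4), fun t ht c hc => ?_⟩⟩
  have hrr : 1 ≤ rr T := Nat.card_pos
  set Q : ℝ := (2 : ℝ) ^ (rr T * t) with hQ
  have hQt : (2 : ℝ) ^ t ≤ Q := pow_le_pow_right₀ (by norm_num) (Nat.le_mul_of_pos_left t hrr)
  have hQ2 : (2 : ℝ) ≤ Q := by
    calc (2 : ℝ) = 2 ^ 1 := by norm_num
      _ ≤ 2 ^ t := pow_le_pow_right₀ (by norm_num) ht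
      _ ≤ Q := hQt
  have hQ0 : 0 < Q := by linarith
  set K : ℝ := (Q - 1) ^ T * Q ^ (5 * T) * (∑ j : Fin 3, Q⁻¹ ^ (j : ℕ)) ^ T with hK
  rw [Finset.sum_congr rfl (fun E _ => numu_term hc hQ E), numu_AA hQ (by linarith), ← hK,
    ← Finset.mul_sum, ← mul_sub, abs_mul]
  have htail := numv_tail T M (fun _ => (Q ^ 2)⁻¹) (z := (Q ^ 2)⁻¹) (z0 := 1 / 4)
    (fun _ => by positivity) (fun _ => le_rfl) (by positivity) (by
      rw [one_div]
      refine inv_anti₀ (by norm_num) ?_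
      nlinarith) (by norm_num) (by norm_num)
  have hsum3 : ∑ j : Fin 3, Q⁻¹ ^ (j : ℕ) ≤ 3 := by
    have hinv : Q⁻¹ ≤ 1 := inv_le_one_of_one_le₀ (by linarith)
    have hinv0 : 0 ≤ Q⁻¹ := by positivity
    calc ∑ j : Fin 3, Q⁻¹ ^ (j : ℕ) ≤ ∑ _j : Fin 3, (1 : ℝ) :=
          Finset.sum_le_sum (fun j _ => pow_le_one₀ hinv0 hinv)
      _ = 3 := by simp
  have hsum0 : 0 ≤ ∑ j : Fin 3, Q⁻¹ ^ (j : ℕ) := Finset.sum_nonneg (fun j _ => by positivity)
  have hKle : |K| ≤ Q ^ T * Q ^ (5 * T) * 3 ^ T := by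
    have hK0 : 0 ≤ K := by
      rw [hK]
      have : 0 ≤ Q - 1 := by linarith
      positivity
    rw [abs_of_nonneg hK0, hK]
    have h1 : (Q - 1) ^ T ≤ Q ^ T := pow_le_pow_left₀ (by linarith) (by linarith) T
    have h2 : (∑ j : Fin 3, Q⁻¹ ^ (j : ℕ)) ^ T ≤ 3 ^ T := pow_le_pow_left₀ hsum0 hsum3 T
    gcongr
  have hC := numv_C_nonneg T M (z := 1 / 4) (by norm_num)
  calc |K| * |∑ N ∈ Finset.range M, numv_W T (fun _ => (Q ^ 2)⁻¹) N - ∏ _l : Fin T, (1 - (Q ^ 2)⁻¹)⁻¹|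
      ≤ (Q ^ T * Q ^ (5 * T) * 3 ^ T) * (numv_C T M (1 / 4) * (Q ^ 2)⁻¹ ^ M) := by gcongr
    _ = (3 ^ T * numv_C T M (1 / 4)) * (Q ^ (6 * T) * (Q ^ 2)⁻¹ ^ M) := by
        rw [show 6 * T = T + 5 * T by ring, pow_add]
        ring
    _ ≤ (3 ^ T * numv_C T M (1 / 4)) * (1 / 2) ^ (t * m) := by
        refine mul_le_mul_of_nonneg_left ?_ (by positivity)
        have e1 : (Q ^ 2)⁻¹ ^ M = (Q ^ (2 * M))⁻¹ := by rw [inv_pow, pow_mul]
        have e2 : (1 / 2 : ℝ) ^ (t * m) = (2 ^ (t * m))⁻¹ := by rw [one_div, inv_pow]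
        rw [e1, e2, ← div_eq_mul_inv, div_le_iff₀ (by positivity),
          ← div_eq_inv_mul, le_div_iff₀ (by positivity)]
        calc Q ^ (6 * T) * 2 ^ (t * m) ≤ Q ^ (6 * T) * Q ^ m := by
              rw [pow_mul 2 t m]
              gcongr
          _ = Q ^ (6 * T + m) := by rw [pow_add]
          _ ≤ Q ^ (2 * M) := pow_le_pow_right₀ (by linarith) (by omega)

end H48SM

end S_NumU

section S_ValI

/-! # Module VALI: equality for large `t`

`Q = 2^(r t)`, `AA r T t = (Q^5 (Q^2+Q+1) / (Q+1))^T`, `V t = ∑ i, x t i * ∏ l, 1 / (2^(t a_il) - 1)`.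
Proof: let `D t = 2^(t J) * (Q+1)^T * ∏ i, ∏ l, (2^(t a_il) - 1)`, a positive integer for `t > 0`.  `D t * (AA - V t)` is an integer
(`D t * AA = 2^(t J) (Q^5 (Q^2+Q+1))^T ∏∏`, `D t * x t i * ∏_l 1/(..) = (x t i 2^(t J)) (Q+1)^T ∏_{i' ≠ i} ∏_l (..)`), and
`D t ≤ 2^(t K)` with `K = J + (r+1) T + ∑ i, ∑ l, a i l`, so its absolute value is at most `2^(t K) * C_m * (1/2)^(t m)`; take `m = K + 1`: it is
`≤ C (1/2)^t < 1` for large `t`, hence `0`, and `D t ≠ 0`.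
-/

set_option autoImplicit false

namespace H48SM

/-- the integers in `ℝ` -/
def VALI_Z : Subring ℝ := (Int.castRingHom ℝ).range

theorem VALI_mem (z : ℤ) : (z : ℝ) ∈ VALI_Z := ⟨z, rfl⟩

theorem VALI_two : (2 : ℝ) ∈ VALI_Z := ⟨2, by simp⟩

theorem VALI_zero {y : ℝ} (hy : y ∈ VALI_Z) (h : |y| < 1) : y = 0 := by
  obtain ⟨z, rfl⟩ := hy
  have h1 : |(z : ℝ)| < 1 := h
  have h2 : |z| < 1 := by exact_mod_cast h1
  have h3 : z = 0 := Int.abs_lt_one_iff.1 h2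
  rw [h3]
  simp

theorem VALI_one_le {ι : Type} (s : Finset ι) (f : ι → ℝ) (hf : ∀ i, 1 ≤ f i) :
    1 ≤ ∏ i ∈ s, f i :=
  Finset.prod_induction f (fun x => (1 : ℝ) ≤ x)
    (fun _ _ ha hb => one_le_mul_of_one_le_of_one_le ha hb) le_rfl (fun i _ => hf i)

theorem VALI_fac {t a : ℕ} (ht : 0 < t) (ha : 0 < a) : (1 : ℝ) ≤ 2 ^ (t * a) - 1 := by
  have h1 : (2 : ℝ) ^ 1 ≤ 2 ^ (t * a) :=
    pow_le_pow_right₀ (by norm_num) (Nat.succ_le_of_lt (Nat.mul_pos ht ha))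
  linarith

theorem num_int (T s n r J : ℕ) (x : ℕ → Fin n → ℝ) (a : Fin n → Fin s → ℕ)
    (ha : ∀ i l, 0 < a i l) (hz : ∀ t > 0, ∀ i, ∃ z : ℤ, x t i * 2 ^ (t * J) = z)
    (h : ∀ m : ℕ, ∃ C : ℝ, ∀ t > 0,
      |AA r T t - ∑ i, x t i * ∏ l, (1 / ((2 : ℝ) ^ (t * a i l) - 1))| ≤ C * (1 / 2) ^ (t * m)) :
    ∃ t₀ : ℕ, ∀ t ≥ t₀, AA r T t = ∑ i, x t i * ∏ l, (1 / ((2 : ℝ) ^ (t * a i l) - 1)) := by
  classical
  set K : ℕ := J + (r + 1) * T + ∑ i, ∑ l, a i l with hK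
  obtain ⟨C, hC⟩ := h (K + 1)
  obtain ⟨t₀, ht₀⟩ := pow_unbounded_of_one_lt C (show (1 : ℝ) < 2 by norm_num)
  refine ⟨t₀ + 1, fun t ht => ?_⟩
  have ht0 : 0 < t := by omega
  set P : Fin n → ℝ := fun i => ∏ l, ((2 : ℝ) ^ (t * a i l) - 1) with hP
  have hP1 : ∀ i, 1 ≤ P i := fun i => VALI_one_le _ _ fun l => VALI_fac ht0 (ha i l)
  have hP0 : ∀ i, P i ≠ 0 := fun i => by have := hP1 i; positivity
  have hPZ : ∀ i, P i ∈ VALI_Z := fun i =>
    prod_mem fun l _ => sub_mem (pow_mem VALI_two _) (one_mem _)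
  set Q : ℝ := 2 ^ (r * t) with hQ
  have hQ1 : 1 ≤ Q := one_le_pow₀ (by norm_num)
  have hQZ : Q ∈ VALI_Z := pow_mem VALI_two _
  set D : ℝ := 2 ^ (t * J) * (Q + 1) ^ T * ∏ i, P i with hD
  have hprod1 : 1 ≤ ∏ i, P i := VALI_one_le _ _ hP1
  have hD0 : 0 < D := by positivity
  -- integrality
  have hint : D * (AA r T t - ∑ i, x t i * ∏ l, (1 / ((2 : ℝ) ^ (t * a i l) - 1))) ∈ VALI_Z := by
    rw [mul_sub]
    refine sub_mem ?_ ?_
    · have e1 : D * AA r T t = 2 ^ (t * J) * (Q ^ 5 * (Q ^ 2 + Q + 1)) ^ T * ∏ i, P i := by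
        rw [AA, ← hQ, div_pow, hD]
        have : (Q + 1) ^ T ≠ 0 := by positivity
        field_simp
      rw [e1]
      exact mul_mem (mul_mem (pow_mem VALI_two _) (pow_mem (mul_mem (pow_mem hQZ _)
        (add_mem (add_mem (pow_mem hQZ _) hQZ) (one_mem _))) _)) (prod_mem fun i _ => hPZ i)
    · rw [Finset.mul_sum]
      refine sum_mem fun i _ => ?_
      obtain ⟨z, hzi⟩ := hz t ht0 i
      have e2 : ∏ l, (1 / ((2 : ℝ) ^ (t * a i l) - 1)) = (P i)⁻¹ := by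
        rw [hP, ← Finset.prod_inv_distrib]
        exact Finset.prod_congr rfl fun l _ => one_div _
      have e3 : ∏ i, P i = P i * ∏ j ∈ Finset.univ.erase i, P j :=
        (Finset.mul_prod_erase _ _ (Finset.mem_univ i)).symm
      have e4 : D * (x t i * (P i)⁻¹) =
          (x t i * 2 ^ (t * J)) * (Q + 1) ^ T * ∏ j ∈ Finset.univ.erase i, P j := by
        rw [hD, e3]
        have := hP0 i
        field_simp
      rw [e2, e4, hzi]
      exact mul_mem (mul_mem (VALI_mem z) (pow_mem (add_mem hQZ (one_mem _)) _))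
        (prod_mem fun j _ => hPZ j)
  -- size
  have hDK : D ≤ 2 ^ (t * K) := by
    have h1 : (Q + 1) ^ T ≤ 2 ^ (t * ((r + 1) * T)) := by
      have h2 : Q + 1 ≤ 2 ^ (t * (r + 1)) := by
        have h3 : (2 : ℝ) ^ (t * (r + 1)) = Q * 2 ^ t := by
          rw [hQ, ← pow_add]
          congr 1
          ring
        have h4 : (2 : ℝ) ^ 1 ≤ 2 ^ t := pow_le_pow_right₀ (by norm_num) ht0
        rw [h3]
        nlinarith
      calc (Q + 1) ^ T ≤ (2 ^ (t * (r + 1))) ^ T := pow_le_pow_left₀ (by positivity) h2 _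
        _ = 2 ^ (t * ((r + 1) * T)) := by rw [← pow_mul, mul_assoc]
    have h5 : ∏ i, P i ≤ 2 ^ (t * ∑ i, ∑ l, a i l) := by
      have h6 : ∀ i, P i ≤ 2 ^ (t * ∑ l, a i l) := by
        intro i
        have h7 : P i ≤ ∏ l, (2 : ℝ) ^ (t * a i l) := by
          refine Finset.prod_le_prod (fun l _ => ?_) (fun l _ => ?_)
          · have := VALI_fac ht0 (ha i l)
            linarith
          · linarith
        rw [Finset.prod_pow_eq_pow_sum, ← Finset.mul_sum] at h7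
        exact h7
      calc ∏ i, P i ≤ ∏ i, (2 : ℝ) ^ (t * ∑ l, a i l) := by
            refine Finset.prod_le_prod (fun i _ => ?_) (fun i _ => h6 i)
            have := hP1 i
            linarith
        _ = 2 ^ (t * ∑ i, ∑ l, a i l) := by
            rw [Finset.prod_pow_eq_pow_sum, ← Finset.mul_sum]
    have h8 : (2 : ℝ) ^ (t * K) =
        2 ^ (t * J) * 2 ^ (t * ((r + 1) * T)) * 2 ^ (t * ∑ i, ∑ l, a i l) := by
      rw [← pow_add, ← pow_add, hK]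
      congr 1
      ring
    rw [h8, hD]
    gcongr
  have hsmall : |D * (AA r T t - ∑ i, x t i * ∏ l, (1 / ((2 : ℝ) ^ (t * a i l) - 1)))| < 1 := by
    rw [abs_mul, abs_of_pos hD0]
    have h1 := hC t ht0
    have h2 : (2 : ℝ) ^ (t * K) * (C * (1 / 2) ^ (t * (K + 1))) = C / 2 ^ t := by
      have h3 : t * (K + 1) = t * K + t := by ring
      rw [h3, pow_add, one_div, inv_pow, inv_pow]
      field_simp
    have h4 : C < 2 ^ t := ht₀.trans_le (pow_le_pow_right₀ (by norm_num) (by omega))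
    calc D * |AA r T t - ∑ i, x t i * ∏ l, (1 / ((2 : ℝ) ^ (t * a i l) - 1))|
        ≤ 2 ^ (t * K) * (C * (1 / 2) ^ (t * (K + 1))) :=
          mul_le_mul hDK h1 (abs_nonneg _) (by positivity)
      _ = C / 2 ^ t := h2
      _ < 1 := by rw [div_lt_one (by positivity)]; exact h4
  have h0 := VALI_zero hint hsmall
  rcases mul_eq_zero.1 h0 with h1 | h1
  · exact absurd h1 hD0.ne'
  · linarith

end H48SM

end S_ValI

section S_ValL

/-! # Module VALL: the arithmetic contradiction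

`r = 2^T`, `Q = 2^(r t)`, `AA r T t = (Q^5 (Q^2+Q+1) / (Q+1))^T`, `V t = ∑ i, x t i * ∏ l, 1 / (2^(t a_il) - 1)`.
Proof: let `ℓ` be a prime factor of `2^r + 1` (odd).  For `t = ℓ^j` (odd): `v_ℓ(Q + 1) = v_ℓ(2^r + 1) + j` (LTE for `x^t + 1`, `t` odd:
`Nat.emultiplicity_pow_add_pow` / `padicValNat.pow_add_pow` or via `Q^2 - 1`), `Q^5 (Q^2+Q+1) ≡ -1` mod `ℓ` is prime to `ℓ`
(`Q ≡ -1`).  So `v_ℓ (AA) = -T (j + v_ℓ(2^r+1))`.  On the other side `2^(t a) - 1` divides `(2^(2r))^(t a) - 1`, so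
`v_ℓ(2^(t a) - 1) ≤ v_ℓ(2^(2r) - 1) + v_ℓ(t a) = v_ℓ(2^(2r) - 1) + j + v_ℓ(a)` (`padicValNat.pow_sub_pow`), `v_ℓ (x t i) ≥ 0` (or
`x t i = 0`) as `ℓ` is odd, hence `v_ℓ (V t) ≥ -(s j + C)`, `C` independent of `j`.  It is best to avoid valuations of sums:
`ℓ^(s j + C) * V t` times an integer prime to `ℓ` (`2^(t J) ∏∏ (prime to ℓ parts of 2^(t a_il) - 1)`) is an integer; so
`(Q+1)^T` divides `ℓ^(s j + C) * (prime to ℓ)` and `ℓ^(T j)` divides `(Q+1)^T`; contradiction for `j > C` as `s < T`.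
-/

set_option autoImplicit false

namespace H48SM

/-- the denominator of `y` is at most `ℓ^N` at the prime `ℓ` -/
def VLbd (p N : ℕ) (y : ℝ) : Prop :=
  ∃ W : ℕ, Nat.Coprime p W ∧ ∃ z : ℤ, (p : ℝ) ^ N * W * y = z

theorem VLbd.add {p N : ℕ} {y y' : ℝ} (h : VLbd p N y) (h' : VLbd p N y') : VLbd p N (y + y') := by
  obtain ⟨W, hW, z, hz⟩ := h
  obtain ⟨W', hW', z', hz'⟩ := h'
  refine ⟨W * W', Nat.Coprime.mul_right hW hW', W' * z + W * z', ?_⟩
  push_cast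
  rw [← hz, ← hz']
  ring

theorem VLbd.mul {p N M : ℕ} {y y' : ℝ} (h : VLbd p N y) (h' : VLbd p M y') :
    VLbd p (N + M) (y * y') := by
  obtain ⟨W, hW, z, hz⟩ := h
  obtain ⟨W', hW', z', hz'⟩ := h'
  refine ⟨W * W', Nat.Coprime.mul_right hW hW', z * z', ?_⟩
  push_cast
  rw [← hz, ← hz', pow_add]
  ring

theorem VLbd.zero (p N : ℕ) : VLbd p N 0 := ⟨1, Nat.coprime_one_right p, 0, by simp⟩

theorem VLbd.sum {p N n : ℕ} (f : Fin n → ℝ) (h : ∀ i, VLbd p N (f i)) :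
    VLbd p N (∑ i, f i) := by
  induction n with
  | zero => simpa using VLbd.zero p N
  | succ n ih =>
    rw [Fin.sum_univ_succ]
    exact (h 0).add (ih _ fun i => h i.succ)

theorem VLbd.prod {p N n : ℕ} (f : Fin n → ℝ) (h : ∀ i, VLbd p N (f i)) :
    VLbd p (n * N) (∏ i, f i) := by
  induction n with
  | zero =>
    refine ⟨1, Nat.coprime_one_right p, 1, by simp⟩
  | succ n ih =>
    rw [Fin.prod_univ_succ]
    have := (h 0).mul (ih _ fun i => h i.succ)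
    have e : N + n * N = (n + 1) * N := by ring
    rwa [e] at this

theorem VLbd.inv {p N D : ℕ} (hp : p.Prime) (hD : 0 < D) (hN : padicValNat p D ≤ N) :
    VLbd p N (1 / (D : ℝ)) := by
  obtain ⟨m, hm⟩ := (pow_padicValNat_dvd : p ^ padicValNat p D ∣ D)
  have hm0 : m ≠ 0 := by
    rintro rfl
    rw [Nat.mul_zero] at hm
    omega
  have hcop : Nat.Coprime p m := by
    rw [Nat.Prime.coprime_iff_not_dvd hp]
    rintro ⟨m', rfl⟩
    have hd : p ^ (padicValNat p D + 1) ∣ D := ⟨m', by rw [pow_succ, mul_assoc]; exact hm⟩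
    have := Fact.mk hp
    rw [padicValNat_dvd_iff_le hD.ne'] at hd
    omega
  refine ⟨m, hcop, (p : ℤ) ^ (N - padicValNat p D), ?_⟩
  have hp0 : (p : ℝ) ≠ 0 := by exact_mod_cast hp.ne_zero
  have hm0' : (m : ℝ) ≠ 0 := by exact_mod_cast hm0
  have hDr : (D : ℝ) = (p : ℝ) ^ padicValNat p D * m := by exact_mod_cast hm
  rw [hDr]
  push_cast
  have e : (p : ℝ) ^ N = (p : ℝ) ^ (N - padicValNat p D) * (p : ℝ) ^ padicValNat p D := by
    rw [← pow_add]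
    congr 1
    omega
  rw [e]
  field_simp

theorem num_val (T s n r J : ℕ) (hs : s < T) (hr : r = 2 ^ T) (x : ℕ → Fin n → ℝ)
    (a : Fin n → Fin s → ℕ) (ha : ∀ i l, 0 < a i l)
    (hz : ∀ t > 0, ∀ i, ∃ z : ℤ, x t i * 2 ^ (t * J) = z) (t₀ : ℕ)
    (h : ∀ t ≥ t₀, AA r T t = ∑ i, x t i * ∏ l, (1 / ((2 : ℝ) ^ (t * a i l) - 1))) : False := by
  have hr0 : 0 < r := by rw [hr]; positivity
  obtain ⟨p, hp, hpd⟩ := Nat.exists_prime_and_dvd (n := 2 ^ r + 1) (by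
    have : 0 < 2 ^ r := by positivity
    omega)
  have := Fact.mk hp
  have hp2 : p ≠ 2 := by
    rintro rfl
    have h1 : 2 ∣ 2 ^ r := dvd_pow_self 2 hr0.ne'
    have h2 : 2 ∣ 1 := (Nat.dvd_add_right h1).mp hpd
    omega
  have hpodd : Odd p := hp.odd_of_ne_two hp2
  have hc2 : Nat.Coprime p 2 := by
    rw [Nat.coprime_primes hp Nat.prime_two]
    exact hp2
  -- the constant
  obtain ⟨C, hC⟩ : ∃ C : ℕ, ∀ i l, padicValNat p (2 ^ (2 * r) - 1) + padicValNat p (a i l) ≤ C := by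
    refine ⟨padicValNat p (2 ^ (2 * r) - 1) + ∑ i, ∑ l, padicValNat p (a i l), fun i l => ?_⟩
    have h1 : padicValNat p (a i l) ≤ ∑ l, padicValNat p (a i l) :=
      Finset.single_le_sum (f := fun l => padicValNat p (a i l)) (fun _ _ => Nat.zero_le _)
        (Finset.mem_univ l)
    have h2 : ∑ l, padicValNat p (a i l) ≤ ∑ i, ∑ l, padicValNat p (a i l) :=
      Finset.single_le_sum (f := fun i => ∑ l, padicValNat p (a i l)) (fun _ _ => Nat.zero_le _)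
        (Finset.mem_univ i)
    omega
  obtain ⟨j, hj1, hj2⟩ : ∃ j : ℕ, t₀ ≤ j ∧ s * C ≤ j := ⟨t₀ + s * C, by omega, by omega⟩
  have htj : t₀ ≤ p ^ j := le_trans hj1 (Nat.lt_pow_self hp.one_lt).le
  have htpos : 0 < p ^ j := pow_pos hp.pos j
  have hmain := h (p ^ j) htj
  -- bounds of the denominators
  have hden : ∀ i l, VLbd p (j + C) (1 / ((2 : ℝ) ^ (p ^ j * a i l) - 1)) := by
    intro i l
    have hta : p ^ j * a i l ≠ 0 := (Nat.mul_pos htpos (ha i l)).ne'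
    have hge : 2 ≤ 2 ^ (p ^ j * a i l) := by
      calc 2 = 2 ^ 1 := by norm_num
        _ ≤ 2 ^ (p ^ j * a i l) := Nat.pow_le_pow_right (by norm_num) (Nat.pos_of_ne_zero hta)
    have hpos : 0 < 2 ^ (p ^ j * a i l) - 1 := by omega
    have e : (2 : ℝ) ^ (p ^ j * a i l) - 1 = ((2 ^ (p ^ j * a i l) - 1 : ℕ) : ℝ) := by
      rw [Nat.cast_sub (by omega)]
      push_cast
      ring
    rw [e]
    refine VLbd.inv hp hpos ?_
    have hdiv : 2 ^ (p ^ j * a i l) - 1 ∣ (2 ^ (2 * r)) ^ (p ^ j * a i l) - 1 ^ (p ^ j * a i l) := by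
      have h5 := Nat.sub_dvd_pow_sub_pow (2 ^ (p ^ j * a i l)) 1 (2 * r)
      rw [one_pow] at h5
      rw [one_pow]
      have h6 : (2 ^ (2 * r)) ^ (p ^ j * a i l) = (2 ^ (p ^ j * a i l)) ^ (2 * r) := by
        rw [← pow_mul, ← pow_mul, mul_comm (2 * r)]
      rw [h6]
      exact h5
    have hlt : 1 < 2 ^ (2 * r) := Nat.one_lt_two_pow (by omega)
    have hpd2 : p ∣ 2 ^ (2 * r) - 1 := by
      have : 2 ^ (2 * r) - 1 = (2 ^ r + 1) * (2 ^ r - 1) := by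
        have h1 : 1 ≤ 2 ^ r := Nat.one_le_two_pow
        zify [h1, hlt.le]
        rw [mul_comm 2 r, pow_mul]
        ring
      rw [this]
      exact Dvd.dvd.mul_right hpd _
    have hnd : ¬ p ∣ 2 ^ (2 * r) := by
      intro hd
      have := hp.dvd_of_dvd_pow hd
      rw [Nat.prime_dvd_prime_iff_eq hp Nat.prime_two] at this
      exact hp2 this
    have hlte := padicValNat.pow_sub_pow (p := p) (x := 2 ^ (2 * r)) (y := 1) hpodd hlt hpd2 hnd hta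
    have hne : (2 ^ (2 * r)) ^ (p ^ j * a i l) - 1 ^ (p ^ j * a i l) ≠ 0 := by
      rw [one_pow]
      have : 1 < (2 ^ (2 * r)) ^ (p ^ j * a i l) := Nat.one_lt_pow hta hlt
      omega
    have hle := padicValNat_dvd_iff_le (p := p) hne |>.mp
      ((pow_padicValNat_dvd : p ^ padicValNat p (2 ^ (p ^ j * a i l) - 1) ∣ _).trans hdiv)
    rw [hlte, padicValNat.mul (pow_pos hp.pos j).ne' (ha i l).ne', padicValNat.prime_pow] at hle
    have := hC i l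
    omega
  -- the coefficients
  have hx : ∀ i, VLbd p 0 (x (p ^ j) i) := by
    intro i
    obtain ⟨z, hz'⟩ := hz (p ^ j) htpos i
    refine ⟨2 ^ (p ^ j * J), Nat.Coprime.pow_right _ hc2, z, ?_⟩
    rw [← hz']
    push_cast
    ring
  have hV : VLbd p (s * (j + C)) (AA r T (p ^ j)) := by
    rw [hmain]
    refine VLbd.sum _ fun i => ?_
    have := (hx i).mul (VLbd.prod _ (hden i))
    rwa [Nat.zero_add] at this
  obtain ⟨W, hW, z, hWz⟩ := hV
  -- the left side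
  set Q : ℕ := 2 ^ (r * p ^ j) with hQ
  have hAA : AA r T (p ^ j) = ((((Q ^ 5 * (Q ^ 2 + Q + 1) : ℕ) : ℝ)) / ((Q + 1 : ℕ) : ℝ)) ^ T := by
    unfold AA
    rw [hQ]
    push_cast
    rfl
  have hQ1 : ((Q + 1 : ℕ) : ℝ) ≠ 0 := by positivity
  have hint : ((p : ℤ) ^ (s * (j + C)) * W) * ((Q ^ 5 * (Q ^ 2 + Q + 1) : ℕ) : ℤ) ^ T =
      z * ((Q + 1 : ℕ) : ℤ) ^ T := by
    have : ((p : ℝ) ^ (s * (j + C)) * W) * ((Q ^ 5 * (Q ^ 2 + Q + 1) : ℕ) : ℝ) ^ T =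
      z * ((Q + 1 : ℕ) : ℝ) ^ T := by
      rw [← hWz, hAA, div_pow]
      field_simp
    exact_mod_cast this
  -- `ℓ^(j+1)` divides `Q + 1`
  have hdQ : ((p : ℤ) ^ (j + 1)) ∣ ((Q + 1 : ℕ) : ℤ) := by
    have h1 : (p : ℤ) ∣ (2 : ℤ) ^ r - (-1) := by
      have : ((p : ℕ) : ℤ) ∣ ((2 ^ r + 1 : ℕ) : ℤ) := Int.natCast_dvd_natCast.mpr hpd
      push_cast at this
      rw [sub_neg_eq_add]
      exact this
    have h2 := dvd_sub_pow_of_dvd_sub h1 j
    have h3 : (-1 : ℤ) ^ p ^ j = -1 := (hpodd.pow).neg_one_pow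
    rw [h3, sub_neg_eq_add, ← pow_mul] at h2
    rw [hQ]
    push_cast
    exact h2
  have hpQ : (p : ℤ) ∣ (Q : ℤ) + 1 := by
    have : (p : ℤ) ∣ ((Q + 1 : ℕ) : ℤ) := dvd_trans (dvd_pow_self _ (by omega)) hdQ
    push_cast at this
    exact this
  -- the numerator is prime to `ℓ`
  have hcop : IsCoprime ((p : ℤ)) ((Q ^ 5 * (Q ^ 2 + Q + 1) : ℕ) : ℤ) := by
    obtain ⟨c, hc⟩ := hpQ
    have e : (Q : ℤ) = p * c - 1 := by linarith
    push_cast
    rw [e]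
    refine ⟨(p : ℤ) ^ 6 * c ^ 7 - 6 * (p : ℤ) ^ 5 * c ^ 6 + 16 * (p : ℤ) ^ 4 * c ^ 5
      - 25 * (p : ℤ) ^ 3 * c ^ 4 + 25 * (p : ℤ) ^ 2 * c ^ 3 - 16 * (p : ℤ) * c ^ 2 + 6 * c, -1, ?_⟩
    ring
  have hcopW : IsCoprime ((p : ℤ)) (W : ℤ) := Nat.isCoprime_iff_coprime.mpr hW
  have hdiv1 : (p : ℤ) ^ ((j + 1) * T) ∣
      (p : ℤ) ^ (s * (j + C)) * (W * ((Q ^ 5 * (Q ^ 2 + Q + 1) : ℕ) : ℤ) ^ T) := by
    rw [← mul_assoc, hint, pow_mul]
    exact Dvd.dvd.mul_left (pow_dvd_pow_of_dvd hdQ T) _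
  have hdiv2 : (p : ℤ) ^ ((j + 1) * T) ∣ (p : ℤ) ^ (s * (j + C)) := by
    refine IsCoprime.dvd_of_dvd_mul_right ?_ hdiv1
    exact IsCoprime.pow_left (IsCoprime.mul_right hcopW (IsCoprime.pow_right hcop))
  have hdiv3 : p ^ ((j + 1) * T) ∣ p ^ (s * (j + C)) := by exact_mod_cast hdiv2
  have hle := (Nat.pow_dvd_pow_iff_le_right hp.one_lt).mp hdiv3
  have h4 : (j + 1) * (s + 1) ≤ (j + 1) * T := Nat.mul_le_mul_left _ hs
  nlinarith

end H48SM

end S_ValL
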