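import Mathlib
import Pool.Agent.H48.SL.M1
import Pool.Agent.H48.SL.M4
import Pool.Agent.H48.SL.M5
import Pool.Agent.H48.SL.M6
import Pool.Agent.H48.SL.M7
import Pool.Agent.H48.SL.M8

set_option autoImplicit false

/-! Stringy motives of linear quotients, part M9: this file joins several modules to save build time. -/

section S_Use

/-! # Module USE: `uu T` is the stringy motive of `A^{6T} / (Z/2)^T`, and it converges

Proofs.  `isStringy_uu`: given `e`.  If `3 r ∤ e`: `jetSet = ∅` has class `0` (no pieces), `uu T e = 0`.  If `e = 3 r E`: `n₀ = 2 E`; for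
`n ≥ n₀` the index set of pieces is the finite set of pairs `(ε, i)`, `ε ∈ antidiagonalTuple T E` (`∑ ε = E`, so `ε b ≤ E ≤ n`),
transported to `Fin m` (`Finset.equivFin` / `Fintype.equivFin`); pieces `DD ε i n _` with `psi`; immersions by `isPiece_psi`, disjoint by
`psi_disj`, union by `mem_jetSet` (`Finset.Nat.mem_antidiagonalTuple`); `c = ∑ cls (DD ..)`.  Then `c * qpow (-(r (n * 6T))) * qpow (3 r E) = uE T E`
by `cls_DD`, `qpow_add` (`Fintype.card (Cx T) = 6 T`), `e / (3 r) = E`.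
`conv_uu`: `(L - 1)^T * qpow j` is a `ℤ`-combination of `qpow (r a + j)`, `a ≤ T` (`sub_pow`/`add_pow` with `L = qpow r`), and
`qpow j' = cls pt * qpow j'` is in `Fil m` if `j' ≤ -m` (`ringKrullDim k = 0`).  The exponents in `uE T E` are at most
`r (5 T - 5 E + 3 E)`, so everything is in `Fil m` if `r (6 T - 2 E) ≤ -m`.
-/

set_option autoImplicit false

namespace H48SM

theorem use_qpow_mem {k : Type} [Field k] {r : ℕ} {β : Prop} {m j : ℤ} (h : j ≤ -m) :
    (qpow k r j : Mot k r β) ∈ Fil k r m := by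
  refine AddSubgroup.subset_closure ⟨Aff.pt k, 0, j, ?_, ?_, ?_⟩
  · exact le_of_eq (by
      change ringKrullDim k = _
      simp [ringKrullDim_eq_zero_of_field])
  · simpa using h
  · rw [cls_pt, one_mul]

theorem use_term {k : Type} [Field k] {r : ℕ} {β : Prop} (T : ℕ) :
    ∀ {m j : ℤ}, (r : ℤ) * T + j ≤ -m →
      ((qpow k r r - 1) ^ T * qpow k r j : Mot k r β) ∈ Fil k r m := by
  induction T with
  | zero =>
    intro m j h
    rw [pow_zero, one_mul]
    exact use_qpow_mem (by simpa using h)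
  | succ T ih =>
    intro m j h
    push_cast at h
    have hr : (0 : ℤ) ≤ r := Int.natCast_nonneg r
    have e : ((qpow k r r - 1) ^ (T + 1) * qpow k r j : Mot k r β) =
        (qpow k r r - 1) ^ T * qpow k r (r + j) - (qpow k r r - 1) ^ T * qpow k r j := by
      rw [qpow_add]
      ring
    rw [e]
    refine AddSubgroup.sub_mem _ (ih ?_) (ih ?_)
    · linarith
    · nlinarith

theorem use_sum {T E : ℕ} {e : Fin T → ℕ} (he : e ∈ Finset.Nat.antidiagonalTuple T E)
    (i : Fin T → Fin 3) (a b : ℤ) :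
    ∑ c, (a - b * (e c : ℤ) - ((i c : ℕ) : ℤ)) = T * a - b * E - ∑ c, ((i c : ℕ) : ℤ) := by
  rw [Finset.Nat.mem_antidiagonalTuple] at he
  rw [Finset.sum_sub_distrib, Finset.sum_sub_distrib, ← Finset.mul_sum, Finset.sum_const,
    Finset.card_univ, Fintype.card_fin, nsmul_eq_mul, ← he]
  push_cast
  ring

theorem use_le {T E : ℕ} {e : Fin T → ℕ} (he : e ∈ Finset.Nat.antidiagonalTuple T E)
    (b : Fin T) : e b ≤ E := by
  rw [Finset.Nat.mem_antidiagonalTuple] at he
  rw [← he]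
  exact Finset.single_le_sum (f := e) (fun _ _ => Nat.zero_le _) (Finset.mem_univ b)

theorem use_rr_pos (T : ℕ) : 0 < rr T := Nat.card_pos

theorem isStringy_uu (β : Prop) (T : ℕ) : IsStringy (GB T) (uu β T) := by
  classical
  intro e
  by_cases hd : 3 * rr T ∣ e
  · obtain ⟨E, rfl⟩ := hd
    refine ⟨2 * E, fun n hn => ?_⟩
    set S : Finset ((Fin T → ℕ) × (Fin T → Fin 3)) :=
      Finset.Nat.antidiagonalTuple T E ×ˢ Finset.univ with hS
    have hle : ∀ p : {p // p ∈ S}, ∀ b, p.1.1 b ≤ n := by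
      rintro ⟨p, hp⟩ b
      have h1 := (Finset.mem_product.1 hp).1
      have h2 := use_le h1 b
      show p.1 b ≤ n
      omega
    refine ⟨∑ p : {p // p ∈ S}, cls (rr T) (DD p.1.1 p.1.2 n (hle p)), ?_, ?_⟩
    · refine ⟨S.card, fun a => DD (S.equivFin.symm a).1.1 (S.equivFin.symm a).1.2 n
        (hle (S.equivFin.symm a)), fun a => psi (S.equivFin.symm a).1.1 (S.equivFin.symm a).1.2 n
        (hle (S.equivFin.symm a)), ?_, ?_, ?_, ?_⟩
      · intro a
        exact isPiece_psi _ _ n _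
      · intro a b hab
        refine psi_disj _ _ _ _ _ _ ?_
        intro h
        exact hab (S.equivFin.symm.injective (Subtype.ext h))
      · ext p
        rw [mem_jetSet hn, Set.mem_iUnion]
        constructor
        · rintro ⟨e, i, h, hsum, hp⟩
          have hmem : (e, i) ∈ S := by
            rw [hS, Finset.mem_product, Finset.Nat.mem_antidiagonalTuple]
            exact ⟨hsum, Finset.mem_univ _⟩
          refine ⟨S.equivFin ⟨(e, i), hmem⟩, ?_⟩
          have key : ∀ q : {p // p ∈ S}, q = ⟨(e, i), hmem⟩ →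
              p ∈ Set.range (PrimeSpectrum.comap (psi q.1.1 q.1.2 n (hle q)).toRingHom) := by
            rintro q rfl
            exact hp
          exact key _ (S.equivFin.symm_apply_apply _)
        · rintro ⟨a, ha⟩
          refine ⟨_, _, hle (S.equivFin.symm a), ?_, ha⟩
          have key : ∀ q : {p // p ∈ S}, ∑ b, q.1.1 b = E := by
            rintro ⟨q, hq⟩
            exact Finset.Nat.mem_antidiagonalTuple.1 (Finset.mem_product.1 hq).1
          exact key _
      · exact (Equiv.sum_comp S.equivFin.symm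
          (fun p : {p // p ∈ S} => (cls (rr T) (DD p.1.1 p.1.2 n (hle p)) :
            Mot (ZMod 2) (rr T) β))).symm
    · have hdiv : 3 * rr T * E / (3 * rr T) = E :=
        Nat.mul_div_cancel_left E (Nat.mul_pos (by norm_num) (use_rr_pos T))
      rw [uu, if_pos (Dvd.intro _ rfl), hdiv, uE, Finset.sum_mul, Finset.sum_mul]
      have e1 : ∑ e ∈ Finset.Nat.antidiagonalTuple T E, ∑ i : Fin T → Fin 3,
          ((qpow (ZMod 2) (rr T) (rr T) - 1) ^ T *
            qpow (ZMod 2) (rr T) ((rr T : ℤ) * (∑ b, (5 - 5 * (e b : ℤ) - ((i b : ℕ) : ℤ)) + 3 * E)) :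
              Mot (ZMod 2) (rr T) β) =
          ∑ p ∈ S, ((qpow (ZMod 2) (rr T) (rr T) - 1) ^ T *
            qpow (ZMod 2) (rr T)
              ((rr T : ℤ) * (∑ b, (5 - 5 * (p.1 b : ℤ) - ((p.2 b : ℕ) : ℤ)) + 3 * E))) := by
        rw [hS, Finset.sum_product]
      rw [e1, ← Finset.sum_coe_sort S]
      refine Finset.sum_congr rfl ?_
      rintro ⟨⟨e, i⟩, hp⟩ _
      have he : e ∈ Finset.Nat.antidiagonalTuple T E := (Finset.mem_product.1 hp).1
      rw [cls_DD β e i n (hle ⟨(e, i), hp⟩), mul_assoc, mul_assoc, ← qpow_add, ← qpow_add]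
      congr 2
      change (rr T : ℤ) * (∑ b, (5 - 5 * (e b : ℤ) - ((i b : ℕ) : ℤ)) + 3 * E) = _
      rw [use_sum he i 5 5, use_sum he i (6 * ((n : ℤ) + 1)) 5]
      have hc : (Fintype.card (Cx T) : ℤ) = 6 * T := by
        simp only [Cx, Fintype.card_prod, Fintype.card_fin]
        push_cast
        ring
      rw [hc]
      push_cast
      ring
  · refine ⟨0, fun n _ => ⟨0, ?_, ?_⟩⟩
    · refine ⟨0, fun a => a.elim0, fun a => a.elim0, fun a => a.elim0, fun a => a.elim0, ?_, ?_⟩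
      · rw [jetSet_empty hd]
        ext p
        simp
      · simp
    · rw [uu, if_neg hd, zero_mul, zero_mul]

theorem conv_uu (β : Prop) (T : ℕ) : Conv (uu β T) := by
  intro m
  refine ⟨3 * rr T * (3 * T + m), fun N hN => ?_⟩
  by_cases hd : 3 * rr T ∣ N
  · obtain ⟨E, rfl⟩ := hd
    have hpos : 0 < 3 * rr T := Nat.mul_pos (by norm_num) (use_rr_pos T)
    have hdiv : 3 * rr T * E / (3 * rr T) = E := Nat.mul_div_cancel_left E hpos
    have hE : 3 * T + m ≤ E := Nat.le_of_mul_le_mul_left hN hpos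
    rw [uu, if_pos (Dvd.intro _ rfl), hdiv, uE]
    refine AddSubgroup.sum_mem _ fun e he => AddSubgroup.sum_mem _ fun i _ => use_term T ?_
    rw [use_sum he i 5 5]
    have h1 : (0 : ℤ) ≤ ∑ c, ((i c : ℕ) : ℤ) := Finset.sum_nonneg fun c _ => Int.natCast_nonneg _
    have h2 : (1 : ℤ) ≤ (rr T : ℤ) := by exact_mod_cast use_rr_pos T
    have h3 : (3 * T + m : ℤ) ≤ E := by exact_mod_cast hE
    have h4 : (0 : ℤ) ≤ m := Int.natCast_nonneg m
    have h5 : (rr T : ℤ) * (T + ((T : ℤ) * 5 - 5 * E - ∑ c, ((i c : ℕ) : ℤ) + 3 * E)) ≤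
        (rr T : ℤ) * (-m) := mul_le_mul_of_nonneg_left (by linarith) (by linarith)
    have h6 : (rr T : ℤ) * (-m) ≤ -m := by nlinarith
    linarith
  · rw [uu, if_neg hd]
    exact AddSubgroup.zero_mem _

end H48SM

end S_Use

section S_Fin

/-! # Assembly -/

set_option autoImplicit false

namespace H48SM

theorem stringy_congr {β : Prop} {T t : ℕ} (ht : 0 < t) {c : Mot (ZMod 2) (rr T) β →+* ℝ}
    (hc : IsPC (rr T) t c) {u u' : ℕ → Mot (ZMod 2) (Nat.card (GB T)) β}
    (hu : IsStringy (GB T) u) (hu' : IsStringy (GB T) u') (e : ℕ) : c (u e) = c (u' e) := by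
  obtain ⟨n₁, h₁⟩ := hu e
  obtain ⟨n₂, h₂⟩ := hu' e
  obtain ⟨x, hx, hxe⟩ := h₁ (max n₁ n₂) (le_max_left _ _)
  obtain ⟨y, hy, hye⟩ := h₂ (max n₁ n₂) (le_max_right _ _)
  have hr : 0 < rr T := Nat.card_pos
  have hxy : c x = c y := pc_hasClass hr ht hc hx hy
  rw [hxe, hye]
  simp only [map_mul, hxy]

theorem sum_dvd (R M : ℕ) (hR : 0 < R) (f : ℕ → ℝ) :
    ∑ e ∈ Finset.range (R * M), (if R ∣ e then f (e / R) else 0) =
      ∑ E ∈ Finset.range M, f E := by
  induction M with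
  | zero => simp
  | succ M ih =>
    rw [Nat.mul_succ, Finset.sum_range_add, ih, Finset.sum_range_succ]
    congr 1
    obtain ⟨R', rfl⟩ : ∃ R', R = R' + 1 := ⟨R - 1, by omega⟩
    rw [Finset.sum_range_succ']
    rw [Finset.sum_eq_zero]
    · simp
    · intro i hi
      rw [Finset.mem_range] at hi
      rw [if_neg]
      intro hd
      have h2 : R' + 1 ∣ i + 1 := (Nat.dvd_add_right (Dvd.intro M rfl)).mp hd
      have := Nat.le_of_dvd (by omega) h2
      omega

theorem sum_uu {β : Prop} (T M : ℕ) (c : Mot (ZMod 2) (rr T) β →+* ℝ) :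
    ∑ e ∈ Finset.range (3 * rr T * M), c (uu β T e) = ∑ E ∈ Finset.range M, c (uE β T E) := by
  have hr : 0 < 3 * rr T := by
    have : 0 < rr T := Nat.card_pos
    omega
  rw [← sum_dvd (3 * rr T) M hr (fun E => c (uE β T E))]
  refine Finset.sum_congr rfl ?_
  intro e _
  unfold uu
  split_ifs
  · rfl
  · exact map_zero c

/-- no expression with at most `s` factors in each denominator -/
theorem no_expression {β : Prop} (T s : ℕ) (hsT : s < T)
    (u : ℕ → Mot (ZMod 2) (Nat.card (GB T)) β)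
    (hu : IsStringy (GB T) u) (n : ℕ) (ξ : Fin n → Mot (ZMod 2) (Nat.card (GB T)) β)
    (a : Fin n → Fin s → ℕ) (ha : ∀ i l, 0 < a i l) (hs : SameLimit u (fracSum s n ξ a)) :
    False := by
  have hT0 : 0 < T := by omega
  have hr : 0 < rr T := Nat.card_pos
  have hr2 : rr T = 2 ^ T := card_GB T
  -- bounds for the coefficients
  choose Jf Cf hJC using fun i => mot_bound hr (ξ i)
  set J : ℕ := ∑ i, Jf i with hJ
  set C₀ : ℝ := ∑ i, |Cf i| with hC₀
  have hJi : ∀ i, Jf i ≤ J := fun i => Finset.single_le_sum (fun _ _ => Nat.zero_le _)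
    (Finset.mem_univ i)
  have hCi : ∀ i, |Cf i| ≤ C₀ := fun i => Finset.single_le_sum (f := fun i => |Cf i|)
    (fun _ _ => abs_nonneg _) (Finset.mem_univ i)
  have hξ : ∀ i, ∀ t > 0, ∀ c, IsPC (rr T) t c → |c (ξ i)| ≤ C₀ * 2 ^ (t * J) := by
    intro i t ht c hc
    refine ((hJC i t ht c hc).1).trans ?_
    have h1 : Cf i ≤ C₀ := (le_abs_self _).trans (hCi i)
    have h2 : (2 : ℝ) ^ (t * Jf i) ≤ 2 ^ (t * J) :=
      pow_le_pow_right₀ (by norm_num) (Nat.mul_le_mul_left t (hJi i))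
    have h3 : (0 : ℝ) ≤ C₀ := (abs_nonneg _).trans (hCi i)
    exact (mul_le_mul_of_nonneg_right h1 (by positivity)).trans
      (mul_le_mul_of_nonneg_left h2 h3)
  have hξz : ∀ i, ∀ t > 0, ∀ c, IsPC (rr T) t c → ∃ z : ℤ, c (ξ i) * 2 ^ (t * J) = z := by
    intro i t ht c hc
    obtain ⟨z, hz⟩ := (hJC i t ht c hc).2
    refine ⟨z * 2 ^ (t * (J - Jf i)), ?_⟩
    have h1 : t * J = t * Jf i + t * (J - Jf i) := by
      rw [← Nat.mul_add, Nat.add_sub_cancel' (hJi i)]
    rw [h1, pow_add, ← mul_assoc, hz]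
    push_cast
    ring
  -- the realisations
  choose cf hcf using fun t : {t : ℕ // 0 < t} => exists_pc β (r := rr T) hr t.2
  set x : ℕ → Fin n → ℝ := fun t i => if ht : 0 < t then cf ⟨t, ht⟩ (ξ i) else 0 with hx
  have hxt : ∀ t (ht : 0 < t) i, x t i = cf ⟨t, ht⟩ (ξ i) := by
    intro t ht i
    simp only [hx, dif_pos ht]
  have hz : ∀ t > 0, ∀ i, ∃ z : ℤ, x t i * 2 ^ (t * J) = z := by
    intro t ht i
    rw [hxt t ht]
    exact hξz i t ht _ (hcf ⟨t, ht⟩)
  have key : ∀ m : ℕ, ∃ C : ℝ, ∀ t > 0,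
      |AA (rr T) T t - ∑ i, x t i * ∏ l, (1 / ((2 : ℝ) ^ (t * a i l) - 1))| ≤
        C * (1 / 2) ^ (t * m) := by
    intro m
    obtain ⟨M₁, h₁⟩ := num_u β T hT0 m
    obtain ⟨M₂, h₂⟩ := num_v hr s n ξ a ha J C₀ hξ m
    obtain ⟨M₃, h₃⟩ := hs m
    set M := M₁ + M₂ + M₃ with hM
    have hN : M ≤ 3 * rr T * M := Nat.le_mul_of_pos_left _ (by omega)
    obtain ⟨C₁, h₁⟩ := h₁ M (by omega)
    obtain ⟨C₂, h₂⟩ := h₂ (3 * rr T * M) (by omega)
    obtain ⟨C₃, h₃⟩ := fil_bound hr m _ (h₃ (3 * rr T * M) (by omega))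
    refine ⟨C₁ + C₃ + C₂, ?_⟩
    intro t ht
    have hc := hcf ⟨t, ht⟩
    have e₁ := h₁ t ht _ hc
    have e₂ := h₂ t ht _ hc
    have e₃ := h₃ t ht _ hc
    rw [map_sub, map_sum, map_sum] at e₃
    have e₄ : ∑ e ∈ Finset.range (3 * rr T * M), cf ⟨t, ht⟩ (u e) =
        ∑ E ∈ Finset.range M, cf ⟨t, ht⟩ (uE β T E) := by
      rw [← sum_uu T M (cf ⟨t, ht⟩)]
      exact Finset.sum_congr rfl fun e _ => stringy_congr ht hc hu (isStringy_uu β T) e
    rw [e₄] at e₃
    simp only [hxt t ht]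
    set A := AA (rr T) T t
    set B := ∑ E ∈ Finset.range M, cf ⟨t, ht⟩ (uE β T E)
    set D := ∑ N ∈ Finset.range (3 * rr T * M), cf ⟨t, ht⟩ (fracSum s n ξ a N)
    set V := ∑ i, cf ⟨t, ht⟩ (ξ i) * ∏ l, (1 / ((2 : ℝ) ^ (t * a i l) - 1))
    have e₅ : A - V = -(B - A) + (B - D) + (D - V) := by ring
    rw [e₅, add_mul, add_mul]
    refine (abs_add_le _ _).trans (add_le_add ((abs_add_le _ _).trans (add_le_add ?_ e₃)) e₂)
    rw [abs_neg]
    exact e₁
  obtain ⟨t₀, ht₀⟩ := num_int T s n (rr T) J x a ha hz key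
  exact num_val T s n (rr T) J hsT hr2 x a ha hz t₀ ht₀

/-- the theorem -/
theorem final (β : Prop) (s : ℕ) :
    ∃ (ι : Type) (_ : Fintype ι) (_ : DecidableEq ι)
      (G : Subgroup (Matrix.GeneralLinearGroup ι (ZMod 2))) (_ : Finite G),
      (∀ g ∈ G, (g.val - 1).rank ≠ 1) ∧
      (∃ u : ℕ → Mot (ZMod 2) (Nat.card G) β, IsStringy G u ∧ Conv u) ∧
      ∀ u : ℕ → Mot (ZMod 2) (Nat.card G) β, IsStringy G u →
        ¬ ∃ (n : ℕ) (ξ : Fin n → Mot (ZMod 2) (Nat.card G) β)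
        (a : Fin n → Fin s → ℕ), (∀ i l, 0 < a i l) ∧ SameLimit u (fracSum s n ξ a) := by
  refine ⟨Cx (s + 1), inferInstance, inferInstance, GB (s + 1), inferInstance, rank_GB _,
    ⟨uu β (s + 1), isStringy_uu _ _, conv_uu _ _⟩, ?_⟩
  rintro u hu ⟨n, ξ, a, ha, hs⟩
  exact no_expression (s + 1) s (Nat.lt_succ_self s) u hu n ξ a ha hs

end H48SM

end S_Fin
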